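import Pool.Agent.N805.VP.Stm

/-! # Covering probabilities: sets of small total length, and the opposite inequality -/

set_option autoImplicit false

open MeasureTheory Set Filter Topology

namespace Pool.Agent.N805.VP

variable (l : Filter ℝ) (J : ℝ → Finset ℕ) (x : ℝ → ℕ → ℝ) (X : ℝ → ℝ)

/-- one-sided bound of the moments of products of `m` cells of size `1 / r`, error `o (1 / r ^ m)` -/
def OneC' (σ : ℝ) (m : ℕ) : Prop := ∀ (b : ℕ) (η : ℝ), 0 < η → ∃ r₀ : ℕ, 1 ≤ r₀ ∧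
  ∀ r : ℕ, r₀ ≤ r → ∀ f : Fin m → ℤ, (∀ i, |f i| ≤ b * r) → ∀ ε : ℝ, 0 < ε → ∀ᶠ T in l,
    σ * (mom (J T) (x T) (fun i => cell (1 / r) (f i)) / X T - G (fun i => cell (1 / (r : ℝ)) (f i))) ≤
      η / (r : ℝ) ^ m + ε

/-- one-sided bound of the moments of powers of unions of cells, total length at most `c` -/
def OneU' (c σ : ℝ) (m : ℕ) : Prop := ∀ r : ℕ, 1 ≤ r → ∀ A : Finset ℤ, (A.card : ℝ) / r ≤ c →
  ∀ ε : ℝ, 0 < ε → ∀ᶠ T in l, σ * (mom (J T) (x T) (fun _ : Fin m => U (1 / r) A) / X T -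
      G (fun _ : Fin m => U (1 / (r : ℝ)) A)) ≤ ε

/-- weak repulsion: two points in one small cell are rare -/
def Rep : Prop := ∀ η : ℝ, 0 < η → ∃ r₀ : ℕ, 1 ≤ r₀ ∧ ∀ r : ℕ, r₀ ≤ r → ∀ a : ℤ, ∀ᶠ T in l,
  mom (J T) (x T) (fun _ : Fin 2 => cell (1 / r) a) / X T ≤ η / (r : ℝ) ^ 2

/-- from unions to cells -/
def S_CELE2 : Prop := S_DET → S_SPL → S_SYM → ∀ (l : Filter ℝ) (J : ℝ → Finset ℕ) (x : ℝ → ℕ → ℝ)
  (X : ℝ → ℝ), (∀ᶠ T in l, 0 < X T) → ∀ c : ℝ, 0 < c → ∀ m : ℕ, 1 ≤ m → OneU' l J x X c 1 m →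
  OneC' l J x X 1 m

/-- from unions to cells, lower bounds, at least three points -/
def S_CELO2 : Prop := S_DET → S_SPL → S_SYM → S_HOL → ∀ (l : Filter ℝ) (J : ℝ → Finset ℕ)
  (x : ℝ → ℕ → ℝ) (X : ℝ → ℝ), (∀ᶠ T in l, 0 < X T) → ∀ c : ℝ, 0 < c → ∀ m : ℕ, 3 ≤ m →
  Mom l J x X → EqP l J x X (m - 1) → OneU' l J x X c (-1) m → OneC' l J x X (-1) m

/-- from unions to cells, lower bounds, two points -/
def S_CELR : Prop := S_DET → S_SPL → S_SYM → ∀ (l : Filter ℝ) (J : ℝ → Finset ℕ)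
  (x : ℝ → ℕ → ℝ) (X : ℝ → ℝ), (∀ᶠ T in l, 0 < X T) → ∀ c : ℝ, 0 < c → Rep l J x X →
  OneU' l J x X c (-1) 2 → OneC' l J x X (-1) 2

/-- from cells to differences -/
def S_DIF2 : Prop := S_DET → ∀ (l : Filter ℝ) (J : ℝ → Finset ℕ) (x : ℝ → ℕ → ℝ)
  (X : ℝ → ℝ), (∀ᶠ T in l, 0 < X T) → ∀ (k : ℕ) (σ : ℝ), (σ = 1 ∨ σ = -1) →
  OneC' l J x X σ (k + 1) → OneD l J x X σ k

/-- thinning of the configuration, upper bound -/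
def S_THIN2 : Prop := ∀ (J : Finset ℕ) (x : ℕ → ℝ) (h : ℝ), 0 < h → ∀ (A : Finset ℤ) (z : ℝ),
  0 ≤ z → z ≤ 1 → ∫ t, (1 - (1 - z) ^ cnt J x (U h A) t) ≤
    ∑ S ∈ A.powerset, z ^ S.card * (1 - z) ^ (A.card - S.card) * cov J x (U h S) +
      ∑ a ∈ A, mom J x (fun _ : Fin 2 => cell h a)

/-- thinning of the Fredholm determinant, upper bound -/
def S_GTHIN2 : Prop := S_DET → ∀ (h : ℝ), 0 < h → ∀ (A : Finset ℤ) (z : ℝ), 0 ≤ z → z ≤ 1 →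
  ∑ S ∈ A.powerset, z ^ S.card * (1 - z) ^ (A.card - S.card) * (1 - E (U h S)) ≤
    1 - Phi z (U h A) + h * (h * A.card) * Real.exp (h * A.card)

/-- real analysis: from all small `z` to one moment, opposite inequality -/
def S_OSL2 : Prop := ∀ (l : Filter ℝ) (a : ℕ → ℝ → ℝ) (F : ℝ → ℝ → ℝ) (g : ℕ → ℝ) (v : ℝ) (m : ℕ),
  1 ≤ m → g 0 = 1 → (∀ k, 0 ≤ g k ∧ g k ≤ v ^ k) → (∀ k T, 0 ≤ a k T) →
  (∀ k, 1 ≤ k → k < m → Tendsto (a k) l (𝓝 (g k))) → (∃ C : ℝ, ∀ᶠ T in l, a (m + 1) T ≤ C) →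
  (∀ z : ℝ, 0 < z → z ≤ 1 → ∀ ε : ℝ, 0 < ε → ∀ᶠ T in l,
    F z T ≤ 1 - (∑' k : ℕ, (-z) ^ k / (k.factorial : ℝ) * g k) + ε) →
  (∀ z : ℝ, 0 < z → z ≤ 1 → ∀ K : ℕ, Even K → ∀ᶠ T in l, -∑ k ∈ Finset.range K,
    (-z) ^ (k + 1) / ((k + 1).factorial : ℝ) * a (k + 1) T ≤ F z T) →
  (Odd m → ∀ ε : ℝ, 0 < ε → ∀ᶠ T in l, a m T ≤ g m + ε) ∧
  (Even m → ∀ ε : ℝ, 0 < ε → ∀ᶠ T in l, g m - ε ≤ a m T)

end Pool.Agent.N805.VP
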