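import Mathlib

/-! # Covering probabilities characterise the GUE correlations: definitions and statements -/

set_option autoImplicit false

open MeasureTheory Set Filter Topology

namespace Pool.Agent.N805.VP

/-- the cell `[a h, (a + 1) h)` -/
def cell (h : ℝ) (a : ℤ) : Set ℝ := Ico (a * h) ((a + 1) * h)

/-- the union of the cells with index in `A` -/
def U (h : ℝ) (A : Finset ℤ) : Set ℝ := ⋃ a ∈ A, cell h a

open scoped Classical in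
/-- the number of points `x n`, `n ∈ J`, in `t + W` -/
noncomputable def cnt (J : Finset ℕ) (x : ℕ → ℝ) (W : Set ℝ) (t : ℝ) : ℕ :=
  (J.filter fun n => x n - t ∈ W).card

/-- the length of the set of the `t` such that `t + W` contains a point -/
noncomputable def cov (J : Finset ℕ) (x : ℕ → ℝ) (W : Set ℝ) : ℝ :=
  volume.real {t : ℝ | ∃ n ∈ J, x n - t ∈ W}

open scoped Classical in
/-- the tuples of distinct indices, the `i`-th point in `t + c i` -/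
noncomputable def tup (J : Finset ℕ) (x : ℕ → ℝ) {k : ℕ} (c : Fin k → Set ℝ) (t : ℝ) :
    Finset (Fin k → ℕ) :=
  (Fintype.piFinset fun _ => J).filter fun j => Function.Injective j ∧ ∀ i, x (j i) - t ∈ c i

/-- the factorial moment (integrated over `t`) -/
noncomputable def mom (J : Finset ℕ) (x : ℕ → ℝ) {k : ℕ} (c : Fin k → Set ℝ) : ℝ :=
  ∫ t, ((tup J x c t).card : ℝ)

open scoped Classical in
/-- tuples with differences in a box: a base index and the other indices -/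
noncomputable def dif (J : Finset ℕ) (x : ℕ → ℝ) {k : ℕ} (a b : Fin k → ℝ) :
    Finset (ℕ × (Fin k → ℕ)) :=
  (J ×ˢ (Fintype.piFinset fun _ => J)).filter fun p => Function.Injective p.2 ∧
    (∀ i, p.2 i ≠ p.1) ∧ ∀ i, x (p.2 i) - x p.1 ∈ Icc (a i) (b i)

/-- the determinant of the sine kernel -/
noncomputable def D {k : ℕ} (q : Fin k → ℝ) : ℝ :=
  Matrix.det (Matrix.of fun i j : Fin k => Real.sinc (Real.pi * (q i - q j)))

/-- its integral over a product set -/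
noncomputable def G {k : ℕ} (c : Fin k → Set ℝ) : ℝ := ∫ q in Set.pi univ c, D q

/-- its integral over a box of differences -/
noncomputable def H {k : ℕ} (a b : Fin k → ℝ) : ℝ :=
  ∫ u in Icc a b, D (Fin.cons 0 u : Fin (k + 1) → ℝ)

/-- the Fredholm determinant `det (1 - z K_W)` -/
noncomputable def Phi (z : ℝ) (W : Set ℝ) : ℝ :=
  ∑' k : ℕ, (-z) ^ k / (k.factorial : ℝ) * G (fun _ : Fin k => W)

/-- the Fredholm determinant `det (1 - K_W)` -/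
noncomputable def E (W : Set ℝ) : ℝ := Phi 1 W

/-! ## Statements -/

/-- the determinant -/
def S_DET : Prop := ∀ (k : ℕ) (q : Fin k → ℝ), 0 ≤ D q ∧ D q ≤ 1 ∧
  ∀ i j, i ≠ j → D q ≤ 4 * (q i - q j) ^ 2

/-- thinning of the configuration -/
def S_THIN : Prop := ∀ (J : Finset ℕ) (x : ℕ → ℝ) (h : ℝ), 0 < h → ∀ (A : Finset ℤ) (z : ℝ),
  0 ≤ z → z ≤ 1 → ∑ S ∈ A.powerset, z ^ S.card * (1 - z) ^ (A.card - S.card) * cov J x (U h S) ≤
    ∫ t, (1 - (1 - z) ^ cnt J x (U h A) t)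

/-- thinning of the Fredholm determinant -/
def S_GTHIN : Prop := S_DET → ∀ (h : ℝ), 0 < h → ∀ (A : Finset ℤ) (z : ℝ), 0 ≤ z → z ≤ 1 →
  1 - Phi z (U h A) - h * (h * A.card) * Real.exp (h * A.card) ≤
    ∑ S ∈ A.powerset, z ^ S.card * (1 - z) ^ (A.card - S.card) * (1 - E (U h S))

/-- inclusion-exclusion inequalities -/
def S_BON : Prop := ∀ (J : Finset ℕ) (x : ℕ → ℝ) (W : Set ℝ), MeasurableSet W →
  (∃ b : ℝ, W ⊆ Icc (-b) b) → (∀ z : ℝ, 0 ≤ z → z ≤ 1 → ∀ K : ℕ,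
    (Odd K → ∫ t, (1 - (1 - z) ^ cnt J x W t) ≤ -∑ k ∈ Finset.range K,
      (-z) ^ (k + 1) / ((k + 1).factorial : ℝ) * mom J x (fun _ : Fin (k + 1) => W)) ∧
    (Even K → -∑ k ∈ Finset.range K,
      (-z) ^ (k + 1) / ((k + 1).factorial : ℝ) * mom J x (fun _ : Fin (k + 1) => W) ≤
      ∫ t, (1 - (1 - z) ^ cnt J x W t))) ∧
  cov J x W = ∫ t, (1 - (1 - 1 : ℝ) ^ cnt J x W t)

/-- real analysis: from all small `z` to one moment -/
def S_OSL : Prop := ∀ (l : Filter ℝ) (a : ℕ → ℝ → ℝ) (F : ℝ → ℝ → ℝ) (g : ℕ → ℝ) (v : ℝ) (m : ℕ),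
  1 ≤ m → g 0 = 1 → (∀ k, 0 ≤ g k ∧ g k ≤ v ^ k) → (∀ k T, 0 ≤ a k T) →
  (∀ k, 1 ≤ k → k < m → Tendsto (a k) l (𝓝 (g k))) → (∃ C : ℝ, ∀ᶠ T in l, a (m + 1) T ≤ C) →
  (∀ z : ℝ, 0 < z → z ≤ 1 → ∀ ε : ℝ, 0 < ε → ∀ᶠ T in l,
    1 - (∑' k : ℕ, (-z) ^ k / (k.factorial : ℝ) * g k) - ε ≤ F z T) →
  (∀ z : ℝ, 0 < z → z ≤ 1 → ∀ K : ℕ, Odd K → ∀ᶠ T in l, F z T ≤ -∑ k ∈ Finset.range K,
    (-z) ^ (k + 1) / ((k + 1).factorial : ℝ) * a (k + 1) T) →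
  (Even m → ∀ ε : ℝ, 0 < ε → ∀ᶠ T in l, a m T ≤ g m + ε) ∧
  (Odd m → ∀ ε : ℝ, 0 < ε → ∀ᶠ T in l, g m - ε ≤ a m T)

/-- splitting into disjoint pieces; symmetry -/
def S_SPL : Prop :=
  (∀ (ι : Type) [DecidableEq ι] (J : Finset ℕ) (x : ℕ → ℝ) (C : ι → Set ℝ) (A : Finset ι),
    (∀ a ∈ A, MeasurableSet (C a) ∧ ∃ b : ℝ, C a ⊆ Icc (-b) b) → (A : Set ι).PairwiseDisjoint C →
    ∀ k : ℕ, mom J x (fun _ : Fin k => ⋃ a ∈ A, C a) =
      ∑ g ∈ Fintype.piFinset (fun _ : Fin k => A), mom J x (fun i => C (g i)) ∧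
    G (fun _ : Fin k => ⋃ a ∈ A, C a) =
      ∑ g ∈ Fintype.piFinset (fun _ : Fin k => A), G (fun i => C (g i))) ∧
  (∀ (J : Finset ℕ) (x : ℕ → ℝ) (k : ℕ) (σ : Equiv.Perm (Fin k)) (c : Fin k → Set ℝ),
    mom J x (fun i => c (σ i)) = mom J x c ∧ G (fun i => c (σ i)) = G c)

open scoped Classical in
/-- sums of symmetric functions over maps onto a finite set -/
def S_SYM : Prop := ∀ (k : ℕ) (F : (Fin k → ℤ) → ℝ),
  (∀ (σ : Equiv.Perm (Fin k)) (g : Fin k → ℤ), F (fun i => g (σ i)) = F g) →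
  ∀ f : Fin k → ℤ, Function.Injective f →
    ∑ g ∈ Fintype.piFinset (fun _ : Fin k => Finset.univ.image f), F g = k.factorial * F f +
      ∑ g ∈ (Fintype.piFinset (fun _ : Fin k => Finset.univ.image f)).filter
        (fun g => ¬ Function.Injective g), F g

/-- forgetting one point -/
def S_HOL : Prop := ∀ (J : Finset ℕ) (x : ℕ → ℝ) (m : ℕ) (c : Fin (m + 1) → Set ℝ) (W : Set ℝ),
  1 ≤ m → (∀ i, MeasurableSet (c i) ∧ c i ⊆ W) → MeasurableSet W → (∃ b : ℝ, W ⊆ Icc (-b) b) →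
  ∀ (i : Fin (m + 1)) (K : ℝ), 0 < K → ∀ p : ℕ, mom J x c ≤
    K * mom J x (fun j : Fin m => c (i.succAbove j)) +
      K⁻¹ ^ p * ∫ t, (cnt J x W t : ℝ) ^ ((m + 1) * (p + 1))

/-- finite unions of intervals are disjoint unions -/
def S_DEC : Prop := ∀ (n : ℕ) (a b : Fin n → ℝ), ∃ (m : ℕ) (c d : Fin m → ℝ), (∀ i, c i < d i) ∧
  (univ : Set (Fin m)).PairwiseDisjoint (fun i => Ico (c i) (d i)) ∧
  ⋃ i, Ico (a i) (b i) = ⋃ i, Ico (c i) (d i)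

variable (l : Filter ℝ) (J : ℝ → Finset ℕ) (x : ℝ → ℕ → ℝ) (X : ℝ → ℝ)

/-- convergence of the moments of products of `m` intervals -/
def EqP (m : ℕ) : Prop := ∀ a b : Fin m → ℝ, (∀ i, a i < b i) →
  Tendsto (fun T => mom (J T) (x T) (fun i => Ico (a i) (b i)) / X T) l
    (𝓝 (G fun i => Ico (a i) (b i)))

/-- convergence of the counts in boxes of differences -/
def EqD (k : ℕ) : Prop := ∀ a b : Fin k → ℝ, (∀ i, a i < b i) →
  Tendsto (fun T => ((dif (J T) (x T) a b).card : ℝ) / X T) l (𝓝 (H a b))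

/-- one-sided bound of the counts in boxes of differences -/
def OneD (σ : ℝ) (k : ℕ) : Prop := ∀ a b : Fin k → ℝ, (∀ i, a i < b i) → ∀ ε : ℝ, 0 < ε →
  ∀ᶠ T in l, σ * (((dif (J T) (x T) a b).card : ℝ) / X T - H a b) ≤ ε

/-- one-sided bound of the moments of products of `m` cells of size `1 / r` -/
def OneC (σ : ℝ) (m : ℕ) : Prop := ∀ b : ℕ, ∃ C : ℝ, 0 ≤ C ∧ ∀ r : ℕ, 1 ≤ r → ∀ f : Fin m → ℤ,
  (∀ i, |f i| ≤ b * r) → ∀ ε : ℝ, 0 < ε → ∀ᶠ T in l,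
    σ * (mom (J T) (x T) (fun i => cell (1 / r) (f i)) / X T - G (fun i => cell (1 / (r : ℝ)) (f i))) ≤
      C / (r : ℝ) ^ m / Real.sqrt r + ε

/-- one-sided bound of the moments of powers of unions of cells -/
def OneU (σ : ℝ) (m : ℕ) : Prop := ∀ r : ℕ, 1 ≤ r → ∀ A : Finset ℤ, ∀ ε : ℝ, 0 < ε → ∀ᶠ T in l,
    σ * (mom (J T) (x T) (fun _ : Fin m => U (1 / r) A) / X T -
      G (fun _ : Fin m => U (1 / (r : ℝ)) A)) ≤ ε

/-- bounded moments -/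
def Mom : Prop := ∀ (b : ℝ) (p : ℕ), 1 ≤ p → ∃ C : ℝ, 0 ≤ C ∧ ∀ᶠ T in l,
  ∫ t, (cnt (J T) (x T) (Icc (-b) b) t : ℝ) ^ p ≤ C * X T

/-- from unions to cells, an even number of points -/
def S_CELE : Prop := S_DET → S_SPL → S_SYM → ∀ (l : Filter ℝ) (J : ℝ → Finset ℕ) (x : ℝ → ℕ → ℝ)
  (X : ℝ → ℝ), (∀ᶠ T in l, 0 < X T) → ∀ m : ℕ, 1 ≤ m → OneU l J x X 1 m → OneC l J x X 1 m

/-- from unions to cells, an odd number of points -/
def S_CELO : Prop := S_DET → S_SPL → S_SYM → S_HOL → ∀ (l : Filter ℝ) (J : ℝ → Finset ℕ)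
  (x : ℝ → ℕ → ℝ) (X : ℝ → ℝ), (∀ᶠ T in l, 0 < X T) → ∀ m : ℕ, 3 ≤ m → Mom l J x X →
  EqP l J x X (m - 1) → OneU l J x X (-1) m → OneC l J x X (-1) m

/-- from differences to products -/
def S_PRD : Prop := S_DET → ∀ (l : Filter ℝ) (J : ℝ → Finset ℕ) (x : ℝ → ℕ → ℝ)
  (X : ℝ → ℝ), (∀ᶠ T in l, 0 < X T) → ∀ k : ℕ, EqD l J x X k → EqP l J x X (k + 1)

/-- from cells to differences -/
def S_DIF : Prop := S_DET → ∀ (l : Filter ℝ) (J : ℝ → Finset ℕ) (x : ℝ → ℕ → ℝ)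
  (X : ℝ → ℝ), (∀ᶠ T in l, 0 < X T) → ∀ (k : ℕ) (σ : ℝ), (σ = 1 ∨ σ = -1) →
  OneC l J x X σ (k + 1) → OneD l J x X σ k

/-- convergence of all moments gives the covering probabilities -/
def S_COV : Prop := S_DET → S_SPL → S_BON → S_DEC → ∀ (l : Filter ℝ) (J : ℝ → Finset ℕ)
  (x : ℝ → ℕ → ℝ) (X : ℝ → ℝ), (∀ᶠ T in l, 0 < X T) → (∀ m : ℕ, 1 ≤ m → EqP l J x X m) →
  ∀ (n : ℕ) (a b : Fin n → ℝ), Tendsto (fun T => cov (J T) (x T) (⋃ i, Ico (a i) (b i)) / X T) l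
    (𝓝 (1 - E (⋃ i, Ico (a i) (b i))))

end Pool.Agent.N805.VP
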