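import Pool.Agent.N805.VP.Stm

/-! # Covering probabilities: basic lemmas -/

set_option autoImplicit false

open MeasureTheory Set Filter Topology

namespace Pool.Agent.N805.VP

variable {J : Finset ℕ} {x : ℕ → ℝ}

/-! ## Counting functions -/

lemma meas_pt {W : Set ℝ} (hW : MeasurableSet W) (n : ℕ) : MeasurableSet {t : ℝ | x n - t ∈ W} :=
  (measurable_const.sub measurable_id) hW

lemma mem_tup {k : ℕ} {c : Fin k → Set ℝ} {t : ℝ} {j : Fin k → ℕ} : j ∈ tup J x c t ↔
    (∀ i, j i ∈ J) ∧ Function.Injective j ∧ ∀ i, x (j i) - t ∈ c i := by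
  classical
  unfold tup
  rw [Finset.mem_filter, Fintype.mem_piFinset]

lemma mem_dif {k : ℕ} {a b : Fin k → ℝ} {p : ℕ × (Fin k → ℕ)} : p ∈ dif J x a b ↔
    (p.1 ∈ J ∧ ∀ i, p.2 i ∈ J) ∧ Function.Injective p.2 ∧ (∀ i, p.2 i ≠ p.1) ∧
    ∀ i, x (p.2 i) - x p.1 ∈ Icc (a i) (b i) := by
  classical
  unfold dif
  rw [Finset.mem_filter, Finset.mem_product, Fintype.mem_piFinset]

/-- the count as a sum of indicators -/
lemma cnt_sum (W : Set ℝ) (t : ℝ) :
    (cnt J x W t : ℝ) = ∑ n ∈ J, {s : ℝ | x n - s ∈ W}.indicator (fun _ => (1 : ℝ)) t := by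
  classical
  unfold cnt
  rw [Finset.card_filter]
  push_cast
  refine Finset.sum_congr rfl fun n _ => ?_
  rw [indicator_apply]
  rfl

open scoped Classical in
/-- the number of tuples as a sum of indicators -/
lemma tup_sum {k : ℕ} (c : Fin k → Set ℝ) (t : ℝ) : ((tup J x c t).card : ℝ) =
    ∑ j ∈ (Fintype.piFinset fun _ : Fin k => J).filter Function.Injective,
      {s : ℝ | ∀ i, x (j i) - s ∈ c i}.indicator (fun _ => (1 : ℝ)) t := by
  unfold tup
  rw [← Finset.filter_filter, Finset.card_filter]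
  push_cast
  refine Finset.sum_congr rfl fun j _ => ?_
  rw [indicator_apply]
  rfl

lemma cnt_meas {W : Set ℝ} (hW : MeasurableSet W) : Measurable fun t => (cnt J x W t : ℝ) := by
  simp_rw [cnt_sum]
  exact Finset.measurable_sum _ fun n _ => measurable_const.indicator (meas_pt hW n)

lemma meas_tup {k : ℕ} {c : Fin k → Set ℝ} (hc : ∀ i, MeasurableSet (c i)) (j : Fin k → ℕ) :
    MeasurableSet {s : ℝ | ∀ i, x (j i) - s ∈ c i} := by
  rw [setOf_forall]
  exact MeasurableSet.iInter fun i => meas_pt (hc i) (j i)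

lemma tup_meas {k : ℕ} {c : Fin k → Set ℝ} (hc : ∀ i, MeasurableSet (c i)) :
    Measurable fun t => ((tup J x c t).card : ℝ) := by
  classical
  simp_rw [tup_sum]
  exact Finset.measurable_sum _ fun j _ => measurable_const.indicator (meas_tup hc j)

lemma cnt_le (W : Set ℝ) (t : ℝ) : cnt J x W t ≤ J.card := by
  classical
  exact Finset.card_filter_le _ _

/-- tuples in a fixed set -/
lemma tup_const {k : ℕ} (W : Set ℝ) (t : ℝ) :
    (tup J x (fun _ : Fin k => W) t).card = (cnt J x W t).descFactorial k := by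
  classical
  have h1 : tup J x (fun _ : Fin k => W) t =
      (Fintype.piFinset fun _ : Fin k => J.filter fun n => x n - t ∈ W).filter
        Function.Injective := by
    ext j
    rw [mem_tup, Finset.mem_filter, Fintype.mem_piFinset]
    simp only [Finset.mem_filter]
    constructor
    · rintro ⟨h1, h2, h3⟩
      exact ⟨fun i => ⟨h1 i, h3 i⟩, h2⟩
    · rintro ⟨h1, h2⟩
      exact ⟨fun i => (h1 i).1, h2, fun i => (h1 i).2⟩
  rw [h1]
  unfold cnt
  obtain ⟨B, hB⟩ : ∃ B : Finset ℕ, B = J.filter fun n => x n - t ∈ W := ⟨_, rfl⟩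
  rw [← hB]
  have h2 : ((Fintype.piFinset fun _ : Fin k => B).filter Function.Injective).card =
      Fintype.card (Fin k ↪ B) := by
    rw [← Fintype.card_coe]
    refine Fintype.card_congr ⟨fun j => ⟨fun i => ⟨j.1 i, ?_⟩, ?_⟩, fun e => ⟨fun i => (e i : ℕ), ?_⟩,
      ?_, ?_⟩
    · have := (Finset.mem_filter.1 j.2).1
      rw [Fintype.mem_piFinset] at this
      exact this i
    · intro i i' h
      exact (Finset.mem_filter.1 j.2).2 (congrArg Subtype.val h)
    · rw [Finset.mem_filter, Fintype.mem_piFinset]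
      refine ⟨fun i => (e i).2, fun i i' h => e.injective (Subtype.ext h)⟩
    · intro j
      rfl
    · intro e
      rfl
  rw [h2, Fintype.card_embedding_eq, Fintype.card_fin, Fintype.card_coe]

lemma tup_le_pow {k : ℕ} {c : Fin k → Set ℝ} {W : Set ℝ} (hc : ∀ i, c i ⊆ W) (t : ℝ) :
    (tup J x c t).card ≤ cnt J x W t ^ k := by
  classical
  have h : tup J x c t ⊆ Fintype.piFinset fun _ : Fin k => J.filter fun n => x n - t ∈ W := by
    intro j hj
    rw [mem_tup] at hj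
    rw [Fintype.mem_piFinset]
    exact fun i => Finset.mem_filter.2 ⟨hj.1 i, hc i (hj.2.2 i)⟩
  refine (Finset.card_le_card h).trans (le_of_eq ?_)
  rw [Fintype.card_piFinset, Finset.prod_const, Finset.card_univ, Fintype.card_fin]
  rfl

lemma cnt_mono {W W' : Set ℝ} (h : W ⊆ W') (t : ℝ) : cnt J x W t ≤ cnt J x W' t :=
  Finset.card_le_card fun n hn => by
    classical
    rw [Finset.mem_filter] at hn ⊢
    exact ⟨hn.1, h hn.2⟩

lemma cnt_pos {W : Set ℝ} {t : ℝ} : 0 < cnt J x W t ↔ ∃ n ∈ J, x n - t ∈ W := by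
  classical
  unfold cnt
  rw [Finset.card_pos]
  constructor
  · rintro ⟨n, hn⟩
    exact ⟨n, (Finset.mem_filter.1 hn).1, (Finset.mem_filter.1 hn).2⟩
  · rintro ⟨n, h1, h2⟩
    exact ⟨n, Finset.mem_filter.2 ⟨h1, h2⟩⟩

/-- outside a bounded interval nothing is counted -/
lemma cnt_zero {W : Set ℝ} {b : ℝ} (hW : W ⊆ Icc (-b) b) : ∃ B : ℝ, ∀ t : ℝ, t ∉ Icc (-B) B →
    cnt J x W t = 0 := by
  refine ⟨b + ∑ n ∈ J, |x n|, fun t ht => ?_⟩
  by_contra h
  obtain ⟨n, hn, hx⟩ := cnt_pos.1 (Nat.pos_of_ne_zero h)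
  apply ht
  have h1 := hW hx
  have h2 : |x n| ≤ ∑ n ∈ J, |x n| := Finset.single_le_sum (f := fun n => |x n|)
    (fun _ _ => abs_nonneg _) hn
  have h3 := abs_le.1 (le_refl |x n|)
  constructor <;> linarith [h1.1, h1.2, h3.1, h3.2]

/-- functions of the count which vanish at `0` are integrable -/
lemma int_cnt {W : Set ℝ} (hW : MeasurableSet W) (hb : ∃ b : ℝ, W ⊆ Icc (-b) b) (f : ℕ → ℝ)
    (hf : f 0 = 0) : Integrable fun t => f (cnt J x W t) := by
  classical
  obtain ⟨b, hb⟩ := hb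
  obtain ⟨B, hB⟩ := cnt_zero (J := J) (x := x) hb
  have hm : Measurable fun t => f (cnt J x W t) := by
    have h1 : (fun t => f (cnt J x W t)) = fun t => f (⌊(cnt J x W t : ℝ)⌋₊) := by
      funext t
      rw [Nat.floor_natCast]
    rw [h1]
    exact (measurable_from_nat (f := f)).comp (Nat.measurable_floor.comp (cnt_meas hW))
  obtain ⟨M, hM⟩ : ∃ M : ℝ, ∀ t, ‖f (cnt J x W t)‖ ≤ M := by
    refine ⟨∑ i ∈ Finset.range (J.card + 1), ‖f i‖, fun t => ?_⟩
    exact Finset.single_le_sum (f := fun i => ‖f i‖) (fun _ _ => norm_nonneg _)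
      (Finset.mem_range.2 (Nat.lt_succ_of_le (cnt_le W t)))
  have h1 : (fun t => f (cnt J x W t)) = (Icc (-B) B).indicator fun t => f (cnt J x W t) := by
    funext t
    by_cases ht : t ∈ Icc (-B) B
    · rw [indicator_of_mem ht]
    · rw [indicator_of_notMem ht, hB t ht, hf]
  rw [h1, integrable_indicator_iff measurableSet_Icc]
  refine Measure.integrableOn_of_bounded (M := M) (by simp) hm.aestronglyMeasurable
    (ae_of_all _ fun t => hM t)

lemma int_tup {k : ℕ} {c : Fin k → Set ℝ} (hk : 1 ≤ k) (hc : ∀ i, MeasurableSet (c i))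
    (hb : ∃ b : ℝ, ∀ i, c i ⊆ Icc (-b) b) : Integrable fun t => ((tup J x c t).card : ℝ) := by
  obtain ⟨b, hb⟩ := hb
  have h1 := int_cnt (J := J) (x := x) (W := Icc (-b) b) measurableSet_Icc ⟨b, subset_rfl⟩
    (fun n => (n : ℝ) ^ k) (by simp; omega)
  refine h1.mono' (tup_meas hc).aestronglyMeasurable (ae_of_all _ fun t => ?_)
  rw [Real.norm_eq_abs, Nat.abs_cast]
  exact_mod_cast tup_le_pow hb t

lemma mom_nonneg {k : ℕ} (c : Fin k → Set ℝ) : 0 ≤ mom J x c :=
  integral_nonneg fun _ => Nat.cast_nonneg _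

lemma tup_mono {k : ℕ} {c c' : Fin k → Set ℝ} (h : ∀ i, c i ⊆ c' i) (t : ℝ) :
    (tup J x c t).card ≤ (tup J x c' t).card :=
  Finset.card_le_card fun j hj => by
    rw [mem_tup] at hj ⊢
    exact ⟨hj.1, hj.2.1, fun i => h i (hj.2.2 i)⟩

lemma mom_mono {k : ℕ} {c c' : Fin k → Set ℝ} (hk : 1 ≤ k) (h : ∀ i, c i ⊆ c' i)
    (hc : ∀ i, MeasurableSet (c i)) (hc' : ∀ i, MeasurableSet (c' i))
    (hb : ∃ b : ℝ, ∀ i, c' i ⊆ Icc (-b) b) : mom J x c ≤ mom J x c' := by
  have hb' : ∃ b : ℝ, ∀ i, c i ⊆ Icc (-b) b := by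
    obtain ⟨b, hb⟩ := hb
    exact ⟨b, fun i => (h i).trans (hb i)⟩
  refine integral_mono (int_tup hk hc hb') (int_tup hk hc' hb) fun t => ?_
  exact Nat.cast_le.2 (tup_mono h t)

open scoped Classical in
/-- the moment as a sum of lengths -/
lemma mom_sum {k : ℕ} {c : Fin k → Set ℝ} (hk : 1 ≤ k) (hc : ∀ i, MeasurableSet (c i))
    (hb : ∃ b : ℝ, ∀ i, c i ⊆ Icc (-b) b) : mom J x c =
    ∑ j ∈ (Fintype.piFinset fun _ : Fin k => J).filter Function.Injective,
      volume.real {s : ℝ | ∀ i, x (j i) - s ∈ c i} := by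
  obtain ⟨b, hb⟩ := hb
  have hfin : ∀ j : Fin k → ℕ, volume {s : ℝ | ∀ i, x (j i) - s ∈ c i} ≠ ⊤ := by
    intro j
    have h0 : {s : ℝ | ∀ i, x (j i) - s ∈ c i} ⊆
        Icc (x (j ⟨0, hk⟩) - b) (x (j ⟨0, hk⟩) + b) := by
      intro s hs
      have h1 := hb _ (hs ⟨0, hk⟩)
      constructor <;> linarith [h1.1, h1.2]
    exact ((measure_mono h0).trans_lt (by simp)).ne
  unfold mom
  simp_rw [tup_sum]
  rw [integral_finset_sum]
  · refine Finset.sum_congr rfl fun j _ => ?_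
    rw [integral_indicator (meas_tup hc j), setIntegral_const, smul_eq_mul, mul_one]
  · intro j _
    rw [integrable_indicator_iff (meas_tup hc j)]
    exact integrableOn_const (hfin j)

/-! ## Cells -/

lemma cell_meas (h : ℝ) (a : ℤ) : MeasurableSet (cell h a) := measurableSet_Ico

lemma U_meas (h : ℝ) (A : Finset ℤ) : MeasurableSet (U h A) :=
  Finset.measurableSet_biUnion _ fun a _ => cell_meas h a

lemma cell_vol (h : ℝ) (hh : 0 ≤ h) (a : ℤ) : volume.real (cell h a) = h := by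
  unfold cell
  rw [Real.volume_real_Ico_of_le (by nlinarith)]
  ring

lemma cell_disj {h : ℝ} (hh : 0 < h) : (univ : Set ℤ).PairwiseDisjoint (cell h) := by
  intro a _ b _ hab
  rw [Function.onFun, Set.disjoint_left]
  intro u hu hv
  apply hab
  have h1 : (a : ℝ) < b + 1 := by
    have := hu.1.trans_lt hv.2
    exact lt_of_mul_lt_mul_right this hh.le
  have h2 : (b : ℝ) < a + 1 := by
    have := hv.1.trans_lt hu.2
    exact lt_of_mul_lt_mul_right this hh.le
  have h3 : a < b + 1 := by exact_mod_cast h1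
  have h4 : b < a + 1 := by exact_mod_cast h2
  omega

lemma cell_bdd {h b : ℝ} (hh : 0 < h) {a : ℤ} (ha : |(a : ℝ)| * h ≤ b) :
    cell h a ⊆ Icc (-(b + h)) (b + h) := by
  intro u hu
  have h1 := hu.1
  have h2 := hu.2
  have h3 : a * h ≤ |(a : ℝ)| * h := mul_le_mul_of_nonneg_right (le_abs_self _) hh.le
  have h4 : -(|(a : ℝ)| * h) ≤ a * h := by
    have := mul_le_mul_of_nonneg_right (neg_abs_le (a : ℝ)) hh.le
    linarith
  constructor <;> nlinarith

lemma U_bdd (h : ℝ) (hh : 0 < h) (A : Finset ℤ) : ∃ b : ℝ, U h A ⊆ Icc (-b) b := by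
  refine ⟨(∑ a ∈ A, |(a : ℝ)| * h) + h, fun u hu => ?_⟩
  unfold U at hu
  rw [mem_iUnion₂] at hu
  obtain ⟨a, ha, hu⟩ := hu
  refine cell_bdd hh ?_ hu
  exact Finset.single_le_sum (f := fun a : ℤ => |(a : ℝ)| * h) (fun _ _ => by positivity) ha

/-! ## The determinant -/

lemma D_cont {k : ℕ} : Continuous fun q : Fin k → ℝ => D q := by
  unfold D
  refine Continuous.matrix_det ?_
  refine continuous_matrix fun i j => ?_
  simp only [Matrix.of_apply]
  exact Real.continuous_sinc.comp (by fun_prop)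

lemma D_zero (q : Fin 0 → ℝ) : D q = 1 := Matrix.det_isEmpty

lemma D_one (q : Fin 1 → ℝ) : D q = 1 := by
  unfold D
  rw [Matrix.det_fin_one]
  simp

/-- `D` depends on the differences only -/
lemma D_shift {k : ℕ} (q : Fin k → ℝ) (s : ℝ) : D (fun i => q i + s) = D q := by
  unfold D
  congr 1
  ext i j
  simp only [Matrix.of_apply]
  congr 2
  ring

/-- `D` is symmetric -/
lemma D_perm {k : ℕ} (σ : Equiv.Perm (Fin k)) (q : Fin k → ℝ) : D (fun i => q (σ i)) = D q := by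
  unfold D
  rw [← Matrix.det_submatrix_equiv_self σ (Matrix.of fun i j : Fin k =>
    Real.sinc (Real.pi * (q i - q j)))]
  rfl

lemma pi_fin {k : ℕ} {c : Fin k → Set ℝ} (hb : ∃ b : ℝ, ∀ i, c i ⊆ Icc (-b) b) :
    volume (Set.pi univ c) ≠ ⊤ := by
  obtain ⟨b, hb⟩ := hb
  have h1 : Set.pi univ c ⊆ Icc (fun _ => -b) fun _ => b := by
    intro q hq
    exact ⟨fun i => (hb i (hq i (mem_univ i))).1, fun i => (hb i (hq i (mem_univ i))).2⟩
  exact ((measure_mono h1).trans_lt isCompact_Icc.measure_lt_top).ne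

lemma D_int {k : ℕ} {c : Fin k → Set ℝ} (hb : ∃ b : ℝ, ∀ i, c i ⊆ Icc (-b) b) :
    IntegrableOn (fun q : Fin k → ℝ => D q) (Set.pi univ c) := by
  obtain ⟨b, hb⟩ := hb
  have h1 : Set.pi univ c ⊆ Icc (fun _ => -b) fun _ => b := by
    intro q hq
    exact ⟨fun i => (hb i (hq i (mem_univ i))).1, fun i => (hb i (hq i (mem_univ i))).2⟩
  exact ((D_cont (k := k)).continuousOn.integrableOn_compact isCompact_Icc).mono_set h1

lemma G_nonneg (hD : S_DET) {k : ℕ} {c : Fin k → Set ℝ} (hc : ∀ i, MeasurableSet (c i)) :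
    0 ≤ G c :=
  setIntegral_nonneg (MeasurableSet.univ_pi hc) fun q _ => (hD k q).1

/-- a bound of the determinant gives a bound of the integral -/
lemma G_le_of {k : ℕ} {c : Fin k → Set ℝ} (hc : ∀ i, MeasurableSet (c i))
    (hb : ∃ b : ℝ, ∀ i, c i ⊆ Icc (-b) b) {M : ℝ} (hM : ∀ q ∈ Set.pi univ c, D q ≤ M) :
    G c ≤ M * ∏ i, volume.real (c i) := by
  have h1 : G c ≤ ∫ _q in Set.pi univ c, M := by
    refine setIntegral_mono_on (D_int hb) (integrableOn_const (pi_fin hb)) (MeasurableSet.univ_pi hc) hM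
  refine h1.trans (le_of_eq ?_)
  rw [setIntegral_const, smul_eq_mul, mul_comm]
  congr 1
  rw [measureReal_def, volume_pi_pi, ENNReal.toReal_prod]
  rfl

lemma G_le (hD : S_DET) {k : ℕ} {c : Fin k → Set ℝ} (hc : ∀ i, MeasurableSet (c i))
    (hb : ∃ b : ℝ, ∀ i, c i ⊆ Icc (-b) b) : G c ≤ ∏ i, volume.real (c i) := by
  have := G_le_of hc hb (M := 1) fun q _ => (hD k q).2.1
  linarith

lemma G_const_le (hD : S_DET) {k : ℕ} {W : Set ℝ} (hW : MeasurableSet W)
    (hb : ∃ b : ℝ, W ⊆ Icc (-b) b) : G (fun _ : Fin k => W) ≤ volume.real W ^ k := by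
  obtain ⟨b, hb⟩ := hb
  have := G_le hD (k := k) (c := fun _ => W) (fun _ => hW) ⟨b, fun _ => hb⟩
  rw [Finset.prod_const, Finset.card_univ, Fintype.card_fin] at this
  exact this

lemma G_mono (hD : S_DET) {k : ℕ} {c c' : Fin k → Set ℝ} (h : ∀ i, c i ⊆ c' i)
    (hc' : ∀ i, MeasurableSet (c' i)) (hb : ∃ b : ℝ, ∀ i, c' i ⊆ Icc (-b) b) : G c ≤ G c' := by
  refine setIntegral_mono_set (D_int hb) ?_ (Set.pi_mono fun i _ => h i).eventuallyLE
  exact ae_of_all _ fun q => (hD k q).1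

lemma G_zero (c : Fin 0 → Set ℝ) : G c = 1 := by
  unfold G
  have h1 : Set.pi univ c = univ := by
    ext q
    simp
  rw [h1]
  simp_rw [D_zero]
  rw [Measure.volume_pi_eq_dirac (fun i : Fin 0 => i.elim0)]
  simp

/-- the series of the Fredholm determinant converges -/
lemma Phi_summable (hD : S_DET) {z : ℝ} {W : Set ℝ} (hW : MeasurableSet W)
    (hb : ∃ b : ℝ, W ⊆ Icc (-b) b) :
    Summable fun k : ℕ => (-z) ^ k / (k.factorial : ℝ) * G (fun _ : Fin k => W) := by
  refine Summable.of_norm_bounded (Real.summable_pow_div_factorial (|z| * volume.real W)) fun k => ?_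
  rw [Real.norm_eq_abs, abs_mul, abs_div, abs_pow, abs_neg, Nat.abs_cast,
    abs_of_nonneg (G_nonneg hD fun _ => hW), mul_pow, mul_div_right_comm]
  exact mul_le_mul_of_nonneg_left (G_const_le hD hW hb) (by positivity)

end Pool.Agent.N805.VP
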