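import Pool.Agent.N805.VP.Ind
import Pool.Agent.N805.OS.F
import Pool.Agent.N424.VP.DET
import Pool.Agent.N591.VP.GTHIN
import Pool.Agent.N478.VP.PRD
import Pool.Agent.N704.VP.DIF
import Pool.Agent.N152.VP.CELO
import Pool.Agent.N342.VP.CELE
import Pool.Agent.N368.VP.SYM
import Pool.Agent.N401.VP.SPL
import Pool.Agent.N618.VP.OSL
import Pool.Agent.N756.VP.THIN
import Pool.Agent.N79.VP.DEC
import Pool.Agent.N861.VP.BON
import Pool.Agent.N896.VP.COV
import Pool.Agent.N99.VP.HOL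

/-! # Covering probabilities: the theorem -/

set_option autoImplicit false

open MeasureTheory Set Filter Topology

namespace Pool.Agent.N805.VP

open Pool.Agent.Y749.Rig
open SG (ord NZ zmult ZS)
open W200.HW (Ix mem_Ix card_Ix)
open Pool.Agent.N805.OS (ps nu MB EqL OneS rt ii sn hier At mem_At nT_top NZ_asymp nu_nonneg base
  Full Nk_eq X_eq I_eq)

/-- the proportion covered by the translates of a scaled set by the zeros up to `T` -/
noncomputable def Cv (T : ℝ) (W : Set ℝ) : ℝ :=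
  1 / T * volume.real {t : ℝ | ∃ n : ℕ, 1 ≤ n ∧ ord n ≤ T ∧
    (ord n - t) * (Real.log T / (2 * Real.pi)) ∈ W}

lemma Cv_eq {T : ℝ} (hT : 10 ≤ T) (W : Set ℝ) : Cv T W = cov (Ix T) (ps T) W / nT T := by
  have hL : 0 < Real.log T := Real.log_pos (by linarith)
  have hpi := Real.pi_pos
  obtain ⟨c, hc⟩ : ∃ c : ℝ, c = Real.log T / (2 * Real.pi) := ⟨_, rfl⟩
  have hc0 : 0 < c := by rw [hc]; positivity
  have hset : {t : ℝ | ∃ n : ℕ, 1 ≤ n ∧ ord n ≤ T ∧
      (ord n - t) * (Real.log T / (2 * Real.pi)) ∈ W} =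
      (fun t => c * t) ⁻¹' {s : ℝ | ∃ n ∈ Ix T, ps T n - s ∈ W} := by
    ext t
    simp only [mem_setOf_eq, mem_preimage]
    have e : ∀ n, (ord n - t) * (Real.log T / (2 * Real.pi)) = ps T n - c * t := by
      intro n
      unfold ps
      rw [hc]
      ring
    simp_rw [e]
    constructor
    · rintro ⟨n, h1, h2, h3⟩
      exact ⟨n, mem_Ix.2 ⟨h1, h2⟩, h3⟩
    · rintro ⟨n, h1, h3⟩
      exact ⟨n, (mem_Ix.1 h1).1, (mem_Ix.1 h1).2, h3⟩
  unfold Cv cov
  rw [hset, measureReal_def, Real.volume_preimage_mul_left hc0.ne', ENNReal.toReal_mul,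
    ENNReal.toReal_ofReal (abs_nonneg _), abs_of_pos (inv_pos.2 hc0), ← measureReal_def]
  have hT0 : T ≠ 0 := by linarith
  have hn : nT T = T * c := by
    unfold nT
    rw [hc]
    ring
  rw [hn]
  field_simp

lemma full_iff (l : Filter ℝ) (k : ℕ) : Full l k ↔ EqL l k := by
  unfold Full EqL rt
  simp_rw [Nk_eq, X_eq, I_eq]

/-- unions of cells are finite unions of intervals -/
lemma U_fin (h : ℝ) (A : Finset ℤ) : ∃ (n : ℕ) (a b : Fin n → ℝ),
    U h A = ⋃ i, Ico (a i) (b i) := by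
  classical
  refine ⟨A.card, fun i => ((A.equivFin.symm i : ℤ) : ℝ) * h,
    fun i => (((A.equivFin.symm i : ℤ) : ℝ) + 1) * h, ?_⟩
  ext u
  unfold U cell
  simp only [mem_iUnion, exists_prop]
  constructor
  · rintro ⟨a, ha, hu⟩
    refine ⟨A.equivFin ⟨a, ha⟩, ?_⟩
    simpa using hu
  · rintro ⟨i, hu⟩
    exact ⟨_, (A.equivFin.symm i).2, hu⟩

/-- **the main theorem** -/
theorem main (RH : RiemannHypothesis) (l : Filter ℝ) (hl : l ≤ atTop) :
    ((∀ k : ℕ, 1 ≤ k → Full l k) ↔ ∀ (n : ℕ) (a b : Fin n → ℝ) (ε : ℝ), 0 < ε →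
      ∀ᶠ T in l, 1 - E (⋃ i, Ico (a i) (b i)) - ε ≤ Cv T (⋃ i, Ico (a i) (b i))) ∧
    ((∀ k : ℕ, 1 ≤ k → Full l k) → ∀ (n : ℕ) (a b : Fin n → ℝ),
      Tendsto (fun T => Cv T (⋃ i, Ico (a i) (b i))) l (𝓝 (1 - E (⋃ i, Ico (a i) (b i))))) := by
  have hX : ∀ᶠ T in l, 0 < nT T := hl (nT_top.eventually_gt_atTop 0)
  have h10 : ∀ᶠ T in l, 10 ≤ T := hl (eventually_ge_atTop 10)
  have hconv : (∀ k : ℕ, 1 ≤ k → Full l k) → ∀ (n : ℕ) (a b : Fin n → ℝ),
      Tendsto (fun T => Cv T (⋃ i, Ico (a i) (b i))) l (𝓝 (1 - E (⋃ i, Ico (a i) (b i)))) := by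
    intro h n a b
    have hE : ∀ m, EqL l m := by
      intro m
      rcases Nat.eq_zero_or_pos m with h0 | h0
      · rw [h0]; exact base hl
      · exact (full_iff l m).1 (h m h0)
    have h1 := N896.VP.COV N424.VP.DET N401.VP.SPL N861.VP.BON N79.VP.DEC l Ix ps nT hX
      (fun m hm => by
        obtain ⟨k, rfl⟩ : ∃ k, m = k + 1 := ⟨m - 1, by omega⟩
        exact N478.VP.PRD N424.VP.DET l Ix ps nT hX k ((EqD_iff l k).2 (hE k))) n a b
    refine h1.congr' ?_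
    filter_upwards [h10] with T hT
    exact (Cv_eq hT _).symm
  refine ⟨⟨fun h n a b ε hε => ?_, fun h k _ => ?_⟩, hconv⟩
  · have h1 := (hconv h n a b).eventually_const_le
      (show 1 - E (⋃ i, Ico (a i) (b i)) - ε < 1 - E (⋃ i, Ico (a i) (b i)) by linarith)
    exact h1
  · rw [full_iff]
    refine cov_to_cor RH hl N424.VP.DET N756.VP.THIN N591.VP.GTHIN N861.VP.BON N618.VP.OSL
      N401.VP.SPL N368.VP.SYM N99.VP.HOL N342.VP.CELE N152.VP.CELO N478.VP.PRD N704.VP.DIF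
      (fun r _ A ε hε => ?_) k
    obtain ⟨n, a, b, hU⟩ := U_fin (1 / (r : ℝ)) A
    rw [hU]
    filter_upwards [h n a b ε hε, h10] with T h1 hT
    rw [Cv_eq hT] at h1
    exact h1

end Pool.Agent.N805.VP
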