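import Pool.Agent.N805.VP.Stm

/-! # From covering probabilities of one interval to the law of one gap: statements -/

set_option autoImplicit false

open MeasureTheory Set Filter Topology

namespace Pool.Agent.N805.VP

/-- the Fredholm determinant of `[0, s)` is a smooth function of `s` -/
def S_SMO : Prop := S_DET → ∃ e : ℝ → ℝ, ContDiff ℝ 2 e ∧ (∀ s : ℝ, 0 ≤ s → e s = E (Ico 0 s)) ∧
  deriv e 0 = -1

/-- the length covered by the intervals of length `s` to the left of the points -/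
def S_GAP : Prop := ∀ (N : ℕ) (x : ℕ → ℝ) (s : ℝ), 1 ≤ N → 0 ≤ s →
  (∀ n : ℕ, 1 ≤ n → n < N → x n ≤ x (n + 1)) →
  cov (Finset.Icc 1 N) x (Ico 0 s) = s + ∑ n ∈ Finset.Ico 1 N, min s (x (n + 1) - x n)

open scoped Classical in
/-- differentiating concave functions -/
def S_LAW : Prop := ∀ (l : Filter ℝ) (N : ℝ → ℕ) (d : ℝ → ℕ → ℝ) (X : ℝ → ℝ) (e : ℝ → ℝ),
  Tendsto X l atTop → Tendsto (fun T => (N T : ℝ) / X T) l (𝓝 1) → ContDiff ℝ 2 e →
  (∀ s : ℝ, 0 < s → Tendsto (fun T => (∑ n ∈ Finset.Ico 1 (N T), min s (d T n)) / X T) l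
    (𝓝 (1 - e s))) →
  ∀ s : ℝ, 0 < s →
    Tendsto (fun T => (((Finset.Icc 1 (N T)).filter fun n => d T n ≤ s).card : ℝ) / N T) l
      (𝓝 (1 + deriv e s))

end Pool.Agent.N805.VP
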