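import Pool.Agent.N805.VP.Fin
import Pool.Agent.N805.VP.Stm2
import Pool.Agent.N322.VP.GAP
import Pool.Agent.N814.VP.LAW
import Pool.Agent.N805.GM.B
import Pool.Agent.R846.NC.Zeta
import Pool.Agent.R846.NC.Abs2

/-! # Covering probabilities of intervals and the law of the normalised gaps -/

set_option autoImplicit false

open MeasureTheory Set Filter Topology

namespace Pool.Agent.N805.VP

open Pool.Agent.Y749.Rig
open SG (ord NZ zmult ZS)
open LG (dlt)
open SP (RHs)
open W200.HW (Ix mem_Ix card_Ix)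
open Pool.Agent.N805.OS (ps nu MB EqL OneS rt ii sn hier At mem_At nT_top NZ_asymp nu_nonneg base
  Full Nk_eq X_eq I_eq log_small rhs_of)
open Pool.Agent.N805.GM (w w_nonneg Wsum)

/-- the gap in the scale of `T` -/
noncomputable def gT (T : ℝ) (n : ℕ) : ℝ := ps T (n + 1) - ps T n

lemma gT_eq (T : ℝ) (n : ℕ) : gT T n = (ord (n + 1) - ord n) * Real.log T / (2 * Real.pi) := by
  unfold gT ps
  ring

lemma dl_le_gT {T : ℝ} {n : ℕ} (hn : n ∈ Ix T) : Pool.Agent.R320.CL.dl n ≤ gT T n := by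
  have h := mem_Ix.1 hn
  have hpi := Real.pi_gt_three
  have h0 := SG.ord_pos h.1
  have h1 : ord n ≤ ord (n + 1) := SG.ord_mono h.1 (Nat.le_succ n)
  rw [gT_eq]
  unfold Pool.Agent.R320.CL.dl
  have h2 : Real.log (ord n / (2 * Real.pi)) ≤ Real.log T := by
    apply Real.log_le_log (by positivity)
    rw [div_le_iff₀ (by positivity)]
    nlinarith [h.2]
  calc (ord (n + 1) - ord n) / (2 * Real.pi) * Real.log (ord n / (2 * Real.pi)) ≤
      (ord (n + 1) - ord n) / (2 * Real.pi) * Real.log T :=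
        mul_le_mul_of_nonneg_left h2 (div_nonneg (by linarith) (by positivity))
    _ = _ := by ring

lemma gT_nonneg {T : ℝ} (hT : 1 ≤ T) {n : ℕ} (hn : 1 ≤ n) : 0 ≤ gT T n := by
  have hpi := Real.pi_pos
  have h1 : ord n ≤ ord (n + 1) := SG.ord_mono hn (Nat.le_succ n)
  rw [gT_eq]
  have := Real.log_nonneg hT
  exact div_nonneg (mul_nonneg (by linarith) this) (by positivity)

lemma gT_sum (T : ℝ) : ∑ n ∈ Ix T, gT T n = ps T (NZ T + 1) - ps T 1 := by
  have h : ∀ N : ℕ, ∑ n ∈ Finset.Icc 1 N, gT T n = ps T (N + 1) - ps T 1 := by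
    intro N
    induction N with
    | zero => simp
    | succ N ih =>
      rw [Finset.sum_Icc_succ_top (by omega), ih]
      unfold gT
      ring
  exact h (NZ T)

/-- the next ordinate -/
lemma next_ord {η : ℝ} (hη : 0 < η) (hη1 : η ≤ 1) : ∀ᶠ T : ℝ in atTop,
    ord (NZ T + 1) ≤ (1 + η) * T := by
  have h8 : 0 < η / 8 := by positivity
  have hm : Tendsto (fun T : ℝ => (1 + η) * T) atTop atTop := tendsto_id.const_mul_atTop (by linarith)
  filter_upwards [NZ_asymp h8, hm.eventually (NZ_asymp h8), nT_top.eventually_ge_atTop (2 / η),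
    eventually_ge_atTop 10] with T h1 h2 h3 hT
  rw [SG.ord_le_iff (by omega)]
  have hpi := Real.pi_pos
  have hL : 0 < Real.log T := Real.log_pos (by linarith)
  have h4 : (1 + η) * nT T ≤ nT ((1 + η) * T) := by
    unfold nT
    have h5 : Real.log T ≤ Real.log ((1 + η) * T) :=
      Real.log_le_log (by linarith) (by nlinarith)
    rw [mul_div_assoc', div_le_div_iff_of_pos_right (by positivity), ← mul_assoc]
    exact mul_le_mul_of_nonneg_left h5 (by positivity)
  have h5 : (1 - η / 8) * ((1 + η) * nT T) ≤ (NZ ((1 + η) * T) : ℝ) :=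
    (mul_le_mul_of_nonneg_left h4 (by linarith)).trans h2.1
  rw [div_le_iff₀ hη] at h3
  have hn := nT_pos hT
  have h7 : 0 ≤ η * nT T := mul_nonneg hη.le hn.le
  have h9 : η * (η * nT T) ≤ 1 * (η * nT T) := mul_le_mul_of_nonneg_right hη1 h7
  have h6 : (NZ T : ℝ) + 1 ≤ NZ ((1 + η) * T) := by nlinarith [h1.2]
  exact_mod_cast h6

/-- the two scalings of the gaps are close in mean -/
theorem L1c (RH : RiemannHypothesis) {ε : ℝ} (hε : 0 < ε) (hε1 : ε ≤ 1) : ∀ᶠ T : ℝ in atTop,
    ∑ n ∈ Ix T, |gT T n - dlt n| ≤ ε * NZ T := by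
  have hRH := rhs_of RH
  have hNZ : Tendsto NZ atTop atTop := by
    rw [tendsto_atTop_atTop]
    intro n
    exact ⟨ord n, fun t ht => by
      rcases Nat.eq_zero_or_pos n with h | h
      · omega
      · exact (SG.ord_le_iff h t).1 ht⟩
  obtain ⟨C, hC, hW⟩ := Wsum hRH 1
  obtain ⟨V, hv⟩ := R846.NC.smallVar hRH
  have hm := R846.NC.mean_zero (R846.NC.logGrowth hRH) hv (ε / 4) (by positivity)
  have hdl : ∀ n, Pool.Agent.Y743.LR.dl n = Pool.Agent.R320.CL.dl n := by
    intro n
    unfold Pool.Agent.Y743.LR.dl Pool.Agent.R320.CL.dl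
    ring
  have hlog : ∀ᶠ N : ℕ in atTop, 4 * C / ε ≤ Real.log N :=
    (Real.tendsto_log_atTop.comp tendsto_natCast_atTop_atTop).eventually_ge_atTop _
  have h16 : 0 < ε / 16 := by positivity
  filter_upwards [hNZ.eventually hW, hNZ.eventually hm, hNZ.eventually hlog,
    hNZ.eventually (eventually_gt_atTop 1), next_ord h16 (by linarith), NZ_asymp h16,
    eventually_ge_atTop 10] with T h1 h2 h3 h4 h5 h6 hT
  have hNr : (0 : ℝ) < NZ T := by exact_mod_cast (by omega : 0 < NZ T)
  have hL : 0 < Real.log T := Real.log_pos (by linarith)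
  have hLN : 0 < Real.log (NZ T : ℝ) := Real.log_pos (by exact_mod_cast h4)
  have hpi := Real.pi_pos
  have hn := nT_pos hT
  -- the part of w
  have e1 : ∑ n ∈ Ix T, w n ≤ ε / 4 * NZ T := by
    have h7 : ∑ m ∈ Finset.Icc 1 (NZ T), w m ≤ C * (NZ T / Real.log (NZ T : ℝ)) := by
      simpa using h1
    refine h7.trans ?_
    rw [div_le_iff₀ hε] at h3
    rw [mul_div_assoc', div_le_iff₀ hLN]
    nlinarith
  -- the sum of dl
  have e2 : (1 - ε / 4) * NZ T ≤ ∑ n ∈ Ix T, Pool.Agent.R320.CL.dl n := by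
    have h7 : ∑ n ∈ Finset.Icc 1 (NZ T), (Pool.Agent.Y743.LR.dl n - 1) =
        ∑ n ∈ Ix T, Pool.Agent.R320.CL.dl n - NZ T := by
      rw [Finset.sum_sub_distrib]
      simp [hdl, Ix]
    rw [h7] at h2
    have := (abs_le.1 h2).1
    linarith
  -- the sum of gT
  have e3 : ∑ n ∈ Ix T, gT T n ≤ (1 + ε / 4) * NZ T := by
    rw [gT_sum]
    have h7 : 0 ≤ ps T 1 := by
      unfold ps
      have := SG.ord_pos (le_refl 1)
      positivity
    have h8 : ps T (NZ T + 1) ≤ (1 + ε / 16) * nT T := by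
      unfold ps nT
      rw [mul_div_assoc', div_le_div_iff_of_pos_right (by positivity), ← mul_assoc]
      exact mul_le_mul_of_nonneg_right h5 hL.le
    have h9 : nT T ≤ (1 + ε / 8) * NZ T := by
      have h10 : (1 - ε / 16) * nT T ≤ NZ T := h6.1
      have h11 : 1 ≤ (1 + ε / 8) * (1 - ε / 16) := by nlinarith
      calc nT T ≤ (1 + ε / 8) * (1 - ε / 16) * nT T := by nlinarith
        _ = (1 + ε / 8) * ((1 - ε / 16) * nT T) := by ring
        _ ≤ _ := mul_le_mul_of_nonneg_left h10 (by linarith)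
    have h12 : (1 + ε / 16) * nT T ≤ (1 + ε / 16) * ((1 + ε / 8) * NZ T) :=
      mul_le_mul_of_nonneg_left h9 (by linarith)
    have h13 : (1 + ε / 16) * ((1 + ε / 8) * NZ T) ≤ (1 + ε / 4) * NZ T := by
      rw [← mul_assoc]
      apply mul_le_mul_of_nonneg_right _ hNr.le
      nlinarith
    linarith
  have e4 : ∑ n ∈ Ix T, |gT T n - dlt n| ≤ ∑ n ∈ Ix T, ((gT T n - Pool.Agent.R320.CL.dl n) + w n) := by
    refine Finset.sum_le_sum fun n hn => ?_
    have h7 := dl_le_gT hn
    have h8 := w_nonneg (mem_Ix.1 hn).1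
    have e : gT T n - dlt n = (gT T n - Pool.Agent.R320.CL.dl n) - w n := by unfold w; ring
    rw [e]
    refine (abs_sub _ _).trans (le_of_eq ?_)
    rw [abs_of_nonneg (by linarith), abs_of_nonneg h8]
  rw [Finset.sum_add_distrib, Finset.sum_sub_distrib] at e4
  have e5 : 0 ≤ ε * (NZ T : ℝ) := by positivity
  linarith

open scoped Classical in
/-- closeness in mean and distribution functions -/
lemma law_close {S : Finset ℕ} {N : ℝ} {d δ : ℕ → ℝ} {η : ℝ} (hη : 0 < η)
    (h : ∑ n ∈ S, |d n - δ n| ≤ η ^ 2 * N) (s : ℝ) :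
    ((S.filter fun n => δ n ≤ s).card : ℝ) ≤ (S.filter fun n => d n ≤ s + η).card + η * N ∧
    ((S.filter fun n => d n ≤ s - η).card : ℝ) ≤ (S.filter fun n => δ n ≤ s).card + η * N := by
  have h1 : ((S.filter fun n => η < |d n - δ n|).card : ℝ) ≤ η * N := by
    have h2 : ((S.filter fun n => η < |d n - δ n|).card : ℝ) * η ≤ ∑ n ∈ S, |d n - δ n| := by
      rw [← nsmul_eq_mul, ← Finset.sum_const]
      refine (Finset.sum_le_sum fun n hn => (Finset.mem_filter.1 hn).2.le).trans ?_
      exact Finset.sum_le_sum_of_subset_of_nonneg (Finset.filter_subset _ _) fun _ _ _ => abs_nonneg _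
    have h3 : ((S.filter fun n => η < |d n - δ n|).card : ℝ) * η ≤ η * N * η := by
      refine (h2.trans h).trans (le_of_eq ?_)
      ring
    exact le_of_mul_le_mul_right h3 hη
  constructor
  · have h2 : (S.filter fun n => δ n ≤ s) ⊆ (S.filter fun n => d n ≤ s + η) ∪
        (S.filter fun n => η < |d n - δ n|) := by
      intro n hn
      rw [Finset.mem_filter] at hn
      rw [Finset.mem_union, Finset.mem_filter, Finset.mem_filter]
      by_cases hc : η < |d n - δ n|
      · exact Or.inr ⟨hn.1, hc⟩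
      · left
        push Not at hc
        have := (abs_le.1 hc).2
        exact ⟨hn.1, by linarith [hn.2]⟩
    have h3 := (Finset.card_le_card h2).trans (Finset.card_union_le _ _)
    have h4 : ((S.filter fun n => δ n ≤ s).card : ℝ) ≤ (S.filter fun n => d n ≤ s + η).card +
        (S.filter fun n => η < |d n - δ n|).card := by exact_mod_cast h3
    linarith
  · have h2 : (S.filter fun n => d n ≤ s - η) ⊆ (S.filter fun n => δ n ≤ s) ∪
        (S.filter fun n => η < |d n - δ n|) := by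
      intro n hn
      rw [Finset.mem_filter] at hn
      rw [Finset.mem_union, Finset.mem_filter, Finset.mem_filter]
      by_cases hc : η < |d n - δ n|
      · exact Or.inr ⟨hn.1, hc⟩
      · left
        push Not at hc
        have := (abs_le.1 hc).1
        exact ⟨hn.1, by linarith [hn.2]⟩
    have h3 := (Finset.card_le_card h2).trans (Finset.card_union_le _ _)
    have h4 : ((S.filter fun n => d n ≤ s - η).card : ℝ) ≤ (S.filter fun n => δ n ≤ s).card +
        (S.filter fun n => η < |d n - δ n|).card := by exact_mod_cast h3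
    linarith

/-- `T ↦ NZ T` tends to infinity -/
lemma NZ_top : Tendsto NZ atTop atTop := by
  rw [tendsto_atTop_atTop]
  intro n
  exact ⟨ord n, fun t ht => by
    rcases Nat.eq_zero_or_pos n with h | h
    · omega
    · exact (SG.ord_le_iff h t).1 ht⟩

lemma NZ_div : Tendsto (fun T => (NZ T : ℝ) / nT T) atTop (𝓝 1) := by
  rw [Metric.tendsto_nhds]
  intro ε hε
  filter_upwards [NZ_asymp (half_pos hε), eventually_ge_atTop 10] with T h1 hT
  have hn := nT_pos hT
  rw [Real.dist_eq]
  have h2 : |(NZ T : ℝ) / nT T - 1| ≤ ε / 2 := by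
    rw [div_sub_one hn.ne', abs_div, abs_of_pos hn, div_le_iff₀ hn, abs_le]
    constructor <;> linarith [h1.1, h1.2]
  linarith

open scoped Classical in
/-- the law of the gaps in the scale of `T` -/
theorem law_T {e : ℝ → ℝ} (he : ContDiff ℝ 2 e) (hE : ∀ s : ℝ, 0 ≤ s → e s = E (Ico 0 s))
    (h : ∀ s : ℝ, 0 < s → Tendsto (fun T => Cv T (Ico 0 s)) atTop (𝓝 (1 - E (Ico 0 s)))) {s : ℝ}
    (hs : 0 < s) : Tendsto (fun T => (((Ix T).filter fun n => gT T n ≤ s).card : ℝ) / NZ T) atTop
      (𝓝 (1 + deriv e s)) := by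
  refine N814.VP.LAW atTop NZ gT nT e nT_top NZ_div he (fun s hs => ?_) s hs
  have h1 := h s hs
  rw [hE s hs.le]
  have h2 : Tendsto (fun T => s / nT T) atTop (𝓝 0) := tendsto_const_nhds.div_atTop nT_top
  have h3 := h1.sub h2
  rw [sub_zero] at h3
  refine h3.congr' ?_
  filter_upwards [eventually_ge_atTop 10, NZ_top.eventually_ge_atTop 1] with T hT hN
  rw [Cv_eq hT]
  have h4 := N322.VP.GAP (NZ T) (ps T) s hN hs.le (fun n hn1 hn2 => by
    have := gT_nonneg (show (1 : ℝ) ≤ T by linarith) hn1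
    unfold gT at this
    linarith)
  have h5 : cov (Ix T) (ps T) (Ico 0 s) = cov (Finset.Icc 1 (NZ T)) (ps T) (Ico 0 s) := rfl
  rw [h5, h4]
  have hn := nT_pos hT
  unfold gT
  ring

open scoped Classical in
/-- the law of the normalised gaps, along `T` -/
theorem law_dT (RH : RiemannHypothesis) {e : ℝ → ℝ} (he : ContDiff ℝ 2 e)
    (hE : ∀ s : ℝ, 0 ≤ s → e s = E (Ico 0 s))
    (h : ∀ s : ℝ, 0 < s → Tendsto (fun T => Cv T (Ico 0 s)) atTop (𝓝 (1 - E (Ico 0 s)))) {s : ℝ}
    (hs : 0 < s) : Tendsto (fun T => (((Ix T).filter fun n => dlt n ≤ s).card : ℝ) / NZ T) atTop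
      (𝓝 (1 + deriv e s)) := by
  have hc : Continuous (deriv e) := he.continuous_deriv (by norm_num)
  rw [Metric.tendsto_nhds]
  intro ε hε
  obtain ⟨η0, hη0, hη⟩ := Metric.continuousAt_iff.1 (hc.continuousAt (x := s)) (ε / 4) (by positivity)
  obtain ⟨η, h1, h2, h3, h4, h5⟩ : ∃ η : ℝ, 0 < η ∧ η < η0 ∧ η < s ∧ η ≤ ε / 4 ∧ η ≤ 1 := by
    refine ⟨min (min (η0 / 2) (s / 2)) (min (ε / 4) 1), by positivity, ?_, ?_, ?_, ?_⟩
    · exact lt_of_le_of_lt ((min_le_left _ _).trans (min_le_left _ _)) (by linarith)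
    · exact lt_of_le_of_lt ((min_le_left _ _).trans (min_le_right _ _)) (by linarith)
    · exact (min_le_right _ _).trans (min_le_left _ _)
    · exact (min_le_right _ _).trans (min_le_right _ _)
  have c1 := hη (x := s + η) (by rw [Real.dist_eq, add_sub_cancel_left, abs_of_pos h1]; exact h2)
  have c2 := hη (x := s - η) (by
    rw [Real.dist_eq, show s - η - s = -η by ring, abs_neg, abs_of_pos h1]; exact h2)
  have l1 := law_T he hE h (show 0 < s + η by linarith)
  have l2 := law_T he hE h (show 0 < s - η by linarith)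
  filter_upwards [l1.eventually (Metric.ball_mem_nhds _ (show 0 < ε / 4 by positivity)),
    l2.eventually (Metric.ball_mem_nhds _ (show 0 < ε / 4 by positivity)),
    L1c RH (show 0 < η ^ 2 by positivity) (by nlinarith), NZ_top.eventually_ge_atTop 1]
    with T a1 a2 a3 a4
  have hN : (0 : ℝ) < NZ T := by exact_mod_cast a4
  obtain ⟨b1, b2⟩ := law_close h1 a3 s
  have b1' : (((Ix T).filter fun n => dlt n ≤ s).card : ℝ) / NZ T ≤
      ((Ix T).filter fun n => gT T n ≤ s + η).card / NZ T + η := by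
    rw [div_add' _ _ _ hN.ne']
    exact div_le_div_of_nonneg_right b1 hN.le
  have b2' : (((Ix T).filter fun n => gT T n ≤ s - η).card : ℝ) / NZ T ≤
      ((Ix T).filter fun n => dlt n ≤ s).card / NZ T + η := by
    rw [div_add' _ _ _ hN.ne']
    exact div_le_div_of_nonneg_right b2 hN.le
  rw [Real.dist_eq, abs_lt] at a1 a2 c1 c2 ⊢
  constructor <;> linarith [a1.1, a1.2, a2.1, a2.2, c1.1, c1.2, c2.1, c2.2]

/-- multiplicities are small -/
lemma mult_small {η : ℝ} (hη : 0 < η) : ∀ᶠ T : ℝ in atTop,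
    (NZ T : ℝ) - NZ (T - 1) ≤ η * NZ T := by
  obtain ⟨C, hC, hunit⟩ := Pool.Agent.Y743.NC.unit_count
  filter_upwards [NZ_asymp (show (0 : ℝ) < 1 / 2 by norm_num), log_small C (half_pos hη),
    eventually_ge_atTop 10] with T h1 h2 hT
  have h5 := hunit (T - 1) (by linarith)
  rw [sub_add_cancel] at h5
  have h6 : Real.log (T - 1) ≤ Real.log T := Real.log_le_log (by linarith) (by linarith)
  have h9 : C * Real.log (T - 1) ≤ C * Real.log T := mul_le_mul_of_nonneg_left h6 hC.le
  have h10 : η / 2 * nT T ≤ η * NZ T := by nlinarith [h1.1]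
  linarith

open scoped Classical in
/-- the law of the normalised gaps -/
theorem law_N (RH : RiemannHypothesis) {e : ℝ → ℝ} (he : ContDiff ℝ 2 e)
    (hE : ∀ s : ℝ, 0 ≤ s → e s = E (Ico 0 s))
    (h : ∀ s : ℝ, 0 < s → Tendsto (fun T => Cv T (Ico 0 s)) atTop (𝓝 (1 - E (Ico 0 s)))) {s : ℝ}
    (hs : 0 < s) : Tendsto (fun N : ℕ => (((Finset.Icc 1 N).filter fun n => dlt n ≤ s).card : ℝ) / N)
      atTop (𝓝 (1 + deriv e s)) := by
  have h1 := (law_dT RH he hE h hs).comp SG.ord_tendsto
  have h2 : Tendsto (fun N : ℕ => (NZ (ord N) : ℝ) / N) atTop (𝓝 1) := by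
    rw [Metric.tendsto_nhds]
    intro ε hε
    obtain ⟨η, hη0, hη1, hη2⟩ : ∃ η : ℝ, 0 < η ∧ η ≤ 1 / 2 ∧ η ≤ ε / 4 :=
      ⟨min (1 / 2) (ε / 4), by positivity, min_le_left _ _, min_le_right _ _⟩
    filter_upwards [SG.ord_tendsto.eventually (mult_small hη0), eventually_ge_atTop 1] with N h3 hN
    have hNr : (0 : ℝ) < N := by exact_mod_cast hN
    have h4 : (N : ℝ) ≤ NZ (ord N) := by exact_mod_cast SG.le_NZ_ord hN
    have h5 : (NZ (ord N - 1) : ℝ) ≤ N := by
      have : NZ (ord N - 1) ≤ N := by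
        by_contra hc
        push Not at hc
        have := (SG.ord_le_iff hN (ord N - 1)).2 hc.le
        linarith
      exact_mod_cast this
    have h6 : (1 - η) * NZ (ord N) ≤ N := by linarith
    rw [Real.dist_eq, div_sub_one hNr.ne', abs_div, abs_of_pos hNr, div_lt_iff₀ hNr, abs_of_nonneg (by linarith)]
    have h7 : (NZ (ord N) : ℝ) ≤ 2 * N := by nlinarith
    nlinarith
  have hlow := (h2.mul h1).sub (h2.sub_const 1)
  rw [one_mul, sub_self, sub_zero] at hlow
  have hupp := h2.mul h1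
  rw [one_mul] at hupp
  refine tendsto_of_tendsto_of_tendsto_of_le_of_le' hlow hupp ?_ ?_
  · filter_upwards [eventually_ge_atTop 1] with N hN
    have hNr : (0 : ℝ) < N := by exact_mod_cast hN
    have h4' := SG.le_NZ_ord hN
    have h4 : (N : ℝ) ≤ NZ (ord N) := by exact_mod_cast h4'
    have hN' : (0 : ℝ) < NZ (ord N) := by linarith
    have h5 : ((Ix (ord N)).filter fun n => dlt n ≤ s) ⊆
        ((Finset.Icc 1 N).filter fun n => dlt n ≤ s) ∪ Finset.Ioc N (NZ (ord N)) := by
      intro n hn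
      rw [Finset.mem_filter] at hn
      have h6 := Finset.mem_Icc.1 hn.1
      rw [Finset.mem_union, Finset.mem_filter, Finset.mem_Icc, Finset.mem_Ioc]
      rcases le_or_gt n N with h7 | h7
      · exact Or.inl ⟨⟨h6.1, h7⟩, hn.2⟩
      · exact Or.inr ⟨h7, h6.2⟩
    have h6 := (Finset.card_le_card h5).trans (Finset.card_union_le _ _)
    rw [Nat.card_Ioc] at h6
    have h7 : (((Ix (ord N)).filter fun n => dlt n ≤ s).card : ℝ) ≤
        ((Finset.Icc 1 N).filter fun n => dlt n ≤ s).card + (NZ (ord N) - N) := by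
      have h8 : ((NZ (ord N) - N : ℕ) : ℝ) = (NZ (ord N) : ℝ) - N := Nat.cast_sub h4'
      rw [← h8]
      exact_mod_cast h6
    simp only [Function.comp_apply]
    obtain ⟨A, hA⟩ : ∃ A : ℝ, A = (((Ix (ord N)).filter fun n => dlt n ≤ s).card : ℝ) := ⟨_, rfl⟩
    rw [← hA] at h7 ⊢
    have e1 : (NZ (ord N) : ℝ) / N * (A / NZ (ord N)) - (NZ (ord N) / N - 1) =
        (A - (NZ (ord N) - N)) / N := by
      field_simp
    rw [e1]
    exact div_le_div_of_nonneg_right (by linarith) hNr.le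
  · filter_upwards [eventually_ge_atTop 1] with N hN
    have hNr : (0 : ℝ) < N := by exact_mod_cast hN
    have h4' := SG.le_NZ_ord hN
    have h4 : (N : ℝ) ≤ NZ (ord N) := by exact_mod_cast h4'
    have hN' : (0 : ℝ) < NZ (ord N) := by linarith
    simp only [Function.comp_apply]
    obtain ⟨A, hA⟩ : ∃ A : ℝ, A = (((Ix (ord N)).filter fun n => dlt n ≤ s).card : ℝ) := ⟨_, rfl⟩
    have h5 : (((Finset.Icc 1 N).filter fun n => dlt n ≤ s).card : ℝ) ≤ A := by
      rw [hA]
      have h6 : ((Finset.Icc 1 N).filter fun n => dlt n ≤ s) ⊆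
          (Ix (ord N)).filter fun n => dlt n ≤ s := by
        intro n hn
        rw [Finset.mem_filter, Finset.mem_Icc] at hn
        rw [Finset.mem_filter]
        exact ⟨Finset.mem_Icc.2 ⟨hn.1.1, hn.1.2.trans h4'⟩, hn.2⟩
      exact_mod_cast Finset.card_le_card h6
    rw [← hA]
    have e1 : (NZ (ord N) : ℝ) / N * (A / NZ (ord N)) = A / N := by field_simp
    rw [e1]
    exact div_le_div_of_nonneg_right h5 hNr.le

/-- the density of the gaps -/
noncomputable def pd (s : ℝ) : ℝ := deriv (deriv fun t : ℝ => E (Ico 0 t)) s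

open scoped Classical in
/-- **the nearest neighbour law** -/
theorem nn_law (RH : RiemannHypothesis) (hSMO : S_SMO)
    (h : ∀ s : ℝ, 0 < s → Tendsto (fun T => Cv T (Ico 0 s)) atTop (𝓝 (1 - E (Ico 0 s)))) {a b : ℝ}
    (ha : 0 ≤ a) (hab : a < b) :
    Tendsto (fun N : ℕ => (1 / N : ℝ) *
      (((Finset.Icc 1 N).filter fun n => dlt n ∈ Ioc a b).card : ℝ)) atTop (𝓝 (∫ s in a..b, pd s)) := by
  obtain ⟨e, he, hE, he0⟩ := hSMO N424.VP.DET
  have hc : Continuous (deriv e) := he.continuous_deriv (by norm_num)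
  have hd : ContDiff ℝ 1 (deriv e) := by
    have := (contDiff_succ_iff_deriv (n := 1) (f := e)).1 (by exact_mod_cast he)
    exact this.2.2
  have hpd : ∀ s : ℝ, 0 < s → pd s = deriv (deriv e) s := by
    intro s hs
    unfold pd
    have h1 : (deriv fun t : ℝ => E (Ico 0 t)) =ᶠ[𝓝 s] deriv e := by
      have h2 : ∀ᶠ t in 𝓝 s, 0 < t := lt_mem_nhds hs
      filter_upwards [h2] with t ht
      refine Filter.EventuallyEq.deriv_eq ?_
      filter_upwards [lt_mem_nhds ht] with u hu
      exact (hE u hu.le).symm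
    exact h1.deriv_eq
  have hint : ∫ s in a..b, pd s = deriv e b - deriv e a := by
    have h1 : ∫ s in a..b, pd s = ∫ s in a..b, deriv (deriv e) s := by
      refine intervalIntegral.integral_congr_ae (ae_of_all _ fun s hs => ?_)
      rw [uIoc_of_le hab.le] at hs
      exact hpd s (by linarith [hs.1])
    rw [h1]
    refine intervalIntegral.integral_deriv_eq_sub (fun s _ => (hd.differentiable (by norm_num)) s) ?_
    exact (hd.continuous_deriv le_rfl).intervalIntegrable _ _
  -- the distribution function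
  have hF : ∀ s : ℝ, 0 ≤ s → Tendsto (fun N : ℕ =>
      (((Finset.Icc 1 N).filter fun n => dlt n ≤ s).card : ℝ) / N) atTop (𝓝 (1 + deriv e s)) := by
    intro s hs
    rcases hs.lt_or_eq with h1 | h1
    · exact law_N RH he hE h h1
    · rw [← h1, he0, add_neg_cancel, Metric.tendsto_nhds]
      intro ε hε
      obtain ⟨η, hη0, hη⟩ := Metric.continuousAt_iff.1 (hc.continuousAt (x := 0)) (ε / 2) (by positivity)
      have h2 := hη (x := η / 2) (by rw [Real.dist_eq, sub_zero, abs_of_pos (by linarith)]; linarith)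
      rw [he0, Real.dist_eq, abs_lt] at h2
      filter_upwards [(law_N RH he hE h (half_pos hη0)).eventually
        (Metric.ball_mem_nhds _ (show 0 < ε / 2 by positivity)), eventually_ge_atTop 1] with N h3 hN
      have hNr : (0 : ℝ) < N := by exact_mod_cast hN
      rw [Real.dist_eq, abs_lt] at h3
      rw [Real.dist_eq, sub_zero, abs_of_nonneg (by positivity)]
      have h4 : (((Finset.Icc 1 N).filter fun n => dlt n ≤ 0).card : ℝ) / N ≤
          ((Finset.Icc 1 N).filter fun n => dlt n ≤ η / 2).card / N := by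
        refine div_le_div_of_nonneg_right ?_ hNr.le
        have h5 : ((Finset.Icc 1 N).filter fun n => dlt n ≤ 0) ⊆
            (Finset.Icc 1 N).filter fun n => dlt n ≤ η / 2 := by
          intro n hn
          rw [Finset.mem_filter] at hn ⊢
          exact ⟨hn.1, by linarith [hn.2]⟩
        exact_mod_cast Finset.card_le_card h5
      linarith [h3.1, h3.2, h2.1, h2.2]
  have h1 := (hF b (by linarith)).sub (hF a ha)
  have e1 : 1 + deriv e b - (1 + deriv e a) = ∫ s in a..b, pd s := by rw [hint]; ring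
  rw [e1] at h1
  refine h1.congr fun N => ?_
  have h2 : ((Finset.Icc 1 N).filter fun n => dlt n ∈ Ioc a b) =
      ((Finset.Icc 1 N).filter fun n => dlt n ≤ b) \ ((Finset.Icc 1 N).filter fun n => dlt n ≤ a) := by
    ext n
    simp only [Finset.mem_filter, Finset.mem_sdiff, mem_Ioc, not_and, not_le]
    constructor
    · rintro ⟨h3, h4, h5⟩
      exact ⟨⟨h3, h5⟩, fun _ => h4⟩
    · rintro ⟨⟨h3, h4⟩, h5⟩
      exact ⟨h3, h5 h3, h4⟩
  have h3 : ((Finset.Icc 1 N).filter fun n => dlt n ≤ a) ⊆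
      (Finset.Icc 1 N).filter fun n => dlt n ≤ b := by
    intro n hn
    rw [Finset.mem_filter] at hn ⊢
    exact ⟨hn.1, by linarith [hn.2]⟩
  rw [h2, Finset.card_sdiff_of_subset h3, Nat.cast_sub (Finset.card_le_card h3)]
  ring

end Pool.Agent.N805.VP
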