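import Pool.Agent.N805.VP.RepZ
import Pool.Agent.N805.VP.Fin
import Pool.Agent.N805.VP.Law
import Pool.Agent.N592.VP.SMO
import Pool.Agent.N707.VP.CELE2
import Pool.Agent.N645.VP.CELO2
import Pool.Agent.N255.VP.CELR
import Pool.Agent.N296.VP.DIF2
import Pool.Agent.N123.VP.THIN2
import Pool.Agent.N680.VP.GTHIN2
import Pool.Agent.N286.VP.OSL2

/-! # Covering probabilities: the final theorem -/

set_option autoImplicit false

open MeasureTheory Set Filter Topology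

namespace Pool.Agent.N805.VP

open Pool.Agent.Y749.Rig
open SG (ord NZ zmult ZS)
open LG (dlt)
open W200.HW (Ix mem_Ix card_Ix)
open Pool.Agent.R320.KL (Nk)
open Pool.Agent.N805.OS (ps EqL rt ii sn nT_top Full Nk_eq X_eq I_eq base)

/-- unions of cells are finite unions of intervals -/
lemma U_fin' {r : ℕ} (hr : 1 ≤ r) (A : Finset ℤ) {c : ℝ} (hA : (A.card : ℝ) / r ≤ c) :
    ∃ (n : ℕ) (a b : Fin n → ℝ), (∀ i, a i < b i) ∧ ∑ i, (b i - a i) ≤ c ∧
    U (1 / (r : ℝ)) A = ⋃ i, Ico (a i) (b i) := by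
  classical
  have hr' : (0 : ℝ) < r := by exact_mod_cast hr
  have hh : (0 : ℝ) < 1 / r := by positivity
  refine ⟨A.card, fun i => ((A.equivFin.symm i : ℤ) : ℝ) * (1 / r),
    fun i => (((A.equivFin.symm i : ℤ) : ℝ) + 1) * (1 / r), fun i => by nlinarith, ?_, ?_⟩
  · have e : ∀ i : Fin A.card, (((A.equivFin.symm i : ℤ) : ℝ) + 1) * (1 / r) -
        ((A.equivFin.symm i : ℤ) : ℝ) * (1 / r) = 1 / (r : ℝ) := fun i => by ring
    simp_rw [e]
    rw [Finset.sum_const, Finset.card_univ, Fintype.card_fin, nsmul_eq_mul, mul_one_div]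
    exact hA
  · ext u
    unfold U cell
    simp only [mem_iUnion, exists_prop]
    constructor
    · rintro ⟨a, ha, hu⟩
      refine ⟨A.equivFin ⟨a, ha⟩, ?_⟩
      simpa using hu
    · rintro ⟨i, hu⟩
      exact ⟨_, (A.equivFin.symm i).2, hu⟩

/-- lower bounds for the covering probabilities of sets of total length at most `c` -/
def Low (l : Filter ℝ) (c : ℝ) : Prop := ∀ (n : ℕ) (a b : Fin n → ℝ), (∀ i, a i < b i) →
  ∑ i, (b i - a i) ≤ c → ∀ ε : ℝ, 0 < ε →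
    ∀ᶠ T in l, 1 - E (⋃ i, Ico (a i) (b i)) - ε ≤ Cv T (⋃ i, Ico (a i) (b i))

/-- upper bounds for the covering probabilities of sets of total length at most `c` -/
def Upp (l : Filter ℝ) (c : ℝ) : Prop := ∀ (n : ℕ) (a b : Fin n → ℝ), (∀ i, a i < b i) →
  ∑ i, (b i - a i) ≤ c → ∀ ε : ℝ, 0 < ε →
    ∀ᶠ T in l, Cv T (⋃ i, Ico (a i) (b i)) ≤ 1 - E (⋃ i, Ico (a i) (b i)) + ε

/-- **the main theorem** -/
theorem main2 (RH : RiemannHypothesis) (l : Filter ℝ) (hl : l ≤ atTop) (c : ℝ) (hc : 0 < c) :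
    ((∀ k : ℕ, 1 ≤ k → Full l k) ↔ Low l c) ∧
    ((∀ k : ℕ, 1 ≤ k → Full l k) ↔ RepZ l ∧ Upp l c) ∧
    ((∀ k : ℕ, 1 ≤ k → Full l k) → ∀ (n : ℕ) (a b : Fin n → ℝ),
      Tendsto (fun T => Cv T (⋃ i, Ico (a i) (b i))) l (𝓝 (1 - E (⋃ i, Ico (a i) (b i))))) := by
  have h10 : ∀ᶠ T in l, 10 ≤ T := hl (eventually_ge_atTop 10)
  have hconv := (main RH l hl).2
  refine ⟨⟨fun h n a b _ _ ε hε => ?_, fun h k _ => ?_⟩, ⟨fun h => ⟨?_, ?_⟩, fun h k _ => ?_⟩, hconv⟩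
  · exact (hconv h n a b).eventually_const_le
      (show 1 - E (⋃ i, Ico (a i) (b i)) - ε < 1 - E (⋃ i, Ico (a i) (b i)) by linarith)
  · rw [full_iff]
    refine cov_to_cor2 RH hl hc N424.VP.DET N756.VP.THIN N591.VP.GTHIN N861.VP.BON N618.VP.OSL
      N286.VP.OSL2 N401.VP.SPL N368.VP.SYM N99.VP.HOL N707.VP.CELE2 N645.VP.CELO2 N478.VP.PRD
      N296.VP.DIF2 (fun r hr A hA ε hε => ?_) k
    obtain ⟨n, a, b, h1, h2, hU⟩ := U_fin' hr A hA
    rw [hU]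
    filter_upwards [h n a b h1 h2 ε hε, h10] with T h1 hT
    rw [Cv_eq hT] at h1
    exact h1
  · exact rep_of_full N424.VP.DET (h 1 le_rfl)
  · intro n a b _ _ ε hε
    exact (hconv h n a b).eventually_le_const
      (show 1 - E (⋃ i, Ico (a i) (b i)) < 1 - E (⋃ i, Ico (a i) (b i)) + ε by linarith)
  · rw [full_iff]
    refine cov_to_cor3 RH hl hc N424.VP.DET N123.VP.THIN2 N680.VP.GTHIN2 N861.VP.BON N618.VP.OSL
      N286.VP.OSL2 N401.VP.SPL N368.VP.SYM N99.VP.HOL N707.VP.CELE2 N645.VP.CELO2 N255.VP.CELR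
      N478.VP.PRD N296.VP.DIF2 (rep_of hl h.1) (fun r hr A hA ε hε => ?_) k
    obtain ⟨n, a, b, h1, h2, hU⟩ := U_fin' hr A hA
    rw [hU]
    filter_upwards [h.2 n a b h1 h2 ε hε, h10] with T h1 hT
    rw [Cv_eq hT] at h1
    exact h1

open scoped Classical in
/-- the nearest neighbour law -/
theorem main3 (RH : RiemannHypothesis) (h : ∀ k : ℕ, 1 ≤ k → Full atTop k) {a b : ℝ}
    (ha : 0 ≤ a) (hab : a < b) :
    Tendsto (fun N : ℕ => (1 / N : ℝ) *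
      (((Finset.Icc 1 N).filter fun n => dlt n ∈ Ioc a b).card : ℝ)) atTop (𝓝 (∫ s in a..b, pd s)) := by
  refine nn_law RH N592.VP.SMO (fun s _ => ?_) ha hab
  have h1 := (main RH atTop le_rfl).2 h 1 (fun _ => 0) (fun _ => s)
  have h2 : (⋃ _i : Fin 1, Ico (0 : ℝ) s) = Ico 0 s := by
    ext u
    simp
  rw [h2] at h1
  exact h1

end Pool.Agent.N805.VP
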