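import Pool.Agent.N805.VP.Zeta

/-! # Covering probabilities: the induction -/

set_option autoImplicit false

open MeasureTheory Set Filter Topology

namespace Pool.Agent.N805.VP

open Pool.Agent.Y749.Rig
open SG (ord NZ zmult ZS)
open W200.HW (Ix mem_Ix card_Ix)
open Pool.Agent.N805.OS (ps nu MB EqL OneS rt ii sn hier At mem_At nT_top NZ_asymp nu_nonneg base)

/-- the one-sided bound of the covering probabilities of unions of cells -/
def CovL (l : Filter ℝ) (J : ℝ → Finset ℕ) (x : ℝ → ℕ → ℝ) (X : ℝ → ℝ) : Prop :=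
  ∀ r : ℕ, 1 ≤ r → ∀ A : Finset ℤ, ∀ ε : ℝ, 0 < ε → ∀ᶠ T in l,
    1 - E (U (1 / r) A) - ε ≤ cov (J T) (x T) (U (1 / r) A) / X T

variable {l : Filter ℝ} {J : ℝ → Finset ℕ} {x : ℝ → ℕ → ℝ} {X : ℝ → ℝ}

/-- the weights of the thinning have sum one -/
lemma weights (A : Finset ℤ) (z : ℝ) :
    ∑ S ∈ A.powerset, z ^ S.card * (1 - z) ^ (A.card - S.card) = 1 := by
  have h := Finset.prod_add (fun _ : ℤ => z) (fun _ => 1 - z) A
  simp only [Finset.prod_const] at h
  have e : z + (1 - z) = 1 := by ring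
  rw [e, one_pow] at h
  refine (Finset.sum_congr rfl fun S hS => ?_).trans h.symm
  rw [Finset.card_sdiff_of_subset (Finset.mem_powerset.1 hS)]

/-- lower bound of the Laplace functional -/
lemma lap_low (hDET : S_DET) (hTHIN : S_THIN) (hGTHIN : S_GTHIN) (hX : ∀ᶠ T in l, 0 < X T)
    (hcov : CovL l J x X) {r : ℕ} (hr : 1 ≤ r) (A : Finset ℤ) {z : ℝ} (hz : 0 < z) (hz1 : z ≤ 1)
    {ε : ℝ} (hε : 0 < ε) : ∀ᶠ T in l, 1 - Phi z (U (1 / r) A) - ε ≤
      (∫ t, (1 - (1 - z) ^ cnt (J T) (x T) (U (1 / r) A) t)) / X T := by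
  have hr' : (0 : ℝ) < r := by exact_mod_cast hr
  obtain ⟨v, hv⟩ : ∃ v : ℝ, v = A.card / r := ⟨_, rfl⟩
  have hv0 : 0 ≤ v := by rw [hv]; positivity
  obtain ⟨M, hM⟩ := exists_nat_gt (max 1 (v * Real.exp v / (ε / 2)))
  have hM1 : 1 ≤ M := by
    have := (le_max_left _ _).trans hM.le
    exact_mod_cast this
  have hM0 : (0 : ℝ) < M := by exact_mod_cast hM1
  have hM2 : v * Real.exp v / (ε / 2) ≤ M := (le_max_right _ _).trans hM.le
  obtain ⟨A', hA'⟩ : ∃ A' : Finset ℤ, A' = refine' M A := ⟨_, rfl⟩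
  have hU : U (1 / r) A = U (1 / ((r * M : ℕ) : ℝ)) A' := by
    rw [hA', U_refine (show (0 : ℝ) < 1 / r by positivity) hM1]
    congr 1
    push_cast
    field_simp
  have hrM : 1 ≤ r * M := Nat.one_le_iff_ne_zero.2 (by positivity)
  obtain ⟨h, hh⟩ : ∃ h : ℝ, h = 1 / ((r * M : ℕ) : ℝ) := ⟨_, rfl⟩
  have hh0 : 0 < h := by rw [hh]; push_cast; positivity
  rw [hU, ← hh]
  have hcard : h * A'.card ≤ v := by
    have h1 : (A'.card : ℝ) ≤ A.card * M := by
      have := refine_card M A
      rw [← hA'] at this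
      exact_mod_cast this
    calc h * A'.card ≤ h * (A.card * M) := mul_le_mul_of_nonneg_left h1 hh0.le
      _ = v := by rw [hh, hv]; push_cast; field_simp
  have herr : h * (h * A'.card) * Real.exp (h * A'.card) ≤ ε / 2 := by
    have h1 : h * (h * A'.card) * Real.exp (h * A'.card) ≤ h * v * Real.exp v := by
      have a1 : Real.exp (h * A'.card) ≤ Real.exp v := Real.exp_le_exp.2 hcard
      have a2 : h * (h * A'.card) ≤ h * v := mul_le_mul_of_nonneg_left hcard hh0.le
      exact mul_le_mul a2 a1 (Real.exp_pos _).le (by positivity)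
    refine h1.trans ?_
    have h2 : h ≤ 1 / M := by
      rw [hh]
      apply one_div_le_one_div_of_le hM0
      push_cast
      have : (1 : ℝ) ≤ r := by exact_mod_cast hr
      nlinarith
    rw [div_le_iff₀ (by positivity)] at hM2
    calc h * v * Real.exp v = h * (v * Real.exp v) := by ring
      _ ≤ 1 / M * (M * (ε / 2)) := mul_le_mul h2 hM2 (by positivity) (by positivity)
      _ = ε / 2 := by field_simp
  have hg := hGTHIN hDET h hh0 A' z hz.le hz1
  have hev : ∀ᶠ T in l, ∀ S ∈ A'.powerset, 1 - E (U h S) - ε / 2 ≤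
      cov (J T) (x T) (U h S) / X T := by
    rw [eventually_all_finset]
    intro S _
    rw [hh]
    exact hcov (r * M) hrM S (ε / 2) (by positivity)
  filter_upwards [hev, hX] with T h1 hXT
  have h2 := hTHIN (J T) (x T) h hh0 A' z hz.le hz1
  have h3 : ∑ S ∈ A'.powerset, z ^ S.card * (1 - z) ^ (A'.card - S.card) *
      (1 - E (U h S) - ε / 2) ≤ (∫ t, (1 - (1 - z) ^ cnt (J T) (x T) (U h A') t)) / X T := by
    have h4 : ∑ S ∈ A'.powerset, z ^ S.card * (1 - z) ^ (A'.card - S.card) *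
        (1 - E (U h S) - ε / 2) ≤ ∑ S ∈ A'.powerset, z ^ S.card * (1 - z) ^ (A'.card - S.card) *
        (cov (J T) (x T) (U h S) / X T) := by
      refine Finset.sum_le_sum fun S hS => mul_le_mul_of_nonneg_left (h1 S hS) ?_
      have : 0 ≤ 1 - z := by linarith
      positivity
    refine h4.trans ?_
    rw [le_div_iff₀ hXT, Finset.sum_mul]
    refine le_trans (le_of_eq ?_) h2
    refine Finset.sum_congr rfl fun S _ => ?_
    field_simp
  refine le_trans ?_ h3
  have e : ∑ S ∈ A'.powerset, z ^ S.card * (1 - z) ^ (A'.card - S.card) *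
      (1 - E (U h S) - ε / 2) = ∑ S ∈ A'.powerset, z ^ S.card * (1 - z) ^ (A'.card - S.card) *
      (1 - E (U h S)) - ε / 2 := by
    have e1 : ∀ S ∈ A'.powerset, z ^ S.card * (1 - z) ^ (A'.card - S.card) *
        (1 - E (U h S) - ε / 2) = z ^ S.card * (1 - z) ^ (A'.card - S.card) * (1 - E (U h S)) -
        z ^ S.card * (1 - z) ^ (A'.card - S.card) * (ε / 2) := fun S _ => by ring
    rw [Finset.sum_congr rfl e1, Finset.sum_sub_distrib, ← Finset.sum_mul, weights, one_mul]
  rw [e]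
  linarith

/-- convergence of products gives convergence for powers of unions of cells -/
lemma eqU (hSPL : S_SPL) {m : ℕ} (h : EqP l J x X m) {r : ℕ} (hr : 1 ≤ r) (A : Finset ℤ) :
    Tendsto (fun T => mom (J T) (x T) (fun _ : Fin m => U (1 / r) A) / X T) l
      (𝓝 (G fun _ : Fin m => U (1 / (r : ℝ)) A)) := by
  have hr' : (0 : ℝ) < 1 / r := by
    have : (0 : ℝ) < r := by exact_mod_cast hr
    positivity
  have hC : ∀ a ∈ A, MeasurableSet (cell (1 / (r : ℝ)) a) ∧
      ∃ b : ℝ, cell (1 / (r : ℝ)) a ⊆ Icc (-b) b := fun a _ =>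
    ⟨cell_meas _ _, _, cell_bdd hr' le_rfl⟩
  have hd : (A : Set ℤ).PairwiseDisjoint (cell (1 / (r : ℝ))) :=
    (cell_disj hr').subset (subset_univ _)
  have h1 := fun T => (hSPL.1 ℤ (J T) (x T) (cell (1 / (r : ℝ))) A hC hd m).1
  have h2 := (hSPL.1 ℤ ∅ (fun _ => 0) (cell (1 / (r : ℝ))) A hC hd m).2
  unfold U
  simp_rw [h1]
  rw [h2]
  simp_rw [Finset.sum_div]
  refine tendsto_finset_sum _ fun g _ => ?_
  exact h (fun i => g i * (1 / (r : ℝ))) (fun i => (g i + 1) * (1 / (r : ℝ))) fun i => by nlinarith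

/-- one step: bounds for the moments of unions -/
lemma step (hDET : S_DET) (hTHIN : S_THIN) (hGTHIN : S_GTHIN) (hBON : S_BON) (hOSL : S_OSL)
    (hSPL : S_SPL) (hX : ∀ᶠ T in l, 0 < X T) (hMom : Mom l J x X) (hcov : CovL l J x X) {m : ℕ}
    (hm : 1 ≤ m) (hlow : ∀ k : ℕ, 1 ≤ k → k < m → EqP l J x X k) :
    (Even m → OneU l J x X 1 m) ∧ (Odd m → OneU l J x X (-1) m) := by
  have key : ∀ r : ℕ, 1 ≤ r → ∀ A : Finset ℤ,
      (Even m → ∀ ε : ℝ, 0 < ε → ∀ᶠ T in l, mom (J T) (x T) (fun _ : Fin m => U (1 / r) A) / X T ≤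
        G (fun _ : Fin m => U (1 / (r : ℝ)) A) + ε) ∧
      (Odd m → ∀ ε : ℝ, 0 < ε → ∀ᶠ T in l, G (fun _ : Fin m => U (1 / (r : ℝ)) A) - ε ≤
        mom (J T) (x T) (fun _ : Fin m => U (1 / r) A) / X T) := by
    intro r hr A
    have hr' : (0 : ℝ) < 1 / r := by
      have : (0 : ℝ) < r := by exact_mod_cast hr
      positivity
    obtain ⟨W, hW⟩ : ∃ W : Set ℝ, W = U (1 / (r : ℝ)) A := ⟨_, rfl⟩
    have hWm : MeasurableSet W := by rw [hW]; exact U_meas _ _
    have hWb : ∃ b : ℝ, W ⊆ Icc (-b) b := by rw [hW]; exact U_bdd _ hr' _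
    -- positivity of X along the filter: pass to the truncated sequence
    obtain ⟨a, ha⟩ : ∃ a : ℕ → ℝ → ℝ, a = fun k T =>
        max 0 (mom (J T) (x T) (fun _ : Fin k => W) / X T) := ⟨_, rfl⟩
    have haX : ∀ᶠ T in l, ∀ k, a k T = mom (J T) (x T) (fun _ : Fin k => W) / X T := by
      filter_upwards [hX] with T hT k
      rw [ha]
      exact max_eq_right (div_nonneg (mom_nonneg _) hT.le)
    have h := hOSL l a (fun z T => (∫ t, (1 - (1 - z) ^ cnt (J T) (x T) W t)) / X T)
      (fun k => G (fun _ : Fin k => W)) (volume.real W) m hm (G_zero _)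
      (fun k => ⟨G_nonneg hDET fun _ => hWm, G_const_le hDET hWm hWb⟩)
      (fun k T => by rw [ha]; exact le_max_left _ _)
      (fun k hk1 hkm => by
        refine (hW ▸ eqU hSPL (hlow k hk1 hkm) hr A).congr' ?_
        filter_upwards [haX] with T hT
        rw [hT k])
      (by
        obtain ⟨b, hb⟩ := hWb
        obtain ⟨C, hC0, hC⟩ := hMom b (m + 1) (by omega)
        refine ⟨C, ?_⟩
        filter_upwards [hC, hX, haX] with T h1 h2 h3
        rw [h3, div_le_iff₀ h2]
        refine le_trans ?_ h1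
        unfold mom
        refine integral_mono (int_tup (by omega) (fun _ => hWm) ⟨b, fun _ => hb⟩)
          (int_cnt (J := J T) (x := x T) (W := Icc (-b) b) measurableSet_Icc ⟨b, subset_rfl⟩
            (fun n => (n : ℝ) ^ (m + 1)) (by simp)) fun t => ?_
        have h5 := tup_le_pow (J := J T) (x := x T) (c := fun _ : Fin (m + 1) => W) (fun _ => hb) t
        have h6 : ((tup (J T) (x T) (fun _ : Fin (m + 1) => W) t).card : ℝ) ≤
            (cnt (J T) (x T) (Icc (-b) b) t : ℝ) ^ (m + 1) := by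
          rw [← Nat.cast_pow]
          exact Nat.cast_le.2 h5
        exact h6)
      (fun z hz hz1 ε hε => by
        have h1 := lap_low hDET hTHIN hGTHIN hX hcov hr A hz hz1 hε
        rw [← hW] at h1
        exact h1)
      (fun z hz hz1 K hK => by
        filter_upwards [hX, haX] with T hT h2
        have h1 := ((hBON (J T) (x T) W hWm hWb).1 z hz.le hz1 K).1 hK
        rw [div_le_iff₀ hT]
        refine h1.trans (le_of_eq ?_)
        rw [neg_mul, Finset.sum_mul]
        congr 1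
        refine Finset.sum_congr rfl fun k _ => ?_
        rw [h2]
        field_simp)
    rw [← hW]
    constructor
    · intro he ε hε
      filter_upwards [h.1 he ε hε, haX] with T h1 h2
      rw [h2] at h1
      exact h1
    · intro he ε hε
      filter_upwards [h.2 he ε hε, haX] with T h1 h2
      rw [h2] at h1
      exact h1
  constructor
  · intro he r hr A ε hε
    filter_upwards [(key r hr A).1 he ε hε] with T hT
    linarith
  · intro he r hr A ε hε
    filter_upwards [(key r hr A).2 he ε hε] with T hT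
    linarith

/-- **covering probabilities determine the correlations** -/
theorem cov_to_cor (RH : RiemannHypothesis) (hl : l ≤ atTop) (hDET : S_DET) (hTHIN : S_THIN)
    (hGTHIN : S_GTHIN) (hBON : S_BON) (hOSL : S_OSL) (hSPL : S_SPL) (hSYM : S_SYM) (hHOL : S_HOL)
    (hCELE : S_CELE) (hCELO : S_CELO) (hPRD : S_PRD) (hDIF : S_DIF) (hcov : CovL l Ix ps nT) :
    ∀ m, EqL l m := by
  have hX : ∀ᶠ T in l, 0 < nT T := hl (nT_top.eventually_gt_atTop 0)
  have hMom := mom_bdd RH hl
  intro m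
  induction m using Nat.strong_induction_on with
  | _ m ih =>
    rcases Nat.eq_zero_or_pos m with h0 | h0
    · rw [h0]
      exact base hl
    have hlow : ∀ k : ℕ, 1 ≤ k → k < m + 1 → EqP l Ix ps nT k := by
      intro k hk1 hk2
      obtain ⟨k, rfl⟩ : ∃ k', k = k' + 1 := ⟨k - 1, by omega⟩
      exact hPRD hDET l Ix ps nT hX k ((EqD_iff l k).2 (ih k (by omega)))
    have hst := step hDET hTHIN hGTHIN hBON hOSL hSPL hX hMom hcov (by omega : 1 ≤ m + 1) hlow
    rcases Nat.even_or_odd (m + 1) with he | he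
    · have h1 := hCELE hDET hSPL hSYM l Ix ps nT hX (m + 1) (by omega) (hst.1 he)
      have h2 := hDIF hDET l Ix ps nT hX m 1 (Or.inl rfl) h1
      exact hier RH hl (Or.inl rfl) ((OneD_iff l 1 m).1 h2) m le_rfl
    · have hm3 : 3 ≤ m + 1 := by
        rcases he with ⟨j, hj⟩
        omega
      have h1 := hCELO hDET hSPL hSYM hHOL l Ix ps nT hX (m + 1) hm3 hMom
        (hlow m h0 (by omega)) (hst.2 he)
      have h2 := hDIF hDET l Ix ps nT hX m (-1) (Or.inr rfl) h1
      exact hier RH hl (Or.inr rfl) ((OneD_iff l (-1) m).1 h2) m le_rfl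

end Pool.Agent.N805.VP
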