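import Pool.Agent.N805.VP.Ind
import Pool.Agent.N805.VP.Stm3

/-! # Covering probabilities of small sets: the induction, both inequalities -/

set_option autoImplicit false

open MeasureTheory Set Filter Topology

namespace Pool.Agent.N805.VP

open Pool.Agent.Y749.Rig
open SG (ord NZ zmult ZS)
open W200.HW (Ix mem_Ix card_Ix)
open Pool.Agent.N805.OS (ps nu MB EqL OneS rt ii sn hier At mem_At nT_top NZ_asymp nu_nonneg base)

/-- lower bound of the covering probabilities of unions of cells of total length at most `c` -/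
def CovL' (l : Filter ℝ) (J : ℝ → Finset ℕ) (x : ℝ → ℕ → ℝ) (X : ℝ → ℝ) (c : ℝ) : Prop :=
  ∀ r : ℕ, 1 ≤ r → ∀ A : Finset ℤ, (A.card : ℝ) / r ≤ c → ∀ ε : ℝ, 0 < ε → ∀ᶠ T in l,
    1 - E (U (1 / r) A) - ε ≤ cov (J T) (x T) (U (1 / r) A) / X T

/-- upper bound of the covering probabilities of unions of cells of total length at most `c` -/
def CovU' (l : Filter ℝ) (J : ℝ → Finset ℕ) (x : ℝ → ℕ → ℝ) (X : ℝ → ℝ) (c : ℝ) : Prop :=
  ∀ r : ℕ, 1 ≤ r → ∀ A : Finset ℤ, (A.card : ℝ) / r ≤ c → ∀ ε : ℝ, 0 < ε → ∀ᶠ T in l,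
    cov (J T) (x T) (U (1 / r) A) / X T ≤ 1 - E (U (1 / r) A) + ε

variable {l : Filter ℝ} {J : ℝ → Finset ℕ} {x : ℝ → ℕ → ℝ} {X : ℝ → ℝ} {c : ℝ}

/-- refining the grid: parameters -/
lemma ref_par {r : ℕ} (hr : 1 ≤ r) (A : Finset ℤ) (hA : (A.card : ℝ) / r ≤ c) {ε : ℝ} (hε : 0 < ε)
    (M0 : ℕ) : ∃ (r' : ℕ) (A' : Finset ℤ), 1 ≤ r' ∧ M0 ≤ r' ∧ (A'.card : ℝ) / r' ≤ A.card / r ∧
    (∀ S ∈ A'.powerset, (S.card : ℝ) / r' ≤ c) ∧ U (1 / r) A = U (1 / (r' : ℝ)) A' ∧
    1 / (r' : ℝ) * (1 / (r' : ℝ) * A'.card) * Real.exp (1 / (r' : ℝ) * A'.card) ≤ ε := by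
  have hr' : (0 : ℝ) < r := by exact_mod_cast hr
  obtain ⟨v, hv⟩ : ∃ v : ℝ, v = A.card / r := ⟨_, rfl⟩
  have hv0 : 0 ≤ v := by rw [hv]; positivity
  obtain ⟨M, hM⟩ := exists_nat_gt (max (max 1 (M0 : ℝ)) (v * Real.exp v / ε))
  have hM1 : 1 ≤ M := by
    have := ((le_max_left _ _).trans (le_max_left _ _)).trans hM.le
    exact_mod_cast this
  have hMM : M0 ≤ M := by
    have := ((le_max_right _ _).trans (le_max_left _ _)).trans hM.le
    exact_mod_cast this
  have hM0 : (0 : ℝ) < M := by exact_mod_cast hM1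
  have hM2 : v * Real.exp v / ε ≤ M := (le_max_right _ _).trans hM.le
  obtain ⟨A', hA'⟩ : ∃ A' : Finset ℤ, A' = refine' M A := ⟨_, rfl⟩
  have hU : U (1 / r) A = U (1 / ((r * M : ℕ) : ℝ)) A' := by
    rw [hA', U_refine (show (0 : ℝ) < 1 / r by positivity) hM1]
    congr 1
    push_cast
    field_simp
  have hrM : 1 ≤ r * M := Nat.one_le_iff_ne_zero.2 (by positivity)
  obtain ⟨h, hh⟩ : ∃ h : ℝ, h = 1 / ((r * M : ℕ) : ℝ) := ⟨_, rfl⟩
  have hh0 : 0 < h := by rw [hh]; push_cast; positivity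
  have hcard : h * A'.card ≤ v := by
    have h1 : (A'.card : ℝ) ≤ A.card * M := by
      have := refine_card M A
      rw [← hA'] at this
      exact_mod_cast this
    calc h * A'.card ≤ h * (A.card * M) := mul_le_mul_of_nonneg_left h1 hh0.le
      _ = v := by rw [hh, hv]; push_cast; field_simp
  have herr : h * (h * A'.card) * Real.exp (h * A'.card) ≤ ε := by
    have h1 : h * (h * A'.card) * Real.exp (h * A'.card) ≤ h * v * Real.exp v := by
      have a1 : Real.exp (h * A'.card) ≤ Real.exp v := Real.exp_le_exp.2 hcard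
      have a2 : h * (h * A'.card) ≤ h * v := mul_le_mul_of_nonneg_left hcard hh0.le
      exact mul_le_mul a2 a1 (Real.exp_pos _).le (by positivity)
    refine h1.trans ?_
    have h2 : h ≤ 1 / M := by
      rw [hh]
      apply one_div_le_one_div_of_le hM0
      push_cast
      have : (1 : ℝ) ≤ r := by exact_mod_cast hr
      nlinarith
    rw [div_le_iff₀ (by positivity)] at hM2
    calc h * v * Real.exp v = h * (v * Real.exp v) := by ring
      _ ≤ 1 / M * (M * ε) := mul_le_mul h2 hM2 (by positivity) (by positivity)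
      _ = ε := by field_simp
  have hA2 : (A'.card : ℝ) / ((r * M : ℕ) : ℝ) ≤ A.card / r := by
    rw [← hv]
    refine le_trans (le_of_eq ?_) hcard
    rw [hh]
    ring
  refine ⟨r * M, A', hrM, ?_, hA2, fun S hS => ?_, hU, by rw [← hh]; exact herr⟩
  · calc M0 ≤ M := hMM
      _ ≤ r * M := Nat.le_mul_of_pos_left M (by omega)
  · refine le_trans ?_ (hA2.trans hA)
    have h1 : (S.card : ℝ) ≤ A'.card := by
      exact_mod_cast Finset.card_le_card (Finset.mem_powerset.1 hS)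
    exact div_le_div_of_nonneg_right h1 (Nat.cast_nonneg _)

/-- lower bound of the Laplace functional -/
lemma lap_low' (hDET : S_DET) (hTHIN : S_THIN) (hGTHIN : S_GTHIN) (hX : ∀ᶠ T in l, 0 < X T)
    (hcov : CovL' l J x X c) {r : ℕ} (hr : 1 ≤ r) (A : Finset ℤ) (hA : (A.card : ℝ) / r ≤ c) {z : ℝ}
    (hz : 0 < z) (hz1 : z ≤ 1) {ε : ℝ} (hε : 0 < ε) : ∀ᶠ T in l, 1 - Phi z (U (1 / r) A) - ε ≤
      (∫ t, (1 - (1 - z) ^ cnt (J T) (x T) (U (1 / r) A) t)) / X T := by
  obtain ⟨r', A', h1, _, _, h2, h3, herr⟩ := ref_par hr A hA (half_pos hε) 0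
  have hr' : (0 : ℝ) < r' := by exact_mod_cast h1
  rw [h3]
  obtain ⟨h, hh⟩ : ∃ h : ℝ, h = 1 / (r' : ℝ) := ⟨_, rfl⟩
  have hh0 : 0 < h := by rw [hh]; positivity
  rw [← hh] at herr ⊢
  have hg := hGTHIN hDET h hh0 A' z hz.le hz1
  have hev : ∀ᶠ T in l, ∀ S ∈ A'.powerset, 1 - E (U h S) - ε / 2 ≤
      cov (J T) (x T) (U h S) / X T := by
    rw [eventually_all_finset]
    intro S hS
    rw [hh]
    exact hcov r' h1 S (h2 S hS) (ε / 2) (by positivity)
  filter_upwards [hev, hX] with T h1 hXT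
  have h2 := hTHIN (J T) (x T) h hh0 A' z hz.le hz1
  have h3 : ∑ S ∈ A'.powerset, z ^ S.card * (1 - z) ^ (A'.card - S.card) *
      (1 - E (U h S) - ε / 2) ≤ (∫ t, (1 - (1 - z) ^ cnt (J T) (x T) (U h A') t)) / X T := by
    have h4 : ∑ S ∈ A'.powerset, z ^ S.card * (1 - z) ^ (A'.card - S.card) *
        (1 - E (U h S) - ε / 2) ≤ ∑ S ∈ A'.powerset, z ^ S.card * (1 - z) ^ (A'.card - S.card) *
        (cov (J T) (x T) (U h S) / X T) := by
      refine Finset.sum_le_sum fun S hS => mul_le_mul_of_nonneg_left (h1 S hS) ?_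
      have : 0 ≤ 1 - z := by linarith
      positivity
    refine h4.trans ?_
    rw [le_div_iff₀ hXT, Finset.sum_mul]
    refine le_trans (le_of_eq ?_) h2
    refine Finset.sum_congr rfl fun S _ => ?_
    field_simp
  refine le_trans ?_ h3
  have e : ∑ S ∈ A'.powerset, z ^ S.card * (1 - z) ^ (A'.card - S.card) *
      (1 - E (U h S) - ε / 2) = ∑ S ∈ A'.powerset, z ^ S.card * (1 - z) ^ (A'.card - S.card) *
      (1 - E (U h S)) - ε / 2 := by
    have e1 : ∀ S ∈ A'.powerset, z ^ S.card * (1 - z) ^ (A'.card - S.card) *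
        (1 - E (U h S) - ε / 2) = z ^ S.card * (1 - z) ^ (A'.card - S.card) * (1 - E (U h S)) -
        z ^ S.card * (1 - z) ^ (A'.card - S.card) * (ε / 2) := fun S _ => by ring
    rw [Finset.sum_congr rfl e1, Finset.sum_sub_distrib, ← Finset.sum_mul, weights, one_mul]
  rw [e]
  linarith

/-- upper bound of the Laplace functional -/
lemma lap_upp' (hDET : S_DET) (hTHIN : S_THIN2) (hGTHIN : S_GTHIN2) (hX : ∀ᶠ T in l, 0 < X T)
    (hRep : Rep l J x X) (hcov : CovU' l J x X c) {r : ℕ} (hr : 1 ≤ r) (A : Finset ℤ)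
    (hA : (A.card : ℝ) / r ≤ c) {z : ℝ} (hz : 0 < z) (hz1 : z ≤ 1) {ε : ℝ} (hε : 0 < ε) :
    ∀ᶠ T in l, (∫ t, (1 - (1 - z) ^ cnt (J T) (x T) (U (1 / r) A) t)) / X T ≤
      1 - Phi z (U (1 / r) A) + ε := by
  obtain ⟨v, hv⟩ : ∃ v : ℝ, v = A.card / r := ⟨_, rfl⟩
  have hv0 : 0 ≤ v := by rw [hv]; positivity
  obtain ⟨r0, hr0, hR⟩ := hRep (ε / 3 / (v + 1)) (by positivity)
  obtain ⟨r', A', h1, h1', hA', h2, h3, herr⟩ := ref_par hr A hA (show 0 < ε / 3 by positivity) r0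
  have hr' : (0 : ℝ) < r' := by exact_mod_cast h1
  have hr1 : (1 : ℝ) ≤ r' := by exact_mod_cast h1
  rw [← hv] at hA'
  rw [h3]
  have hpair : ∀ᶠ T in l, ∀ a ∈ A', mom (J T) (x T) (fun _ : Fin 2 => cell (1 / r') a) / X T ≤
      ε / 3 / (v + 1) / (r' : ℝ) ^ 2 := by
    rw [eventually_all_finset]
    intro a _
    exact hR r' h1' a
  obtain ⟨h, hh⟩ : ∃ h : ℝ, h = 1 / (r' : ℝ) := ⟨_, rfl⟩
  have hh0 : 0 < h := by rw [hh]; positivity
  rw [← hh] at herr hpair ⊢
  have hg := hGTHIN hDET h hh0 A' z hz.le hz1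
  have hev : ∀ᶠ T in l, ∀ S ∈ A'.powerset, cov (J T) (x T) (U h S) / X T ≤
      1 - E (U h S) + ε / 3 := by
    rw [eventually_all_finset]
    intro S hS
    rw [hh]
    exact hcov r' h1 S (h2 S hS) (ε / 3) (by positivity)
  filter_upwards [hev, hX, hpair] with T h1 hXT h5
  have h2 := hTHIN (J T) (x T) h hh0 A' z hz.le hz1
  have h6 : (∑ a ∈ A', mom (J T) (x T) (fun _ : Fin 2 => cell h a)) / X T ≤ ε / 3 := by
    rw [Finset.sum_div]
    refine (Finset.sum_le_sum h5).trans ?_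
    rw [Finset.sum_const, nsmul_eq_mul]
    have h7 : (A'.card : ℝ) ≤ v * r' := by
      rw [div_le_iff₀ hr'] at hA'
      exact hA'
    calc (A'.card : ℝ) * (ε / 3 / (v + 1) / (r' : ℝ) ^ 2) ≤
        (v * r') * (ε / 3 / (v + 1) / (r' : ℝ) ^ 2) := mul_le_mul_of_nonneg_right h7 (by positivity)
      _ = ε / 3 * (v / (v + 1)) * (1 / r') := by field_simp
      _ ≤ ε / 3 * 1 * 1 := by
          have a1 : v / (v + 1) ≤ 1 := by rw [div_le_one (by positivity)]; linarith
          have a2 : 1 / (r' : ℝ) ≤ 1 := by rw [div_le_one hr']; exact hr1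
          have a3 : 0 ≤ v / (v + 1) := by positivity
          exact mul_le_mul (mul_le_mul_of_nonneg_left a1 (by positivity)) a2 (by positivity) (by positivity)
      _ = ε / 3 := by ring
  have h3 : (∫ t, (1 - (1 - z) ^ cnt (J T) (x T) (U h A') t)) / X T ≤
      ∑ S ∈ A'.powerset, z ^ S.card * (1 - z) ^ (A'.card - S.card) *
      (1 - E (U h S) + ε / 3) + ε / 3 := by
    have h4 : ∑ S ∈ A'.powerset, z ^ S.card * (1 - z) ^ (A'.card - S.card) *
        (cov (J T) (x T) (U h S) / X T) ≤ ∑ S ∈ A'.powerset, z ^ S.card *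
        (1 - z) ^ (A'.card - S.card) * (1 - E (U h S) + ε / 3) := by
      refine Finset.sum_le_sum fun S hS => mul_le_mul_of_nonneg_left (h1 S hS) ?_
      have : 0 ≤ 1 - z := by linarith
      positivity
    have h7 : (∑ S ∈ A'.powerset, z ^ S.card * (1 - z) ^ (A'.card - S.card) *
        cov (J T) (x T) (U h S)) / X T = ∑ S ∈ A'.powerset, z ^ S.card *
        (1 - z) ^ (A'.card - S.card) * (cov (J T) (x T) (U h S) / X T) := by
      rw [Finset.sum_div]
      refine Finset.sum_congr rfl fun S _ => ?_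
      ring
    have h8 := div_le_div_of_nonneg_right h2 hXT.le
    rw [add_div, h7] at h8
    linarith
  refine h3.trans ?_
  have e : ∑ S ∈ A'.powerset, z ^ S.card * (1 - z) ^ (A'.card - S.card) *
      (1 - E (U h S) + ε / 3) = ∑ S ∈ A'.powerset, z ^ S.card * (1 - z) ^ (A'.card - S.card) *
      (1 - E (U h S)) + ε / 3 := by
    have e1 : ∀ S ∈ A'.powerset, z ^ S.card * (1 - z) ^ (A'.card - S.card) *
        (1 - E (U h S) + ε / 3) = z ^ S.card * (1 - z) ^ (A'.card - S.card) * (1 - E (U h S)) +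
        z ^ S.card * (1 - z) ^ (A'.card - S.card) * (ε / 3) := fun S _ => by ring
    rw [Finset.sum_congr rfl e1, Finset.sum_add_distrib, ← Finset.sum_mul, weights, one_mul]
  rw [e]
  linarith

/-- one step: from bounds of the Laplace functional to bounds of the moments of unions -/
lemma step' (hDET : S_DET) (hBON : S_BON) (hOSL : S_OSL) (hOSL2 : S_OSL2)
    (hSPL : S_SPL) (hX : ∀ᶠ T in l, 0 < X T) (hMom : Mom l J x X) {m : ℕ}
    (hm : 1 ≤ m) (hlow : ∀ k : ℕ, 1 ≤ k → k < m → EqP l J x X k) {r : ℕ} (hr : 1 ≤ r)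
    (A : Finset ℤ) :
    ((∀ z : ℝ, 0 < z → z ≤ 1 → ∀ ε : ℝ, 0 < ε → ∀ᶠ T in l, 1 - Phi z (U (1 / r) A) - ε ≤
      (∫ t, (1 - (1 - z) ^ cnt (J T) (x T) (U (1 / r) A) t)) / X T) →
    (Even m → ∀ ε : ℝ, 0 < ε → ∀ᶠ T in l, mom (J T) (x T) (fun _ : Fin m => U (1 / r) A) / X T ≤
        G (fun _ : Fin m => U (1 / (r : ℝ)) A) + ε) ∧
      (Odd m → ∀ ε : ℝ, 0 < ε → ∀ᶠ T in l, G (fun _ : Fin m => U (1 / (r : ℝ)) A) - ε ≤
        mom (J T) (x T) (fun _ : Fin m => U (1 / r) A) / X T)) ∧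
    ((∀ z : ℝ, 0 < z → z ≤ 1 → ∀ ε : ℝ, 0 < ε → ∀ᶠ T in l,
      (∫ t, (1 - (1 - z) ^ cnt (J T) (x T) (U (1 / r) A) t)) / X T ≤
        1 - Phi z (U (1 / r) A) + ε) →
    (Odd m → ∀ ε : ℝ, 0 < ε → ∀ᶠ T in l, mom (J T) (x T) (fun _ : Fin m => U (1 / r) A) / X T ≤
        G (fun _ : Fin m => U (1 / (r : ℝ)) A) + ε) ∧
      (Even m → ∀ ε : ℝ, 0 < ε → ∀ᶠ T in l, G (fun _ : Fin m => U (1 / (r : ℝ)) A) - ε ≤
        mom (J T) (x T) (fun _ : Fin m => U (1 / r) A) / X T)) := by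
  have hr' : (0 : ℝ) < 1 / r := by
    have : (0 : ℝ) < r := by exact_mod_cast hr
    positivity
  have heq : ∀ k, 1 ≤ k → k < m → Tendsto (fun T => mom (J T) (x T)
      (fun _ : Fin k => U (1 / r) A) / X T) l (𝓝 (G fun _ : Fin k => U (1 / (r : ℝ)) A)) :=
    fun k hk1 hkm => eqU hSPL (hlow k hk1 hkm) hr A
  obtain ⟨W, hW⟩ : ∃ W : Set ℝ, W = U (1 / (r : ℝ)) A := ⟨_, rfl⟩
  have hWm : MeasurableSet W := by rw [hW]; exact U_meas _ _
  have hWb : ∃ b : ℝ, W ⊆ Icc (-b) b := by rw [hW]; exact U_bdd _ hr' _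
  rw [← hW] at heq ⊢
  obtain ⟨a, ha⟩ : ∃ a : ℕ → ℝ → ℝ, a = fun k T =>
      max 0 (mom (J T) (x T) (fun _ : Fin k => W) / X T) := ⟨_, rfl⟩
  have haX : ∀ᶠ T in l, ∀ k, a k T = mom (J T) (x T) (fun _ : Fin k => W) / X T := by
    filter_upwards [hX] with T hT k
    rw [ha]
    exact max_eq_right (div_nonneg (mom_nonneg _) hT.le)
  have ha0 : ∀ k T, 0 ≤ a k T := fun k T => by rw [ha]; exact le_max_left _ _
  have hconv : ∀ k, 1 ≤ k → k < m → Tendsto (a k) l (𝓝 (G fun _ : Fin k => W)) := by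
    intro k hk1 hkm
    refine (heq k hk1 hkm).congr' ?_
    filter_upwards [haX] with T hT
    rw [hT k]
  have hbd : ∃ C : ℝ, ∀ᶠ T in l, a (m + 1) T ≤ C := by
    obtain ⟨b, hb⟩ := hWb
    obtain ⟨C, hC0, hC⟩ := hMom b (m + 1) (by omega)
    refine ⟨C, ?_⟩
    filter_upwards [hC, hX, haX] with T h1 h2 h3
    rw [h3, div_le_iff₀ h2]
    refine le_trans ?_ h1
    unfold mom
    refine integral_mono (int_tup (by omega) (fun _ => hWm) ⟨b, fun _ => hb⟩)
      (int_cnt (J := J T) (x := x T) (W := Icc (-b) b) measurableSet_Icc ⟨b, subset_rfl⟩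
        (fun n => (n : ℝ) ^ (m + 1)) (by simp)) fun t => ?_
    have h5 := tup_le_pow (J := J T) (x := x T) (c := fun _ : Fin (m + 1) => W) (fun _ => hb) t
    have h6 : ((tup (J T) (x T) (fun _ : Fin (m + 1) => W) t).card : ℝ) ≤
        (cnt (J T) (x T) (Icc (-b) b) t : ℝ) ^ (m + 1) := by
      rw [← Nat.cast_pow]
      exact Nat.cast_le.2 h5
    exact h6
  have hg : ∀ k, 0 ≤ G (fun _ : Fin k => W) ∧ G (fun _ : Fin k => W) ≤ volume.real W ^ k :=
    fun k => ⟨G_nonneg hDET fun _ => hWm, G_const_le hDET hWm hWb⟩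
  constructor
  · intro hlap
    have h := hOSL l a (fun z T => (∫ t, (1 - (1 - z) ^ cnt (J T) (x T) W t)) / X T)
      (fun k => G (fun _ : Fin k => W)) (volume.real W) m hm (G_zero _) hg ha0 hconv hbd
      (fun z hz hz1 ε hε => hlap z hz hz1 ε hε)
      (fun z hz hz1 K hK => by
        filter_upwards [hX, haX] with T hT h2
        have h1 := ((hBON (J T) (x T) W hWm hWb).1 z hz.le hz1 K).1 hK
        rw [div_le_iff₀ hT]
        refine h1.trans (le_of_eq ?_)
        rw [neg_mul, Finset.sum_mul]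
        congr 1
        refine Finset.sum_congr rfl fun k _ => ?_
        rw [h2]
        field_simp)
    constructor
    · intro he ε hε
      filter_upwards [h.1 he ε hε, haX] with T h1 h2
      rw [h2] at h1
      exact h1
    · intro he ε hε
      filter_upwards [h.2 he ε hε, haX] with T h1 h2
      rw [h2] at h1
      exact h1
  · intro hlap
    have h := hOSL2 l a (fun z T => (∫ t, (1 - (1 - z) ^ cnt (J T) (x T) W t)) / X T)
      (fun k => G (fun _ : Fin k => W)) (volume.real W) m hm (G_zero _) hg ha0 hconv hbd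
      (fun z hz hz1 ε hε => hlap z hz hz1 ε hε)
      (fun z hz hz1 K hK => by
        filter_upwards [hX, haX] with T hT h2
        have h1 := ((hBON (J T) (x T) W hWm hWb).1 z hz.le hz1 K).2 hK
        rw [le_div_iff₀ hT]
        refine le_trans (le_of_eq ?_) h1
        rw [neg_mul, Finset.sum_mul]
        congr 1
        refine Finset.sum_congr rfl fun k _ => ?_
        rw [h2]
        field_simp)
    constructor
    · intro he ε hε
      filter_upwards [h.1 he ε hε, haX] with T h1 h2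
      rw [h2] at h1
      exact h1
    · intro he ε hε
      filter_upwards [h.2 he ε hε, haX] with T h1 h2
      rw [h2] at h1
      exact h1

/-- **covering probabilities of small sets determine the correlations: lower bounds** -/
theorem cov_to_cor2 (RH : RiemannHypothesis) (hl : l ≤ atTop) (hc : 0 < c) (hDET : S_DET)
    (hTHIN : S_THIN) (hGTHIN : S_GTHIN) (hBON : S_BON) (hOSL : S_OSL) (hOSL2 : S_OSL2)
    (hSPL : S_SPL) (hSYM : S_SYM) (hHOL : S_HOL) (hCELE : S_CELE2) (hCELO : S_CELO2)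
    (hPRD : S_PRD) (hDIF : S_DIF2) (hcov : CovL' l Ix ps nT c) :
    ∀ m, EqL l m := by
  have hX : ∀ᶠ T in l, 0 < nT T := hl (nT_top.eventually_gt_atTop 0)
  have hMom := mom_bdd RH hl
  intro m
  induction m using Nat.strong_induction_on with
  | _ m ih =>
    rcases Nat.eq_zero_or_pos m with h0 | h0
    · rw [h0]
      exact base hl
    have hlow : ∀ k : ℕ, 1 ≤ k → k < m + 1 → EqP l Ix ps nT k := by
      intro k hk1 hk2
      obtain ⟨k, rfl⟩ : ∃ k', k = k' + 1 := ⟨k - 1, by omega⟩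
      exact hPRD hDET l Ix ps nT hX k ((EqD_iff l k).2 (ih k (by omega)))
    have hst := fun (r : ℕ) (hr : 1 ≤ r) (A : Finset ℤ) (hA : (A.card : ℝ) / r ≤ c) =>
      (step' hDET hBON hOSL hOSL2 hSPL hX hMom (by omega : 1 ≤ m + 1) hlow hr A).1
        (fun z hz hz1 ε hε => lap_low' hDET hTHIN hGTHIN hX hcov hr A hA hz hz1 hε)
    rcases Nat.even_or_odd (m + 1) with he | he
    · have h0 : OneU' l Ix ps nT c 1 (m + 1) := by
        intro r hr A hA ε hε
        filter_upwards [(hst r hr A hA).1 he ε hε] with T hT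
        linarith
      have h1 := hCELE hDET hSPL hSYM l Ix ps nT hX c hc (m + 1) (by omega) h0
      have h2 := hDIF hDET l Ix ps nT hX m 1 (Or.inl rfl) h1
      exact hier RH hl (Or.inl rfl) ((OneD_iff l 1 m).1 h2) m le_rfl
    · have hm3 : 3 ≤ m + 1 := by
        rcases he with ⟨j, hj⟩
        omega
      have h0' : OneU' l Ix ps nT c (-1) (m + 1) := by
        intro r hr A hA ε hε
        filter_upwards [(hst r hr A hA).2 he ε hε] with T hT
        linarith
      have h1 := hCELO hDET hSPL hSYM hHOL l Ix ps nT hX c hc (m + 1) hm3 hMom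
        (hlow m h0 (by omega)) h0'
      have h2 := hDIF hDET l Ix ps nT hX m (-1) (Or.inr rfl) h1
      exact hier RH hl (Or.inr rfl) ((OneD_iff l (-1) m).1 h2) m le_rfl

/-- **covering probabilities of small sets determine the correlations: upper bounds, repulsion** -/
theorem cov_to_cor3 (RH : RiemannHypothesis) (hl : l ≤ atTop) (hc : 0 < c) (hDET : S_DET)
    (hTHIN : S_THIN2) (hGTHIN : S_GTHIN2) (hBON : S_BON) (hOSL : S_OSL) (hOSL2 : S_OSL2)
    (hSPL : S_SPL) (hSYM : S_SYM) (hHOL : S_HOL) (hCELE : S_CELE2) (hCELO : S_CELO2)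
    (hCELR : S_CELR) (hPRD : S_PRD) (hDIF : S_DIF2) (hRep : Rep l Ix ps nT)
    (hcov : CovU' l Ix ps nT c) : ∀ m, EqL l m := by
  have hX : ∀ᶠ T in l, 0 < nT T := hl (nT_top.eventually_gt_atTop 0)
  have hMom := mom_bdd RH hl
  intro m
  induction m using Nat.strong_induction_on with
  | _ m ih =>
    rcases Nat.eq_zero_or_pos m with h0 | h0
    · rw [h0]
      exact base hl
    have hlow : ∀ k : ℕ, 1 ≤ k → k < m + 1 → EqP l Ix ps nT k := by
      intro k hk1 hk2
      obtain ⟨k, rfl⟩ : ∃ k', k = k' + 1 := ⟨k - 1, by omega⟩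
      exact hPRD hDET l Ix ps nT hX k ((EqD_iff l k).2 (ih k (by omega)))
    have hst := fun (r : ℕ) (hr : 1 ≤ r) (A : Finset ℤ) (hA : (A.card : ℝ) / r ≤ c) =>
      (step' hDET hBON hOSL hOSL2 hSPL hX hMom (by omega : 1 ≤ m + 1) hlow hr A).2
        (fun z hz hz1 ε hε => lap_upp' hDET hTHIN hGTHIN hX hRep hcov hr A hA hz hz1 hε)
    rcases Nat.even_or_odd (m + 1) with he | he
    · have h0' : OneU' l Ix ps nT c (-1) (m + 1) := by
        intro r hr A hA ε hε
        filter_upwards [(hst r hr A hA).2 he ε hε] with T hT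
        linarith
      have h1 : OneC' l Ix ps nT (-1) (m + 1) := by
        rcases Nat.lt_or_ge m 2 with hm2 | hm2
        · obtain rfl : m = 1 := by omega
          exact hCELR hDET hSPL hSYM l Ix ps nT hX c hc hRep h0'
        · exact hCELO hDET hSPL hSYM hHOL l Ix ps nT hX c hc (m + 1) (by omega) hMom
            (hlow m h0 (by omega)) h0'
      have h2 := hDIF hDET l Ix ps nT hX m (-1) (Or.inr rfl) h1
      exact hier RH hl (Or.inr rfl) ((OneD_iff l (-1) m).1 h2) m le_rfl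
    · have h0 : OneU' l Ix ps nT c 1 (m + 1) := by
        intro r hr A hA ε hε
        filter_upwards [(hst r hr A hA).1 he ε hε] with T hT
        linarith
      have h1 := hCELE hDET hSPL hSYM l Ix ps nT hX c hc (m + 1) (by omega) h0
      have h2 := hDIF hDET l Ix ps nT hX m 1 (Or.inl rfl) h1
      exact hier RH hl (Or.inl rfl) ((OneD_iff l 1 m).1 h2) m le_rfl

end Pool.Agent.N805.VP
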