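import Pool.Agent.N805.VP.Fin2

/-! # Truncated covering bounds: the thinning -/

set_option autoImplicit false

open MeasureTheory Set Filter Topology

namespace Pool.Agent.N805.VP

open Pool.Agent.N591.VP (wt wt_sum wt_nonneg swap_sum card_noninj term_le err_sum)

/-- the Fredholm series up to the term of order `K` -/
noncomputable def PK (K : ℕ) (z : ℝ) (W : Set ℝ) : ℝ :=
  ∑ k ∈ Finset.range (K + 1), (-z) ^ k / (k.factorial : ℝ) * G (fun _ : Fin k => W)

lemma PK_tsum (K : ℕ) (z : ℝ) (W : Set ℝ) : PK K z W =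
    ∑' k : ℕ, (-z) ^ k / (k.factorial : ℝ) * (if k ≤ K then G (fun _ : Fin k => W) else 0) := by
  rw [tsum_eq_sum (s := Finset.range (K + 1))]
  · unfold PK
    refine Finset.sum_congr rfl fun k hk => ?_
    rw [if_pos (by have := Finset.mem_range.1 hk; omega)]
  · intro k hk
    rw [Finset.mem_range, not_lt] at hk
    rw [if_neg (by omega), mul_zero]

/-- thinning of the truncated series -/
lemma gthinK (hD : S_DET) {h : ℝ} (hh : 0 < h) (A : Finset ℤ) {z : ℝ} (h0 : 0 ≤ z) (h1 : z ≤ 1)
    (K : ℕ) : 1 - PK K z (U h A) - h * (h * A.card) * Real.exp (h * A.card) ≤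
      ∑ S ∈ A.powerset, wt A z S * (1 - PK K 1 (U h S)) := by
  have e1 : ∑ S ∈ A.powerset, wt A z S * (1 - PK K 1 (U h S)) =
      1 - ∑ k ∈ Finset.range (K + 1), (-(1 : ℝ)) ^ k / (k.factorial : ℝ) *
        ∑ S ∈ A.powerset, wt A z S * G (fun _ : Fin k => U h S) := by
    simp_rw [mul_sub, mul_one]
    rw [Finset.sum_sub_distrib, wt_sum]
    congr 1
    unfold PK
    simp_rw [Finset.mul_sum]
    rw [Finset.sum_comm]
    refine Finset.sum_congr rfl fun k _ => Finset.sum_congr rfl fun S _ => ?_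
    ring
  rw [e1]
  have e2 : ∑ k ∈ Finset.range (K + 1), ((-(1 : ℝ)) ^ k / (k.factorial : ℝ) *
      ∑ S ∈ A.powerset, wt A z S * G (fun _ : Fin k => U h S) -
      (-z) ^ k / (k.factorial : ℝ) * G (fun _ : Fin k => U h A)) ≤
      h * (h * A.card) * Real.exp (h * A.card) := by
    have e3 : ∀ k ∈ Finset.range (K + 1), ((-(1 : ℝ)) ^ k / (k.factorial : ℝ) *
        ∑ S ∈ A.powerset, wt A z S * G (fun _ : Fin k => U h S) -
        (-z) ^ k / (k.factorial : ℝ) * G (fun _ : Fin k => U h A)) ≤
        ((k : ℝ) * (k - 1) * (A.card : ℝ) ^ (k - 1) * h ^ k) / (k.factorial : ℝ) := by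
      intro k _
      have hk : (0 : ℝ) < (k.factorial : ℝ) := by positivity
      have e4 : ((-(1 : ℝ)) ^ k / (k.factorial : ℝ) *
          ∑ S ∈ A.powerset, wt A z S * G (fun _ : Fin k => U h S) -
          (-z) ^ k / (k.factorial : ℝ) * G (fun _ : Fin k => U h A)) =
          (-(1 : ℝ)) ^ k * ((∑ S ∈ A.powerset, wt A z S * G (fun _ : Fin k => U h S) -
            z ^ k * G (fun _ : Fin k => U h A)) / (k.factorial : ℝ)) := by
        rw [neg_pow z k]
        ring
      rw [e4]
      refine (le_abs_self _).trans ?_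
      rw [abs_mul, abs_pow, abs_neg, abs_one, one_pow, one_mul, abs_div, abs_of_pos hk]
      exact div_le_div_of_nonneg_right (term_le hD hh A h0 h1 k) hk.le
    refine (Finset.sum_le_sum e3).trans ?_
    refine sum_le_hasSum _ (fun k _ => ?_) (err_sum h (A.card : ℝ))
    rcases Nat.eq_zero_or_pos k with hk | hk
    · rw [hk]; simp
    · have : (0 : ℝ) ≤ (k : ℝ) - 1 := by
        have : (1 : ℝ) ≤ k := by exact_mod_cast hk
        linarith
      positivity
  rw [Finset.sum_sub_distrib] at e2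
  have e5 : PK K z (U h A) = ∑ k ∈ Finset.range (K + 1),
      (-z) ^ k / (k.factorial : ℝ) * G (fun _ : Fin k => U h A) := rfl
  rw [e5]
  linarith

open scoped Classical in
/-- powers of the size of a random subset -/
lemma pow_thin (A : Finset ℤ) {z : ℝ} (h0 : 0 ≤ z) (h1 : z ≤ 1) (q : ℕ) :
    ∑ S ∈ A.powerset, wt A z S * (S.card : ℝ) ^ q ≤
      (z * A.card) ^ q + q * (q - 1) * (A.card : ℝ) ^ (q - 1) := by
  have e1 : ∀ S : Finset ℤ, (S.card : ℝ) ^ q =
      ∑ f ∈ Fintype.piFinset (fun _ : Fin q => S), (fun _ : Fin q → ℤ => (1 : ℝ)) f := by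
    intro S
    rw [Finset.sum_const, nsmul_eq_mul, mul_one, Fintype.card_piFinset, Finset.prod_const,
      Finset.card_univ, Fintype.card_fin]
    push_cast
    rfl
  simp_rw [e1 _]
  rw [swap_sum A z (fun _ : Fin q → ℤ => (1 : ℝ))]
  simp only [mul_one]
  rw [← Finset.sum_filter_add_sum_filter_not (Fintype.piFinset fun _ : Fin q => A)
    Function.Injective]
  have e2 : ∑ f ∈ (Fintype.piFinset fun _ : Fin q => A).filter Function.Injective,
      z ^ (Finset.univ.image f).card ≤ (z * A.card) ^ q := by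
    have e3 : ∀ f ∈ (Fintype.piFinset fun _ : Fin q => A).filter Function.Injective,
        z ^ (Finset.univ.image f).card = z ^ q := by
      intro f hf
      rw [Finset.card_image_of_injective _ (Finset.mem_filter.1 hf).2, Finset.card_univ,
        Fintype.card_fin]
    rw [Finset.sum_congr rfl e3, Finset.sum_const, nsmul_eq_mul, mul_pow, mul_comm]
    refine mul_le_mul_of_nonneg_left ?_ (by positivity)
    have e4 := Finset.card_filter_le (Fintype.piFinset fun _ : Fin q => A) Function.Injective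
    rw [Fintype.card_piFinset, Finset.prod_const, Finset.card_univ, Fintype.card_fin] at e4
    exact_mod_cast e4
  have e5 : ∑ f ∈ (Fintype.piFinset fun _ : Fin q => A).filter (fun f => ¬ Function.Injective f),
      z ^ (Finset.univ.image f).card ≤ q * (q - 1) * (A.card : ℝ) ^ (q - 1) := by
    refine le_trans (Finset.sum_le_sum fun f _ => pow_le_one₀ h0 h1) ?_
    rw [Finset.sum_const, nsmul_eq_mul, mul_one]
    refine le_trans (le_of_eq ?_) (card_noninj A q)
    congr
  linarith

/-- powers of the length of a random union of cells -/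
lemma len_thin {h : ℝ} (hh : 0 < h) (A : Finset ℤ) {z : ℝ} (h0 : 0 ≤ z) (h1 : z ≤ 1) (q : ℕ) :
    ∑ S ∈ A.powerset, wt A z S * (h * S.card) ^ (q + 1) ≤
      (z * (h * A.card)) ^ (q + 1) + (q + 1) * q * h * (h * A.card) ^ q := by
  have e1 := pow_thin A h0 h1 (q + 1)
  have e2 : ∑ S ∈ A.powerset, wt A z S * (h * S.card) ^ (q + 1) =
      h ^ (q + 1) * ∑ S ∈ A.powerset, wt A z S * (S.card : ℝ) ^ (q + 1) := by
    rw [Finset.mul_sum]
    refine Finset.sum_congr rfl fun S _ => ?_
    rw [mul_pow]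
    ring
  rw [e2]
  refine (mul_le_mul_of_nonneg_left e1 (by positivity)).trans (le_of_eq ?_)
  rw [Nat.add_sub_cancel]
  push_cast
  ring

end Pool.Agent.N805.VP
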