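import Pool.Agent.N805.VP.KO

/-! # Truncated covering bounds: the induction -/

set_option autoImplicit false

open MeasureTheory Set Filter Topology

namespace Pool.Agent.N805.VP

open Pool.Agent.Y749.Rig hiding wt
open SG (ord NZ zmult ZS)
open W200.HW (Ix mem_Ix card_Ix)
open Pool.Agent.N805.OS (ps nu MB EqL OneS rt ii sn hier At mem_At nT_top NZ_asymp nu_nonneg base)
open Pool.Agent.N591.VP (wt wt_sum wt_nonneg)

/-- lower bound of the covering probabilities by the truncated series, with an error of higher order -/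
def CovK (l : Filter ℝ) (J : ℝ → Finset ℕ) (x : ℝ → ℕ → ℝ) (X : ℝ → ℝ) (K : ℕ) : Prop :=
  ∀ b : ℕ, ∃ C : ℝ, 0 ≤ C ∧ ∀ r : ℕ, 1 ≤ r → ∀ A : Finset ℤ, (∀ a ∈ A, |a| ≤ b * r) →
    ∀ ε : ℝ, 0 < ε → ∀ᶠ T in l, 1 - PK K 1 (U (1 / r) A) - C * ((A.card : ℝ) / r) ^ (K + 1) - ε ≤
      cov (J T) (x T) (U (1 / r) A) / X T

variable {l : Filter ℝ} {J : ℝ → Finset ℕ} {x : ℝ → ℕ → ℝ} {X : ℝ → ℝ} {c : ℝ}

/-- refining the grid: parameters -/
lemma ref_par' {r : ℕ} (hr : 1 ≤ r) (A : Finset ℤ) {b : ℕ} (hb : ∀ a ∈ A, |a| ≤ b * r) {ε : ℝ}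
    (hε : 0 < ε) (M0 : ℕ) : ∃ (r' : ℕ) (A' : Finset ℤ), 1 ≤ r' ∧ M0 ≤ r' ∧
    (A'.card : ℝ) / r' ≤ A.card / r ∧ (∀ a ∈ A', |a| ≤ (b + 1 : ℕ) * r') ∧
    U (1 / r) A = U (1 / (r' : ℝ)) A' ∧
    1 / (r' : ℝ) * (1 / (r' : ℝ) * A'.card) * Real.exp (1 / (r' : ℝ) * A'.card) ≤ ε := by
  have hr' : (0 : ℝ) < r := by exact_mod_cast hr
  obtain ⟨v, hv⟩ : ∃ v : ℝ, v = A.card / r := ⟨_, rfl⟩
  have hv0 : 0 ≤ v := by rw [hv]; positivity
  obtain ⟨M, hM⟩ := exists_nat_gt (max (max 1 (M0 : ℝ)) (v * Real.exp v / ε))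
  have hM1 : 1 ≤ M := by
    have := ((le_max_left _ _).trans (le_max_left _ _)).trans hM.le
    exact_mod_cast this
  have hMM : M0 ≤ M := by
    have := ((le_max_right _ _).trans (le_max_left _ _)).trans hM.le
    exact_mod_cast this
  have hM0 : (0 : ℝ) < M := by exact_mod_cast hM1
  have hM2 : v * Real.exp v / ε ≤ M := (le_max_right _ _).trans hM.le
  obtain ⟨A', hA'⟩ : ∃ A' : Finset ℤ, A' = refine' M A := ⟨_, rfl⟩
  have hU : U (1 / r) A = U (1 / ((r * M : ℕ) : ℝ)) A' := by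
    rw [hA', U_refine (show (0 : ℝ) < 1 / r by positivity) hM1]
    congr 1
    push_cast
    field_simp
  have hrM : 1 ≤ r * M := Nat.one_le_iff_ne_zero.2 (by positivity)
  obtain ⟨h, hh⟩ : ∃ h : ℝ, h = 1 / ((r * M : ℕ) : ℝ) := ⟨_, rfl⟩
  have hh0 : 0 < h := by rw [hh]; push_cast; positivity
  have hcard : h * A'.card ≤ v := by
    have h1 : (A'.card : ℝ) ≤ A.card * M := by
      have := refine_card M A
      rw [← hA'] at this
      exact_mod_cast this
    calc h * A'.card ≤ h * (A.card * M) := mul_le_mul_of_nonneg_left h1 hh0.le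
      _ = v := by rw [hh, hv]; push_cast; field_simp
  have herr : h * (h * A'.card) * Real.exp (h * A'.card) ≤ ε := by
    have h1 : h * (h * A'.card) * Real.exp (h * A'.card) ≤ h * v * Real.exp v := by
      have a1 : Real.exp (h * A'.card) ≤ Real.exp v := Real.exp_le_exp.2 hcard
      have a2 : h * (h * A'.card) ≤ h * v := mul_le_mul_of_nonneg_left hcard hh0.le
      exact mul_le_mul a2 a1 (Real.exp_pos _).le (by positivity)
    refine h1.trans ?_
    have h2 : h ≤ 1 / M := by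
      rw [hh]
      apply one_div_le_one_div_of_le hM0
      push_cast
      have : (1 : ℝ) ≤ r := by exact_mod_cast hr
      nlinarith
    rw [div_le_iff₀ (by positivity)] at hM2
    calc h * v * Real.exp v = h * (v * Real.exp v) := by ring
      _ ≤ 1 / M * (M * ε) := mul_le_mul h2 hM2 (by positivity) (by positivity)
      _ = ε := by field_simp
  have hA2 : (A'.card : ℝ) / ((r * M : ℕ) : ℝ) ≤ A.card / r := by
    rw [← hv]
    refine le_trans (le_of_eq ?_) hcard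
    rw [hh]
    ring
  refine ⟨r * M, A', hrM, ?_, hA2, fun a ha => ?_, hU, by rw [← hh]; exact herr⟩
  · calc M0 ≤ M := hMM
      _ ≤ r * M := Nat.le_mul_of_pos_left M (by omega)
  · rw [hA'] at ha
    unfold refine' at ha
    rw [Finset.mem_biUnion] at ha
    obtain ⟨a0, ha0, ha1⟩ := ha
    rw [Finset.mem_image] at ha1
    obtain ⟨i, hi, rfl⟩ := ha1
    rw [Finset.mem_range] at hi
    have h1 := hb a0 ha0
    have h2 : |a0 * (M : ℤ) + (i : ℤ)| ≤ |a0| * M + i := by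
      refine (abs_add_le _ _).trans ?_
      rw [abs_mul, Nat.abs_cast, Nat.abs_cast]
    have h3 : |a0| * (M : ℤ) ≤ b * r * M := mul_le_mul_of_nonneg_right h1 (by positivity)
    have h4 : (i : ℤ) ≤ M := by exact_mod_cast hi.le
    have h5 : (M : ℤ) ≤ r * M := by
      have : (1 : ℤ) ≤ r := by exact_mod_cast hr
      nlinarith [(Nat.cast_nonneg M : (0 : ℤ) ≤ M)]
    push_cast
    linarith

/-- lower bound of the Laplace functional -/
lemma lap_lowK (hDET : S_DET) (hTHIN : S_THIN) (hX : ∀ᶠ T in l, 0 < X T) {K : ℕ}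
    (hcov : CovK l J x X K) {r : ℕ} (hr : 1 ≤ r) (A : Finset ℤ) : ∃ C₀ : ℝ, 0 ≤ C₀ ∧
    ∀ z : ℝ, 0 < z → z ≤ 1 → ∀ ε : ℝ, 0 < ε → ∀ᶠ T in l,
      1 - PK K z (U (1 / r) A) - C₀ * z ^ (K + 1) - ε ≤
      (∫ t, (1 - (1 - z) ^ cnt (J T) (x T) (U (1 / r) A) t)) / X T := by
  obtain ⟨b, hb⟩ : ∃ b : ℕ, ∀ a ∈ A, |a| ≤ b * r := by
    refine ⟨∑ a ∈ A, a.natAbs, fun a ha => ?_⟩
    have h1 : a.natAbs ≤ ∑ a ∈ A, a.natAbs :=
      Finset.single_le_sum (f := fun a : ℤ => a.natAbs) (fun _ _ => Nat.zero_le _) ha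
    have h2 : (∑ a ∈ A, a.natAbs) ≤ (∑ a ∈ A, a.natAbs) * r := Nat.le_mul_of_pos_right _ hr
    have h3 : |a| = (a.natAbs : ℤ) := Int.abs_eq_natAbs a
    rw [h3]
    exact_mod_cast h1.trans h2
  obtain ⟨C, hC0, hC⟩ := hcov (b + 1)
  obtain ⟨v, hv⟩ : ∃ v : ℝ, v = A.card / r := ⟨_, rfl⟩
  have hv0 : 0 ≤ v := by rw [hv]; positivity
  refine ⟨C * v ^ (K + 1), by positivity, fun z hz hz1 ε hε => ?_⟩
  obtain ⟨M0, hM0⟩ := exists_nat_gt (C * ((K + 1) * K * v ^ K) / (ε / 3))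
  obtain ⟨r', A', h1, h1', hA', h2, h3, herr⟩ := ref_par' hr A hb (show 0 < ε / 3 by positivity) M0
  have hr' : (0 : ℝ) < r' := by exact_mod_cast h1
  rw [← hv] at hA'
  rw [h3]
  obtain ⟨h, hh⟩ : ∃ h : ℝ, h = 1 / (r' : ℝ) := ⟨_, rfl⟩
  have hh0 : 0 < h := by rw [hh]; positivity
  have hhA : h * A'.card ≤ v := by
    refine le_trans (le_of_eq ?_) hA'
    rw [hh]
    ring
  have hsmall : C * ((K + 1) * K * h * v ^ K) ≤ ε / 3 := by
    have h5 : C * ((K + 1) * K * v ^ K) / (ε / 3) ≤ r' := by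
      refine hM0.le.trans ?_
      exact_mod_cast h1'
    rw [div_le_iff₀ (by positivity)] at h5
    calc C * ((K + 1) * K * h * v ^ K) = h * (C * ((K + 1) * K * v ^ K)) := by ring
      _ ≤ h * (r' * (ε / 3)) := mul_le_mul_of_nonneg_left h5 hh0.le
      _ = ε / 3 := by rw [hh]; field_simp
  rw [← hh] at herr ⊢
  have hg := gthinK hDET hh0 A' hz.le hz1 K
  have hlen := len_thin hh0 A' hz.le hz1 K
  have hev : ∀ᶠ T in l, ∀ S ∈ A'.powerset, 1 - PK K 1 (U h S) - C * (h * S.card) ^ (K + 1) - ε / 3 ≤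
      cov (J T) (x T) (U h S) / X T := by
    rw [eventually_all_finset]
    intro S hS
    have h6 := hC r' h1 S (fun a ha => h2 a (Finset.mem_powerset.1 hS ha)) (ε / 3) (by positivity)
    rw [← hh] at h6
    have e : (S.card : ℝ) / r' = h * S.card := by rw [hh]; ring
    rw [e] at h6
    exact h6
  filter_upwards [hev, hX] with T h1 hXT
  have h2 := hTHIN (J T) (x T) h hh0 A' z hz.le hz1
  have h3 : ∑ S ∈ A'.powerset, wt A' z S *
      (1 - PK K 1 (U h S) - C * (h * S.card) ^ (K + 1) - ε / 3) ≤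
      (∫ t, (1 - (1 - z) ^ cnt (J T) (x T) (U h A') t)) / X T := by
    have h4 : ∑ S ∈ A'.powerset, wt A' z S *
        (1 - PK K 1 (U h S) - C * (h * S.card) ^ (K + 1) - ε / 3) ≤
        ∑ S ∈ A'.powerset, wt A' z S * (cov (J T) (x T) (U h S) / X T) :=
      Finset.sum_le_sum fun S hS => mul_le_mul_of_nonneg_left (h1 S hS) (wt_nonneg hz.le hz1 S)
    refine h4.trans ?_
    rw [le_div_iff₀ hXT, Finset.sum_mul]
    refine le_trans (le_of_eq ?_) h2
    refine Finset.sum_congr rfl fun S _ => ?_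
    unfold wt
    field_simp
  refine le_trans ?_ h3
  have e : ∑ S ∈ A'.powerset, wt A' z S *
      (1 - PK K 1 (U h S) - C * (h * S.card) ^ (K + 1) - ε / 3) =
      ∑ S ∈ A'.powerset, wt A' z S * (1 - PK K 1 (U h S)) -
      C * ∑ S ∈ A'.powerset, wt A' z S * (h * S.card) ^ (K + 1) - ε / 3 := by
    have e1 : ∀ S ∈ A'.powerset, wt A' z S *
        (1 - PK K 1 (U h S) - C * (h * S.card) ^ (K + 1) - ε / 3) =
        wt A' z S * (1 - PK K 1 (U h S)) - C * (wt A' z S * (h * S.card) ^ (K + 1)) -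
        wt A' z S * (ε / 3) := fun S _ => by ring
    rw [Finset.sum_congr rfl e1, Finset.sum_sub_distrib, Finset.sum_sub_distrib, ← Finset.sum_mul,
      wt_sum, one_mul, ← Finset.mul_sum]
  rw [e]
  have h7 : C * ∑ S ∈ A'.powerset, wt A' z S * (h * S.card) ^ (K + 1) ≤
      C * v ^ (K + 1) * z ^ (K + 1) + ε / 3 := by
    refine (mul_le_mul_of_nonneg_left hlen hC0).trans ?_
    have a1 : (z * (h * A'.card)) ^ (K + 1) ≤ (z * v) ^ (K + 1) :=
      pow_le_pow_left₀ (by positivity) (mul_le_mul_of_nonneg_left hhA hz.le) _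
    have a2 : (h * (A'.card : ℝ)) ^ K ≤ v ^ K := pow_le_pow_left₀ (by positivity) hhA _
    have a3 : ((K : ℝ) + 1) * K * h * (h * A'.card) ^ K ≤ (K + 1) * K * h * v ^ K :=
      mul_le_mul_of_nonneg_left a2 (by positivity)
    calc C * ((z * (h * A'.card)) ^ (K + 1) + (K + 1) * K * h * (h * A'.card) ^ K) ≤
        C * ((z * v) ^ (K + 1) + (K + 1) * K * h * v ^ K) :=
          mul_le_mul_of_nonneg_left (add_le_add a1 a3) hC0
      _ = C * v ^ (K + 1) * z ^ (K + 1) + C * ((K + 1) * K * h * v ^ K) := by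
          rw [mul_pow]
          ring
      _ ≤ _ := by linarith
  linarith

/-- one step -/
lemma stepK (hDET : S_DET) (hTHIN : S_THIN) (hBON : S_BON)
    (hSPL : S_SPL) (hX : ∀ᶠ T in l, 0 < X T) (hMom : Mom l J x X) {K : ℕ}
    (hcov : CovK l J x X K) {m : ℕ} (hmK : m ≤ K)
    (hm : 1 ≤ m) (hlow : ∀ k : ℕ, 1 ≤ k → k < m → EqP l J x X k) {r : ℕ} (hr : 1 ≤ r)
    (A : Finset ℤ) :
    (Even m → ∀ ε : ℝ, 0 < ε → ∀ᶠ T in l, mom (J T) (x T) (fun _ : Fin m => U (1 / r) A) / X T ≤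
        G (fun _ : Fin m => U (1 / (r : ℝ)) A) + ε) ∧
      (Odd m → ∀ ε : ℝ, 0 < ε → ∀ᶠ T in l, G (fun _ : Fin m => U (1 / (r : ℝ)) A) - ε ≤
        mom (J T) (x T) (fun _ : Fin m => U (1 / r) A) / X T) := by
  have hr' : (0 : ℝ) < 1 / r := by
    have : (0 : ℝ) < r := by exact_mod_cast hr
    positivity
  have heq : ∀ k, 1 ≤ k → k < m → Tendsto (fun T => mom (J T) (x T)
      (fun _ : Fin k => U (1 / r) A) / X T) l (𝓝 (G fun _ : Fin k => U (1 / (r : ℝ)) A)) :=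
    fun k hk1 hkm => eqU hSPL (hlow k hk1 hkm) hr A
  obtain ⟨C₀, hC₀, hlap⟩ := lap_lowK hDET hTHIN hX hcov hr A
  obtain ⟨W, hW⟩ : ∃ W : Set ℝ, W = U (1 / (r : ℝ)) A := ⟨_, rfl⟩
  have hWm : MeasurableSet W := by rw [hW]; exact U_meas _ _
  have hWb : ∃ b : ℝ, W ⊆ Icc (-b) b := by rw [hW]; exact U_bdd _ hr' _
  rw [← hW] at heq hlap ⊢
  obtain ⟨a, ha⟩ : ∃ a : ℕ → ℝ → ℝ, a = fun k T =>
      max 0 (mom (J T) (x T) (fun _ : Fin k => W) / X T) := ⟨_, rfl⟩
  have haX : ∀ᶠ T in l, ∀ k, a k T = mom (J T) (x T) (fun _ : Fin k => W) / X T := by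
    filter_upwards [hX] with T hT k
    rw [ha]
    exact max_eq_right (div_nonneg (mom_nonneg _) hT.le)
  have ha0 : ∀ k T, 0 ≤ a k T := fun k T => by rw [ha]; exact le_max_left _ _
  obtain ⟨g, hgdef⟩ : ∃ g : ℕ → ℝ, g = fun k => if k ≤ K then G (fun _ : Fin k => W) else 0 :=
    ⟨_, rfl⟩
  have hgk : ∀ k, k ≤ K → g k = G (fun _ : Fin k => W) := fun k hk => by
    rw [hgdef]; exact if_pos hk
  have hconv : ∀ k, 1 ≤ k → k < m → Tendsto (a k) l (𝓝 (g k)) := by
    intro k hk1 hkm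
    rw [hgk k (by omega)]
    refine (heq k hk1 hkm).congr' ?_
    filter_upwards [haX] with T hT
    rw [hT k]
  have hbd : ∃ C : ℝ, ∀ᶠ T in l, a (m + 1) T ≤ C := by
    obtain ⟨b, hb⟩ := hWb
    obtain ⟨C, hC0, hC⟩ := hMom b (m + 1) (by omega)
    refine ⟨C, ?_⟩
    filter_upwards [hC, hX, haX] with T h1 h2 h3
    rw [h3, div_le_iff₀ h2]
    refine le_trans ?_ h1
    unfold mom
    refine integral_mono (int_tup (by omega) (fun _ => hWm) ⟨b, fun _ => hb⟩)
      (int_cnt (J := J T) (x := x T) (W := Icc (-b) b) measurableSet_Icc ⟨b, subset_rfl⟩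
        (fun n => (n : ℝ) ^ (m + 1)) (by simp)) fun t => ?_
    have h5 := tup_le_pow (J := J T) (x := x T) (c := fun _ : Fin (m + 1) => W) (fun _ => hb) t
    have h6 : ((tup (J T) (x T) (fun _ : Fin (m + 1) => W) t).card : ℝ) ≤
        (cnt (J T) (x T) (Icc (-b) b) t : ℝ) ^ (m + 1) := by
      rw [← Nat.cast_pow]
      exact Nat.cast_le.2 h5
    exact h6
  have hv0 : 0 ≤ volume.real W := measureReal_nonneg
  have hg : ∀ k, 0 ≤ g k ∧ g k ≤ volume.real W ^ k := by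
    intro k
    rw [hgdef]
    simp only
    split_ifs with hk
    · exact ⟨G_nonneg hDET fun _ => hWm, G_const_le hDET hWm hWb⟩
    · exact ⟨le_rfl, by positivity⟩
  have h := OSL3 l a (fun z T => (∫ t, (1 - (1 - z) ^ cnt (J T) (x T) W t)) / X T)
    g (volume.real W) C₀ m hm hC₀ (by rw [hgk 0 (Nat.zero_le _)]; exact G_zero _) hg ha0 hconv hbd
    (fun z hz hz1 ε hε => by
      have e1 : (∑' k : ℕ, (-z) ^ k / (k.factorial : ℝ) * g k) = PK K z W := by
        rw [PK_tsum, hgdef]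
      rw [e1]
      filter_upwards [hlap z hz hz1 ε hε] with T hT
      have e2 : C₀ * z ^ (K + 1) ≤ C₀ * z ^ (m + 1) :=
        mul_le_mul_of_nonneg_left (pow_le_pow_of_le_one hz.le hz1 (by omega)) hC₀
      linarith)
    (fun z hz hz1 K hK => by
      filter_upwards [hX, haX] with T hT h2
      have h1 := ((hBON (J T) (x T) W hWm hWb).1 z hz.le hz1 K).1 hK
      rw [div_le_iff₀ hT]
      refine h1.trans (le_of_eq ?_)
      rw [neg_mul, Finset.sum_mul]
      congr 1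
      refine Finset.sum_congr rfl fun k _ => ?_
      rw [h2]
      field_simp)
  rw [hgk m hmK] at h
  constructor
  · intro he ε hε
    filter_upwards [h.1 he ε hε, haX] with T h1 h2
    rw [h2] at h1
    exact h1
  · intro he ε hε
    filter_upwards [h.2 he ε hε, haX] with T h1 h2
    rw [h2] at h1
    exact h1

/-- **truncated covering bounds determine the correlations of at most `K` zeros** -/
theorem cov_to_corK (RH : RiemannHypothesis) (hl : l ≤ atTop) (hDET : S_DET)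
    (hTHIN : S_THIN) (hBON : S_BON) (hSPL : S_SPL) (hSYM : S_SYM) (hHOL : S_HOL)
    (hCELE : S_CELE2) (hCELO : S_CELO2) (hPRD : S_PRD) (hDIF : S_DIF2) {K : ℕ}
    (hcov : CovK l Ix ps nT K) : ∀ m, m + 1 ≤ K → EqL l m := by
  have hX : ∀ᶠ T in l, 0 < nT T := hl (nT_top.eventually_gt_atTop 0)
  have hMom := mom_bdd RH hl
  intro m
  induction m using Nat.strong_induction_on with
  | _ m ih =>
    intro hmK
    rcases Nat.eq_zero_or_pos m with h0 | h0
    · rw [h0]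
      exact base hl
    have hlow : ∀ k : ℕ, 1 ≤ k → k < m + 1 → EqP l Ix ps nT k := by
      intro k hk1 hk2
      obtain ⟨k, rfl⟩ : ∃ k', k = k' + 1 := ⟨k - 1, by omega⟩
      exact hPRD hDET l Ix ps nT hX k ((EqD_iff l k).2 (ih k (by omega) (by omega)))
    have hst := fun (r : ℕ) (hr : 1 ≤ r) (A : Finset ℤ) =>
      stepK hDET hTHIN hBON hSPL hX hMom hcov hmK (by omega : 1 ≤ m + 1) hlow hr A
    rcases Nat.even_or_odd (m + 1) with he | he
    · have h0 : OneU' l Ix ps nT 1 1 (m + 1) := by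
        intro r hr A hA ε hε
        filter_upwards [(hst r hr A).1 he ε hε] with T hT
        linarith
      have h1 := hCELE hDET hSPL hSYM l Ix ps nT hX 1 one_pos (m + 1) (by omega) h0
      have h2 := hDIF hDET l Ix ps nT hX m 1 (Or.inl rfl) h1
      exact hier RH hl (Or.inl rfl) ((OneD_iff l 1 m).1 h2) m le_rfl
    · have hm3 : 3 ≤ m + 1 := by
        rcases he with ⟨j, hj⟩
        omega
      have h0' : OneU' l Ix ps nT 1 (-1) (m + 1) := by
        intro r hr A hA ε hε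
        filter_upwards [(hst r hr A).2 he ε hε] with T hT
        linarith
      have h1 := hCELO hDET hSPL hSYM hHOL l Ix ps nT hX 1 one_pos (m + 1) hm3 hMom
        (hlow m h0 (by omega)) h0'
      have h2 := hDIF hDET l Ix ps nT hX m (-1) (Or.inr rfl) h1
      exact hier RH hl (Or.inr rfl) ((OneD_iff l (-1) m).1 h2) m le_rfl

end Pool.Agent.N805.VP
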