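import Pool.Agent.N805.VP.KB
import Pool.Agent.N152.VP.CELO
import Pool.Agent.N342.VP.CELE

/-! # Covering bounds for few short cells -/

set_option autoImplicit false

open MeasureTheory Set Filter Topology

namespace Pool.Agent.N805.VP

/-- lower bounds for the covering probabilities of at most `K` cells -/
def CovC (l : Filter ℝ) (J : ℝ → Finset ℕ) (x : ℝ → ℕ → ℝ) (X : ℝ → ℝ) (K : ℕ) : Prop :=
  ∀ b : ℕ, ∃ C : ℝ, 0 ≤ C ∧ ∀ r : ℕ, 1 ≤ r → ∀ A : Finset ℤ, A.card ≤ K → (∀ a ∈ A, |a| ≤ b * r) →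
    ∀ ε : ℝ, 0 < ε → ∀ᶠ T in l, 1 - PK K 1 (U (1 / r) A) - C * (1 / (r : ℝ)) ^ (K + 1) - ε ≤
      cov (J T) (x T) (U (1 / r) A) / X T

/-- coincidences are rare -/
def CoinQ (l : Filter ℝ) (J : ℝ → Finset ℕ) (x : ℝ → ℕ → ℝ) (X : ℝ → ℝ) (m : ℕ) : Prop :=
  ∀ b : ℕ, ∃ C : ℝ, 0 ≤ C ∧ ∀ r : ℕ, 1 ≤ r → ∀ g : Fin m → ℤ, (∀ i, |g i| ≤ b * r) →
    ¬ Function.Injective g → ∀ δ : ℝ, 0 < δ → ∀ᶠ T in l,
      mom (J T) (x T) (fun i => cell (1 / (r : ℝ)) (g i)) / X T ≤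
        C / (r : ℝ) ^ m / Real.sqrt r + δ

/-- one-sided bounds for unions of at most `m` cells -/
def OneE (l : Filter ℝ) (J : ℝ → Finset ℕ) (x : ℝ → ℕ → ℝ) (X : ℝ → ℝ) (σ : ℝ) (m : ℕ) : Prop :=
  ∀ (b : ℕ) (η : ℝ), 0 < η → ∃ r₀ : ℕ, 1 ≤ r₀ ∧ ∀ r : ℕ, r₀ ≤ r → ∀ A : Finset ℤ, A.card ≤ m →
    (∀ a ∈ A, |a| ≤ b * r) → ∀ ε : ℝ, 0 < ε → ∀ᶠ T in l,
      σ * (mom (J T) (x T) (fun _ : Fin m => U (1 / r) A) / X T -
        G (fun _ : Fin m => U (1 / (r : ℝ)) A)) ≤ η / (r : ℝ) ^ m + ε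

variable {l : Filter ℝ} {J : ℝ → Finset ℕ} {x : ℝ → ℕ → ℝ} {X : ℝ → ℝ}

lemma coinQ_of (hD : S_DET) (hH : S_HOL) (hX : ∀ᶠ T in l, 0 < X T) {n : ℕ} (hn : 2 ≤ n)
    (hM : Mom l J x X) (hE : EqP l J x X n) : CoinQ l J x X (n + 1) :=
  fun b => Pool.Agent.N152.VP.mom_coin hD hH l J x X hX n hn hM hE b

/-- coincidences among one more point than cells -/
lemma coin_up (hH : S_HOL) (hX : ∀ᶠ T in l, 0 < X T) {m : ℕ} (hm : 2 ≤ m)
    (hM : Mom l J x X) (hC : CoinQ l J x X m) (b : ℕ) : ∃ C : ℝ, 0 ≤ C ∧ ∀ r : ℕ, 1 ≤ r →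
    ∀ g : Fin (m + 1) → ℤ, (∀ i, |g i| ≤ b * r) → ¬ Function.Injective g → ∀ δ : ℝ, 0 < δ →
    ∀ᶠ T in l, mom (J T) (x T) (fun i => cell (1 / (r : ℝ)) (g i)) / X T ≤
      C / (r : ℝ) ^ m / Real.sqrt (Real.sqrt r) + δ := by
  obtain ⟨C₂, hC₂0, hC₂⟩ := hM (b + 1) ((m + 1) * ((4 * m + 1) + 1)) (Nat.mul_pos (by omega) (by omega))
  obtain ⟨C, hC0, hC⟩ := hC b
  refine ⟨C + C₂, by positivity, fun r hr g hg hinj δ hδ => ?_⟩
  have hr0 : (0 : ℝ) < r := by exact_mod_cast hr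
  obtain ⟨s, hs⟩ : ∃ s : ℝ, s = Real.sqrt (Real.sqrt r) := ⟨_, rfl⟩
  have hs0 : 0 < s := by rw [hs]; exact Real.sqrt_pos.2 (Real.sqrt_pos.2 hr0)
  have hs2 : s * s = Real.sqrt r := by rw [hs]; exact Real.mul_self_sqrt (Real.sqrt_nonneg _)
  have hs4 : s ^ 4 = r := by
    have : s ^ 4 = (s * s) * (s * s) := by ring
    rw [this, hs2, Real.mul_self_sqrt hr0.le]
  obtain ⟨i1, i2, h12, hne⟩ : ∃ i1 i2, g i1 = g i2 ∧ i1 ≠ i2 := by
    unfold Function.Injective at hinj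
    push Not at hinj
    exact hinj
  obtain ⟨i, hi1, hi2⟩ : ∃ i : Fin (m + 1), i ≠ i1 ∧ i ≠ i2 := by
    by_contra hcon
    push Not at hcon
    have h1 : (Finset.univ : Finset (Fin (m + 1))) ⊆ {i1, i2} := by
      intro i _
      by_cases h : i = i1
      · simp [h]
      · simp [hcon i h]
    have h2 := Finset.card_le_card h1
    rw [Finset.card_univ, Fintype.card_fin] at h2
    have h3 := Finset.card_le_two (a := i1) (b := i2)
    omega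
  obtain ⟨j1, hj1⟩ := Fin.exists_succAbove_eq hi1.symm
  obtain ⟨j2, hj2⟩ := Fin.exists_succAbove_eq hi2.symm
  have hjne : ¬ Function.Injective (fun j : Fin m => g (i.succAbove j)) := by
    intro h
    have h1 : j1 = j2 := h (by simp only [hj1, hj2]; exact h12)
    rw [h1] at hj1
    exact hne (hj1.symm.trans hj2)
  have hev := hC r hr (fun j : Fin m => g (i.succAbove j)) (fun j => hg _) hjne (δ / s)
    (by positivity)
  rw [← hs]
  filter_upwards [hX, hC₂, hev] with T hT hCT heT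
  have hhol := hH (J T) (x T) m (fun i => cell (1 / (r : ℝ)) (g i)) (Icc (-((b : ℝ) + 1)) (b + 1))
    (by omega) (fun i => ⟨cell_meas _ _, Pool.Agent.N152.VP.cell_sub hr (hg i)⟩)
    measurableSet_Icc ⟨_, subset_rfl⟩ i s hs0 (4 * m + 1)
  rw [div_le_iff₀ hT] at heT ⊢
  rw [← hs2] at heT
  have e2 : s⁻¹ ^ (4 * m + 1) = 1 / (r : ℝ) ^ m / s := by
    rw [inv_pow, pow_succ, pow_mul, hs4]
    field_simp
  calc mom (J T) (x T) (fun i => cell (1 / (r : ℝ)) (g i))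
      ≤ s * mom (J T) (x T) (fun j : Fin m => cell (1 / (r : ℝ)) (g (i.succAbove j))) +
        s⁻¹ ^ (4 * m + 1) *
          ∫ t, (cnt (J T) (x T) (Icc (-((b : ℝ) + 1)) (b + 1)) t : ℝ) ^
            ((m + 1) * (4 * m + 1 + 1)) := hhol
    _ ≤ s * ((C / (r : ℝ) ^ m / (s * s) + δ / s) * X T) + s⁻¹ ^ (4 * m + 1) * (C₂ * X T) := by
        refine add_le_add (mul_le_mul_of_nonneg_left heT hs0.le)
          (mul_le_mul_of_nonneg_left hCT (by positivity))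
    _ = ((C + C₂) / (r : ℝ) ^ m / s + δ) * X T := by
        rw [e2]
        field_simp
        ring

/-- second moment and covering -/
lemma mom2_le (hBON : S_BON) {J : Finset ℕ} {x : ℕ → ℝ} {W : Set ℝ} (hW : MeasurableSet W)
    (hb : ∃ b : ℝ, W ⊆ Icc (-b) b) {κ : ℝ} (hκ : 0 < κ) (p : ℕ) :
    mom J x (fun _ : Fin 2 => W) ≤ κ * (mom J x (fun _ : Fin 1 => W) - cov J x W) +
      κ⁻¹ ^ p * ∫ t, (cnt J x W t : ℝ) ^ (p + 2) := by
  have e1 : mom J x (fun _ : Fin 1 => W) = ∫ t, (cnt J x W t : ℝ) := by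
    unfold mom
    simp_rw [tup_const]
    simp
  have e2 : mom J x (fun _ : Fin 2 => W) = ∫ t, (cnt J x W t : ℝ) * ((cnt J x W t : ℝ) - 1) := by
    unfold mom
    simp_rw [tup_const]
    refine integral_congr_ae (ae_of_all _ fun t => ?_)
    obtain ⟨n, hn⟩ : ∃ n, n = cnt J x W t := ⟨_, rfl⟩
    simp only [← hn]
    rcases n with _ | n
    · simp
    · rw [Nat.succ_descFactorial_succ, Nat.descFactorial_one]
      push_cast
      ring
  have i1 := int_cnt (J := J) (x := x) hW hb (fun n => (n : ℝ)) (by simp)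
  have i2 := int_cnt (J := J) (x := x) hW hb (fun n => (n : ℝ) * ((n : ℝ) - 1)) (by simp)
  have i3 := int_cnt (J := J) (x := x) hW hb (fun n => 1 - (1 - 1 : ℝ) ^ n) (by simp)
  have i4 := int_cnt (J := J) (x := x) hW hb (fun n => (n : ℝ) ^ (p + 2)) (by simp)
  have i5 := int_cnt (J := J) (x := x) hW hb (fun n => κ * ((n : ℝ) - (1 - (1 - 1 : ℝ) ^ n))) (by simp)
  have i6 := int_cnt (J := J) (x := x) hW hb (fun n => κ⁻¹ ^ p * (n : ℝ) ^ (p + 2)) (by simp)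
  rw [e1, e2, (hBON J x W hW hb).2, ← integral_sub i1 i3, ← integral_const_mul,
    ← integral_const_mul, ← integral_add i5 i6]
  refine integral_mono i2 (i5.add i6) fun t => ?_
  obtain ⟨n, hn⟩ : ∃ n, n = cnt J x W t := ⟨_, rfl⟩
  simp only [Pi.add_apply, Pi.sub_apply, ← hn]
  rcases Nat.eq_zero_or_pos n with h0 | h0
  · rw [h0]
    simp
  have h1 : (1 : ℝ) ≤ n := by exact_mod_cast h0
  have e3 : (1 - 1 : ℝ) ^ n = 0 := by
    rw [sub_self]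
    exact zero_pow (by omega)
  rw [e3, sub_zero]
  have e4 : κ⁻¹ ^ p * (n : ℝ) ^ (p + 2) = (κ⁻¹ * n) ^ p * (n : ℝ) ^ 2 := by
    rw [mul_pow, pow_add]
    ring
  rw [e4]
  have hn0 : (0 : ℝ) ≤ n := by linarith
  rcases le_or_gt (n : ℝ) κ with h | h
  · have : 0 ≤ (κ⁻¹ * n) ^ p * (n : ℝ) ^ 2 := by positivity
    nlinarith
  · have h2 : 1 ≤ (κ⁻¹ * n) ^ p := by
      apply one_le_pow₀
      rw [inv_mul_eq_div, le_div_iff₀ hκ]
      linarith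
    have h3 : 0 ≤ κ * ((n : ℝ) - 1) := mul_nonneg hκ.le (by linarith)
    nlinarith [sq_nonneg (n : ℝ)]

lemma U_single (h : ℝ) (a : ℤ) : U h {a} = cell h a := by
  unfold U
  simp

end Pool.Agent.N805.VP
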