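import Pool.Agent.N805.VP.KD

/-! # Covering bounds for few short cells: the induction -/

set_option autoImplicit false

open MeasureTheory Set Filter Topology

namespace Pool.Agent.N805.VP

variable {l : Filter ℝ} {J : ℝ → Finset ℕ} {x : ℝ → ℕ → ℝ} {X : ℝ → ℝ}

lemma U_vol {h : ℝ} (hh : 0 ≤ h) (A : Finset ℤ) : volume.real (U h A) ≤ A.card * h := by
  unfold U
  refine (measureReal_biUnion_finset_le A _).trans ?_
  simp_rw [cell_vol h hh]
  rw [Finset.sum_const, nsmul_eq_mul]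

/-- truncation of the series -/
lemma PK_trunc (hD : S_DET) {m K : ℕ} (hmK : m ≤ K) (hm : 1 ≤ m) {r : ℕ} (hr : 1 ≤ r)
    {A : Finset ℤ} (hA : A.card ≤ m) :
    PK K 1 (U (1 / r) A) ≤ PK m 1 (U (1 / r) A) + K * (K : ℝ) ^ K * (1 / (r : ℝ)) ^ (m + 1) := by
  obtain ⟨h, hh⟩ : ∃ h : ℝ, h = 1 / (r : ℝ) := ⟨_, rfl⟩
  have hr0 : (0 : ℝ) < r := by exact_mod_cast hr
  have hr1 : (1 : ℝ) ≤ r := by exact_mod_cast hr
  have hh0 : 0 < h := by rw [hh]; positivity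
  have hh1 : h ≤ 1 := by rw [hh, div_le_one hr0]; exact hr1
  rw [← hh]
  have hK1 : (1 : ℝ) ≤ K := by exact_mod_cast hm.trans hmK
  unfold PK
  rw [← Finset.sum_range_add_sum_Ico _ (show m + 1 ≤ K + 1 by omega)]
  refine add_le_add_right ?_ _
  have h1 : ∀ k ∈ Finset.Ico (m + 1) (K + 1), (-(1 : ℝ)) ^ k / (k.factorial : ℝ) *
      G (fun _ : Fin k => U h A) ≤ (K : ℝ) ^ K * h ^ (m + 1) := by
    intro k hk
    rw [Finset.mem_Ico] at hk
    have h2 := G_nonneg hD (c := fun _ : Fin k => U h A) fun _ => U_meas h A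
    have h3 := G_const_le hD (k := k) (U_meas h A) (U_bdd h hh0 A)
    have h4 : volume.real (U h A) ≤ K * h := by
      refine (U_vol hh0.le A).trans (mul_le_mul_of_nonneg_right ?_ hh0.le)
      exact_mod_cast hA.trans hmK
    have h5 : volume.real (U h A) ^ k ≤ (K : ℝ) ^ K * h ^ (m + 1) := by
      calc volume.real (U h A) ^ k ≤ (K * h) ^ k := pow_le_pow_left₀ measureReal_nonneg h4 k
        _ = (K : ℝ) ^ k * h ^ k := mul_pow _ _ _
        _ ≤ (K : ℝ) ^ K * h ^ (m + 1) := by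
            refine mul_le_mul (pow_le_pow_right₀ hK1 (by omega))
              (pow_le_pow_of_le_one hh0.le hh1 hk.1) (by positivity) (by positivity)
    refine (le_abs_self _).trans ?_
    rw [abs_mul, abs_div, abs_pow, abs_neg, abs_one, one_pow, Nat.abs_cast, abs_of_nonneg h2]
    have h6 : 1 / (k.factorial : ℝ) ≤ 1 := by
      rw [div_le_one (by positivity)]
      exact_mod_cast Nat.factorial_pos k
    calc 1 / (k.factorial : ℝ) * G (fun _ : Fin k => U h A) ≤ 1 * G (fun _ : Fin k => U h A) :=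
          mul_le_mul_of_nonneg_right h6 h2
      _ ≤ _ := by linarith
  refine (Finset.sum_le_sum h1).trans ?_
  rw [Finset.sum_const, nsmul_eq_mul, Nat.card_Ico]
  have h7 : ((K + 1 - (m + 1) : ℕ) : ℝ) ≤ K := by
    exact_mod_cast (by omega : K + 1 - (m + 1) ≤ K)
  have h8 : 0 ≤ (K : ℝ) ^ K * h ^ (m + 1) := by positivity
  nlinarith

/-- two points in one short cell are rare -/
lemma coinQ_two (hD : S_DET) (hBON : S_BON) (hSPL : S_SPL) (hX : ∀ᶠ T in l, 0 < X T)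
    (hM : Mom l J x X) {K : ℕ} (hK : 2 ≤ K) (hcov : CovC l J x X K) (h1 : EqP l J x X 1) :
    CoinQ l J x X 2 := by
  intro b
  obtain ⟨C₀, hC₀, hC₀'⟩ := hcov b
  obtain ⟨C₂, hC₂, hC₂'⟩ := hM (b + 1) (5 + 2) (by norm_num)
  obtain ⟨C₁, hC₁⟩ : ∃ C₁ : ℝ, C₁ = K * (K : ℝ) ^ K + 4 + C₀ := ⟨_, rfl⟩
  have hC₁0 : 0 ≤ C₁ := by rw [hC₁]; positivity
  refine ⟨C₁ + C₂, by positivity, fun r hr g hg hinj δ hδ => ?_⟩
  have hr0 : (0 : ℝ) < r := by exact_mod_cast hr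
  have hr1 : (1 : ℝ) ≤ r := by exact_mod_cast hr
  obtain ⟨s, hs⟩ : ∃ s : ℝ, s = Real.sqrt r := ⟨_, rfl⟩
  have hs0 : 0 < s := by rw [hs]; exact Real.sqrt_pos.2 hr0
  have hs2 : s * s = r := by rw [hs]; exact Real.mul_self_sqrt hr0.le
  rw [← hs]
  obtain ⟨a, ha⟩ : ∃ a : ℤ, a = g 0 := ⟨_, rfl⟩
  have hg0 : ∀ i, g i = a := by
    intro i
    fin_cases i
    · exact ha.symm
    · have : g 1 = g 0 := by
        by_contra hne
        apply hinj
        intro i j hij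
        fin_cases i <;> fin_cases j <;> simp_all
      rw [ha]
      exact this
  obtain ⟨W, hW⟩ : ∃ W : Set ℝ, W = U (1 / (r : ℝ)) {a} := ⟨_, rfl⟩
  have hWc : W = cell (1 / (r : ℝ)) a := by rw [hW, U_single]
  have hWm : MeasurableSet W := by rw [hW]; exact U_meas _ _
  have hh : (0 : ℝ) < 1 / r := by positivity
  have hWb : ∃ b : ℝ, W ⊆ Icc (-b) b := by rw [hW]; exact U_bdd _ hh _
  have e1 : (fun i => cell (1 / (r : ℝ)) (g i)) = fun _ : Fin 2 => W := by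
    funext i
    rw [hg0, hWc]
  rw [e1]
  have hab : |a| ≤ b * r := by rw [ha]; exact hg 0
  have hev1 := hC₀' r hr {a} (by simp; omega) (by simpa using hab) (δ / (3 * s)) (by positivity)
  have hlim := eqU hSPL h1 hr {a}
  rw [← hW] at hev1 hlim
  have hG1 : G (fun _ : Fin 1 => W) < G (fun _ : Fin 1 => W) + δ / (3 * s) := by
    have : 0 < δ / (3 * s) := by positivity
    linarith
  have hev2 := hlim.eventually (gt_mem_nhds hG1)
  have htr : PK K 1 W ≤ PK 2 1 W + K * (K : ℝ) ^ K * (1 / (r : ℝ)) ^ (2 + 1) := by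
    rw [hW]
    exact PK_trunc hD hK (by norm_num) hr (by simp)
  have hP2 : PK 2 1 W = 1 - G (fun _ : Fin 1 => W) + 1 / 2 * G (fun _ : Fin 2 => W) := by
    unfold PK
    rw [Finset.sum_range_succ, Finset.sum_range_succ, Finset.sum_range_one, G_zero]
    norm_num [Nat.factorial]
    ring
  have hG2 : G (fun _ : Fin 2 => W) ≤ 4 * (1 / (r : ℝ)) ^ (2 + 2) := by
    rw [← e1]
    exact Pool.Agent.N342.VP.G_noninj hD hh g hinj
  have hh1 : 1 / (r : ℝ) ≤ 1 := by rw [div_le_one hr0]; exact hr1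
  have hp1 : (1 / (r : ℝ)) ^ (2 + 2) ≤ (1 / (r : ℝ)) ^ 3 := pow_le_pow_of_le_one hh.le hh1 (by norm_num)
  have hp2 : (1 / (r : ℝ)) ^ (K + 1) ≤ (1 / (r : ℝ)) ^ 3 := pow_le_pow_of_le_one hh.le hh1 (by omega)
  have hp3 : C₀ * (1 / (r : ℝ)) ^ (K + 1) ≤ C₀ * (1 / (r : ℝ)) ^ 3 :=
    mul_le_mul_of_nonneg_left hp2 hC₀
  have hlow : G (fun _ : Fin 1 => W) - C₁ * (1 / (r : ℝ)) ^ 3 ≤
      1 - PK K 1 W - C₀ * (1 / (r : ℝ)) ^ (K + 1) := by
    have e4 : (2 : ℕ) + 1 = 3 := rfl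
    rw [e4] at htr
    have e5 : C₁ * (1 / (r : ℝ)) ^ 3 = K * (K : ℝ) ^ K * (1 / (r : ℝ)) ^ 3 +
        4 * (1 / (r : ℝ)) ^ 3 + C₀ * (1 / (r : ℝ)) ^ 3 := by rw [hC₁]; ring
    have e6 : (0 : ℝ) ≤ (1 / (r : ℝ)) ^ 3 := by positivity
    rw [e5]
    linarith
  filter_upwards [hX, hev1, hev2, hC₂'] with T hT h1 h2 h3
  have hm := mom2_le hBON (J := J T) (x := x T) hWm hWb hs0 5
  have h2' : mom (J T) (x T) (fun _ : Fin 1 => W) / X T < G (fun _ : Fin 1 => W) + δ / (3 * s) := h2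
  have h4 : mom (J T) (x T) (fun _ : Fin 1 => W) - cov (J T) (x T) W ≤
      (C₁ * (1 / (r : ℝ)) ^ 3 + 2 * (δ / (3 * s))) * X T := by
    rw [div_lt_iff₀ hT] at h2'
    rw [le_div_iff₀ hT] at h1
    nlinarith
  have h5 : ∫ t, (cnt (J T) (x T) W t : ℝ) ^ (5 + 2) ≤ C₂ * X T := by
    refine le_trans ?_ h3
    refine integral_mono (int_cnt (J := J T) (x := x T) hWm hWb (fun n => (n : ℝ) ^ (5 + 2)) (by simp))
      (int_cnt (J := J T) (x := x T) (W := Icc (-((b : ℝ) + 1)) (b + 1)) measurableSet_Icc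
        ⟨_, subset_rfl⟩ (fun n => (n : ℝ) ^ (5 + 2)) (by simp)) fun t => ?_
    have h6 : cnt (J T) (x T) W t ≤ cnt (J T) (x T) (Icc (-((b : ℝ) + 1)) (b + 1)) t := by
      refine cnt_mono ?_ t
      rw [hWc]
      exact Pool.Agent.N152.VP.cell_sub hr hab
    exact pow_le_pow_left₀ (Nat.cast_nonneg _) (Nat.cast_le.2 h6) _
  rw [div_le_iff₀ hT]
  have e2 : s⁻¹ ^ 5 = 1 / (r : ℝ) ^ 2 / s := by
    rw [← hs2]
    field_simp
  have e3 : s * (C₁ * (1 / (r : ℝ)) ^ 3) = C₁ / (r : ℝ) ^ 2 / s := by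
    rw [← hs2]
    field_simp
  calc mom (J T) (x T) (fun _ : Fin 2 => W) ≤
      s * (mom (J T) (x T) (fun _ : Fin 1 => W) - cov (J T) (x T) W) +
      s⁻¹ ^ 5 * ∫ t, (cnt (J T) (x T) W t : ℝ) ^ (5 + 2) := hm
    _ ≤ s * ((C₁ * (1 / (r : ℝ)) ^ 3 + 2 * (δ / (3 * s))) * X T) + s⁻¹ ^ 5 * (C₂ * X T) :=
        add_le_add (mul_le_mul_of_nonneg_left h4 hs0.le)
          (mul_le_mul_of_nonneg_left h5 (by positivity))
    _ = (s * (C₁ * (1 / (r : ℝ)) ^ 3) + s⁻¹ ^ 5 * C₂ + 2 / 3 * δ) * X T := by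
        have e4 : s * (2 * (δ / (3 * s))) = 2 / 3 * δ := by field_simp
        rw [← e4]
        ring
    _ ≤ ((C₁ + C₂) / (r : ℝ) ^ 2 / s + δ) * X T := by
        rw [e2, e3]
        refine mul_le_mul_of_nonneg_right ?_ hT.le
        have : C₁ / (r : ℝ) ^ 2 / s + 1 / (r : ℝ) ^ 2 / s * C₂ = (C₁ + C₂) / (r : ℝ) ^ 2 / s := by
          ring
        linarith

end Pool.Agent.N805.VP
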