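import Pool.Agent.N805.VP.KE

/-! # Covering bounds for few short cells: the conclusion -/

set_option autoImplicit false

open MeasureTheory Set Filter Topology

namespace Pool.Agent.N805.VP

open Pool.Agent.Y749.Rig hiding wt
open SG (ord NZ zmult ZS)
open W200.HW (Ix mem_Ix card_Ix)
open Pool.Agent.N805.OS (ps nu MB EqL OneS rt ii sn hier At mem_At nT_top NZ_asymp nu_nonneg base)

section gen

variable {l : Filter ℝ} {J : ℝ → Finset ℕ} {x : ℝ → ℕ → ℝ} {X : ℝ → ℝ}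

/-- the sum over maps into a set of cells -/
lemma mom_U (hSPL : S_SPL) {J : Finset ℕ} {x : ℕ → ℝ} {h : ℝ} (hh : 0 < h) (A : Finset ℤ) (k : ℕ) :
    mom J x (fun _ : Fin k => U h A) = ∑ g ∈ Fintype.piFinset (fun _ : Fin k => A),
      mom J x (fun i => cell h (g i)) :=
  (hSPL.1 ℤ J x (cell h) A (fun _ _ => ⟨cell_meas _ _, _, cell_bdd hh le_rfl⟩)
    ((cell_disj hh).subset (subset_univ _)) k).1

lemma G_U (hSPL : S_SPL) {h : ℝ} (hh : 0 < h) (A : Finset ℤ) (k : ℕ) :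
    G (fun _ : Fin k => U h A) = ∑ g ∈ Fintype.piFinset (fun _ : Fin k => A),
      G (fun i => cell h (g i)) :=
  (hSPL.1 ℤ ∅ (fun _ => 0) (cell h) A (fun _ _ => ⟨cell_meas _ _, _, cell_bdd hh le_rfl⟩)
    ((cell_disj hh).subset (subset_univ _)) k).2

/-- one step -/
lemma oneE_of (hD : S_DET) (hH : S_HOL) (hBON : S_BON) (hSPL : S_SPL) (hX : ∀ᶠ T in l, 0 < X T)
    (hM : Mom l J x X) {K m : ℕ} (hmK : m ≤ K) (hm : 2 ≤ m) (hcov : CovC l J x X K)
    (hlow : ∀ k : ℕ, 1 ≤ k → k < m → EqP l J x X k) (hC : CoinQ l J x X m) :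
    (Even m → OneE l J x X 1 m) ∧ (Odd m → OneE l J x X (-1) m) := by
  obtain ⟨n, rfl⟩ : ∃ n, m = n + 1 := ⟨m - 1, by omega⟩
  have hF0 : (0 : ℝ) < ((n + 1).factorial : ℝ) := by positivity
  have hF1 : (1 : ℝ) ≤ ((n + 1).factorial : ℝ) := by exact_mod_cast Nat.factorial_pos (n + 1)
  obtain ⟨F, hF⟩ : ∃ F : ℝ, F = ((n + 1).factorial : ℝ) := ⟨_, rfl⟩
  rw [← hF] at hF0 hF1
  -- the main inequalities
  have key : ∀ b : ℕ, ∃ C₁ C₃ : ℝ, 0 ≤ C₁ ∧ 0 ≤ C₃ ∧ ∀ r : ℕ, 1 ≤ r → ∀ A : Finset ℤ,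
      A.card ≤ n + 1 → (∀ a ∈ A, |a| ≤ b * r) → ∀ ε : ℝ, 0 < ε → ∀ᶠ T in l,
      (Even (n + 1) → mom (J T) (x T) (fun _ : Fin (n + 1) => U (1 / r) A) / X T ≤
        G (fun _ : Fin (n + 1) => U (1 / (r : ℝ)) A) + F * (C₁ * (1 / (r : ℝ)) ^ (n + 2)) +
        C₃ / (r : ℝ) ^ (n + 1) / Real.sqrt (Real.sqrt r) + ε) ∧
      (Odd (n + 1) → G (fun _ : Fin (n + 1) => U (1 / (r : ℝ)) A) -
        F * (C₁ * (1 / (r : ℝ)) ^ (n + 2)) - ε ≤
        mom (J T) (x T) (fun _ : Fin (n + 1) => U (1 / r) A) / X T) := by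
    intro b
    obtain ⟨C₀, hC₀, hC₀'⟩ := hcov b
    obtain ⟨C₂, hC₂, hC₂'⟩ := coin_up hH hX hm hM hC b
    obtain ⟨N, hN⟩ : ∃ N : ℝ, N = ((n + 1 : ℕ) : ℝ) ^ (n + 1 + 1) := ⟨_, rfl⟩
    have hN0 : 1 ≤ N := by
      rw [hN]
      exact one_le_pow₀ (by push_cast; linarith [(Nat.cast_nonneg n : (0 : ℝ) ≤ n)])
    refine ⟨K * (K : ℝ) ^ K + C₀, N * C₂, by positivity, by positivity,
      fun r hr A hA hAb ε hε => ?_⟩
    have hr0 : (0 : ℝ) < r := by exact_mod_cast hr
    have hr1 : (1 : ℝ) ≤ r := by exact_mod_cast hr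
    have hh : (0 : ℝ) < 1 / r := by positivity
    have hh1 : 1 / (r : ℝ) ≤ 1 := by rw [div_le_one hr0]; exact hr1
    obtain ⟨W, hW⟩ : ∃ W : Set ℝ, W = U (1 / (r : ℝ)) A := ⟨_, rfl⟩
    have hWm : MeasurableSet W := by rw [hW]; exact U_meas _ _
    have hWb : ∃ b : ℝ, W ⊆ Icc (-b) b := by rw [hW]; exact U_bdd _ hh _
    have htr := PK_trunc hD hmK (by omega) hr hA
    have hev1 := hC₀' r hr A (hA.trans hmK) hAb (ε / (4 * F)) (by positivity)
    have hpow : (1 / (r : ℝ)) ^ (K + 1) ≤ (1 / (r : ℝ)) ^ (n + 1 + 1) :=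
      pow_le_pow_of_le_one hh.le hh1 (by omega)
    have hpow' : C₀ * (1 / (r : ℝ)) ^ (K + 1) ≤ C₀ * (1 / (r : ℝ)) ^ (n + 1 + 1) :=
      mul_le_mul_of_nonneg_left hpow hC₀
    have hlim : Tendsto (fun T => ∑ k ∈ Finset.range n, (-1 : ℝ) ^ (k + 1) /
        ((k + 1).factorial : ℝ) * (mom (J T) (x T) (fun _ : Fin (k + 1) => W) / X T)) l
        (𝓝 (∑ k ∈ Finset.range n, (-1 : ℝ) ^ (k + 1) / ((k + 1).factorial : ℝ) *
          G (fun _ : Fin (k + 1) => W))) := by
      refine tendsto_finset_sum _ fun k hk => Tendsto.const_mul _ ?_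
      rw [Finset.mem_range] at hk
      rw [hW]
      exact eqU hSPL (hlow (k + 1) (by omega) (by omega)) hr A
    have hcoin : ∀ᶠ T in l, mom (J T) (x T) (fun _ : Fin (n + 1 + 1) => W) / X T ≤
        N * C₂ / (r : ℝ) ^ (n + 1) / Real.sqrt (Real.sqrt r) + ε / 2 := by
      have hg : ∀ᶠ T in l, ∀ g ∈ Fintype.piFinset (fun _ : Fin (n + 1 + 1) => A),
          mom (J T) (x T) (fun i => cell (1 / (r : ℝ)) (g i)) / X T ≤
          C₂ / (r : ℝ) ^ (n + 1) / Real.sqrt (Real.sqrt r) + ε / (2 * N) := by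
        rw [Finset.eventually_all]
        intro g hg
        rw [Fintype.mem_piFinset] at hg
        refine hC₂' r hr g (fun i => hAb _ (hg i)) ?_ _ (by positivity)
        intro hinj
        have h1 : (Finset.univ.image g).card = n + 1 + 1 := by
          rw [Finset.card_image_of_injective _ hinj, Finset.card_univ, Fintype.card_fin]
        have h2 : Finset.univ.image g ⊆ A := by
          intro a ha
          obtain ⟨i, -, rfl⟩ := Finset.mem_image.1 ha
          exact hg i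
        have h3 := Finset.card_le_card h2
        omega
      filter_upwards [hg] with T hT
      rw [hW, mom_U hSPL hh, Finset.sum_div]
      refine (Finset.sum_le_sum hT).trans ?_
      rw [Finset.sum_const, nsmul_eq_mul, Fintype.card_piFinset, Finset.prod_const, Finset.card_univ,
        Fintype.card_fin]
      have h1 : ((A.card ^ (n + 1 + 1) : ℕ) : ℝ) ≤ N := by
        rw [hN]
        push_cast
        refine pow_le_pow_left₀ (Nat.cast_nonneg _) ?_ _
        exact_mod_cast hA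
      refine (mul_le_mul_of_nonneg_right h1 (by positivity)).trans (le_of_eq ?_)
      field_simp
    have hlt := hlim.eventually (Ioo_mem_nhds (sub_lt_self _ (show 0 < ε / (4 * F) by positivity))
      (lt_add_of_pos_right _ (show 0 < ε / (4 * F) by positivity)))
    have hPK : 1 - PK (n + 1) 1 W = -(∑ k ∈ Finset.range n, (-1 : ℝ) ^ (k + 1) /
        ((k + 1).factorial : ℝ) * G (fun _ : Fin (k + 1) => W)) -
        (-1) ^ (n + 1) / F * G (fun _ : Fin (n + 1) => W) := by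
      unfold PK
      rw [Finset.sum_range_succ', Finset.sum_range_succ, G_zero, hF]
      simp only [pow_zero, Nat.factorial_zero, Nat.cast_one, div_one, mul_one]
      ring
    rw [← hW] at htr hev1 ⊢
    filter_upwards [hX, hev1, hcoin, hlt] with T hT h1 h2 h3
    obtain ⟨P, hP⟩ : ∃ P : ℝ, P = ∑ k ∈ Finset.range n, (-1 : ℝ) ^ (k + 1) /
        ((k + 1).factorial : ℝ) * G (fun _ : Fin (k + 1) => W) := ⟨_, rfl⟩
    obtain ⟨S, hS⟩ : ∃ S : ℝ, S = ∑ k ∈ Finset.range n, (-1 : ℝ) ^ (k + 1) /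
        ((k + 1).factorial : ℝ) * (mom (J T) (x T) (fun _ : Fin (k + 1) => W) / X T) := ⟨_, rfl⟩
    have h3' : P - ε / (4 * F) < S ∧ S < P + ε / (4 * F) := by
      rw [hP, hS]
      exact h3
    rw [← hP] at hPK
    obtain ⟨a, ha⟩ : ∃ a : ℝ, a = mom (J T) (x T) (fun _ : Fin (n + 1) => W) / X T := ⟨_, rfl⟩
    obtain ⟨a', ha'⟩ : ∃ a' : ℝ, a' = mom (J T) (x T) (fun _ : Fin (n + 1 + 1) => W) / X T :=
      ⟨_, rfl⟩
    obtain ⟨g, hg⟩ : ∃ g : ℝ, g = G (fun _ : Fin (n + 1) => W) := ⟨_, rfl⟩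
    obtain ⟨E₁, hE₁⟩ : ∃ E₁ : ℝ, E₁ = (K * (K : ℝ) ^ K + C₀) * (1 / (r : ℝ)) ^ (n + 1 + 1) :=
      ⟨_, rfl⟩
    have hlowb : -P - (-1) ^ (n + 1) / F * g - E₁ - ε / (4 * F) ≤ cov (J T) (x T) W / X T := by
      refine le_trans ?_ h1
      rw [hE₁, hg, ← hPK]
      have : (K * (K : ℝ) ^ K + C₀) * (1 / (r : ℝ)) ^ (n + 1 + 1) =
        K * (K : ℝ) ^ K * (1 / (r : ℝ)) ^ (n + 1 + 1) + C₀ * (1 / (r : ℝ)) ^ (n + 1 + 1) := by ring
      rw [this]
      linarith
    have hbon : ∀ M : ℕ, Odd M → cov (J T) (x T) W / X T ≤ -∑ k ∈ Finset.range M,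
        (-1 : ℝ) ^ (k + 1) / ((k + 1).factorial : ℝ) *
          (mom (J T) (x T) (fun _ : Fin (k + 1) => W) / X T) := by
      intro M hMo
      have h4 := ((hBON (J T) (x T) W hWm hWb).1 1 zero_le_one le_rfl M).1 hMo
      rw [← (hBON (J T) (x T) W hWm hWb).2] at h4
      rw [div_le_iff₀ hT]
      refine h4.trans (le_of_eq ?_)
      rw [neg_mul, Finset.sum_mul]
      congr 1
      refine Finset.sum_congr rfl fun k _ => ?_
      field_simp
    rw [← ha, ← hg, ← hE₁]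
    rw [← ha'] at h2
    have e4 : F * (ε / (4 * F)) = ε / 4 := by field_simp
    constructor
    · intro he
      have h5 := hbon (n + 1 + 1) (he.add_one)
      rw [Finset.sum_range_succ, Finset.sum_range_succ, ← hS, ← ha, ← ha', ← hF] at h5
      have e1 : (-1 : ℝ) ^ (n + 1) = 1 := he.neg_one_pow
      have e2 : (-1 : ℝ) ^ (n + 1 + 1) = -1 := (he.add_one).neg_one_pow
      rw [e1] at h5 hlowb
      rw [e2] at h5
      have e3 : ((n + 1 + 1).factorial : ℝ) = (n + 1 + 1) * F := by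
        rw [hF, Nat.factorial_succ]
        push_cast
        ring
      rw [e3] at h5
      have h6 : a / F ≤ g / F + E₁ + a' / ((n + 1 + 1) * F) + 2 * (ε / (4 * F)) := by
        have : -1 / (((n : ℝ) + 1 + 1) * F) * a' = -(a' / ((n + 1 + 1) * F)) := by ring
        rw [this] at h5
        have : 1 / F * a = a / F := by ring
        rw [this] at h5
        have : 1 / F * g = g / F := by ring
        rw [this] at hlowb
        linarith [h3'.1, h3'.2]
      have h7 : a ≤ g + F * E₁ + a' / (n + 1 + 1) + 2 * (ε / 4) := by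
        have h8 := mul_le_mul_of_nonneg_left h6 hF0.le
        have e5 : F * (a / F) = a := by field_simp
        have e6 : F * (g / F + E₁ + a' / ((n + 1 + 1) * F) + 2 * (ε / (4 * F))) =
            g + F * E₁ + a' / (n + 1 + 1) + 2 * (F * (ε / (4 * F))) := by
          field_simp
        rw [e5, e6, e4] at h8
        exact h8
      have h8 : a' / (n + 1 + 1) ≤ a' := by
        refine div_le_self ?_ (by linarith [(Nat.cast_nonneg n : (0 : ℝ) ≤ n)])
        rw [ha']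
        exact div_nonneg (mom_nonneg _) hT.le
      linarith
    · intro he
      have h5 := hbon (n + 1) he
      rw [Finset.sum_range_succ, ← hS, ← ha, ← hF] at h5
      have e1 : (-1 : ℝ) ^ (n + 1) = -1 := he.neg_one_pow
      rw [e1] at h5 hlowb
      have h6 : g / F - E₁ - 2 * (ε / (4 * F)) ≤ a / F := by
        have : -1 / F * a = -(a / F) := by ring
        rw [this] at h5
        have : -1 / F * g = -(g / F) := by ring
        rw [this] at hlowb
        linarith [h3'.1, h3'.2]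
      have h8 := mul_le_mul_of_nonneg_left h6 hF0.le
      have e5 : F * (a / F) = a := by field_simp
      have e6 : F * (g / F - E₁ - 2 * (ε / (4 * F))) = g - F * E₁ - 2 * (F * (ε / (4 * F))) := by
        field_simp
      rw [e5, e6, e4] at h8
      linarith
  -- choice of the parameters
  have par : ∀ (b : ℕ) (η : ℝ), 0 < η → ∀ C₁ C₃ : ℝ, 0 ≤ C₁ → 0 ≤ C₃ → ∃ r₀ : ℕ, 1 ≤ r₀ ∧
      ∀ r : ℕ, r₀ ≤ r → F * (C₁ * (1 / (r : ℝ)) ^ (n + 2)) +
        C₃ / (r : ℝ) ^ (n + 1) / Real.sqrt (Real.sqrt r) ≤ η / (r : ℝ) ^ (n + 1) := by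
    intro b η hη C₁ C₃ h1 h3
    refine ⟨⌈((F * C₁ + C₃) / η) ^ 4⌉₊ + 1, by omega, fun r hr => ?_⟩
    have hr' : 1 ≤ r := by omega
    have hr0 : (0 : ℝ) < r := by exact_mod_cast hr'
    have hr1 : (1 : ℝ) ≤ r := by exact_mod_cast hr'
    obtain ⟨s, hs⟩ : ∃ s : ℝ, s = Real.sqrt (Real.sqrt r) := ⟨_, rfl⟩
    have hs0 : 0 < s := by rw [hs]; exact Real.sqrt_pos.2 (Real.sqrt_pos.2 hr0)
    have hs4 : s ^ 4 = r := by
      have : s ^ 4 = (s * s) * (s * s) := by ring
      rw [this, hs, Real.mul_self_sqrt (Real.sqrt_nonneg _), Real.mul_self_sqrt hr0.le]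
    have hs1 : 1 ≤ s := by
      by_contra hcon
      push Not at hcon
      have : s ^ 4 < 1 := pow_lt_one₀ hs0.le hcon (by norm_num)
      linarith
    rw [← hs]
    have h5 : (F * C₁ + C₃) / η ≤ s := by
      have h6 : ((F * C₁ + C₃) / η) ^ 4 ≤ s ^ 4 := by
        rw [hs4]
        refine (Nat.le_ceil _).trans ?_
        exact_mod_cast (by omega : ⌈((F * C₁ + C₃) / η) ^ 4⌉₊ ≤ r)
      exact le_of_pow_le_pow_left₀ (by norm_num) hs0.le h6
    rw [div_le_iff₀ hη] at h5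
    have h6 : F * (C₁ * (1 / (r : ℝ)) ^ (n + 2)) ≤ F * C₁ / (r : ℝ) ^ (n + 1) / s := by
      have e : F * (C₁ * (1 / (r : ℝ)) ^ (n + 2)) = F * C₁ / (r : ℝ) ^ (n + 1) / r := by
        rw [one_div, inv_pow, pow_succ (r : ℝ) (n + 1)]
        field_simp
      rw [e]
      refine div_le_div_of_nonneg_left (by positivity) hs0 ?_
      rw [← hs4]
      exact le_self_pow₀ hs1 (by norm_num)
    have h7 : (F * C₁ + C₃) / (r : ℝ) ^ (n + 1) / s ≤ η / (r : ℝ) ^ (n + 1) := by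
      rw [div_right_comm]
      refine div_le_div_of_nonneg_right ?_ (by positivity)
      rw [div_le_iff₀ hs0]
      linarith
    have h8 : F * C₁ / (r : ℝ) ^ (n + 1) / s + C₃ / (r : ℝ) ^ (n + 1) / s =
        (F * C₁ + C₃) / (r : ℝ) ^ (n + 1) / s := by ring
    linarith
  constructor
  · intro he b η hη
    obtain ⟨C₁, C₃, h1, h3, hk⟩ := key b
    obtain ⟨r₀, hr₀, hr₀'⟩ := par b η hη C₁ C₃ h1 h3
    refine ⟨r₀, hr₀, fun r hr A hA hAb ε hε => ?_⟩
    filter_upwards [hk r (hr₀.trans hr) A hA hAb ε hε] with T hT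
    have h5 := hT.1 he
    have h6 := hr₀' r hr
    rw [one_mul]
    linarith
  · intro he b η hη
    obtain ⟨C₁, C₃, h1, h3, hk⟩ := key b
    obtain ⟨r₀, hr₀, hr₀'⟩ := par b η hη C₁ C₃ h1 h3
    refine ⟨r₀, hr₀, fun r hr A hA hAb ε hε => ?_⟩
    filter_upwards [hk r (hr₀.trans hr) A hA hAb ε hε] with T hT
    have h5 := hT.2 he
    have h6 := hr₀' r hr
    have h7 : 0 ≤ C₃ / (r : ℝ) ^ (n + 1) / Real.sqrt (Real.sqrt r) := by positivity
    linarith

/-- from unions of cells to products of cells -/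
lemma oneC_of (hD : S_DET) (hSPL : S_SPL) (hSYM : S_SYM) (hX : ∀ᶠ T in l, 0 < X T) {σ : ℝ}
    (hσ : σ = 1 ∨ σ = -1) {m : ℕ} (hE : OneE l J x X σ m) (hC : CoinQ l J x X m) :
    OneC' l J x X σ m := by
  classical
  intro b η hη
  obtain ⟨C, hC0, hC⟩ := hC b
  obtain ⟨r₁, hr₁, hE⟩ := hE b (η / 2) (by positivity)
  obtain ⟨N, hN⟩ : ∃ N : ℝ, N = (m : ℝ) ^ m + 1 := ⟨_, rfl⟩
  have hN0 : 1 ≤ N := by
    rw [hN]
    have : (0 : ℝ) ≤ (m : ℝ) ^ m := by positivity
    linarith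
  refine ⟨max r₁ ⌈((N * (C + 4)) / (η / 2)) ^ 2⌉₊, hr₁.trans (le_max_left _ _),
    fun r hr f hf ε hε => ?_⟩
  have hr' : r₁ ≤ r := (le_max_left _ _).trans hr
  have hr1' : 1 ≤ r := hr₁.trans hr'
  have hr0 : (0 : ℝ) < r := by exact_mod_cast hr1'
  have hr1 : (1 : ℝ) ≤ r := by exact_mod_cast hr1'
  have hs0 : 0 < Real.sqrt r := Real.sqrt_pos.2 hr0
  have hh : 0 < 1 / (r : ℝ) := by positivity
  have hq : 0 ≤ (C + 4) / (r : ℝ) ^ m / Real.sqrt r := by positivity
  have hbig : N * ((C + 4) / (r : ℝ) ^ m / Real.sqrt r) ≤ η / 2 / (r : ℝ) ^ m := by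
    have h1 : ((N * (C + 4)) / (η / 2)) ≤ Real.sqrt r := by
      apply Real.le_sqrt_of_sq_le
      exact (Nat.le_ceil _).trans (by exact_mod_cast (le_max_right _ _).trans hr)
    rw [div_le_iff₀ (by positivity)] at h1
    have h2 : N * ((C + 4) / (r : ℝ) ^ m / Real.sqrt r) = (N * (C + 4)) / Real.sqrt r / (r : ℝ) ^ m := by
      ring
    rw [h2]
    refine div_le_div_of_nonneg_right ?_ (by positivity)
    rw [div_le_iff₀ hs0]
    linarith
  -- maps with a coincidence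
  have hnon : ∀ g : Fin m → ℤ, (∀ i, |g i| ≤ b * r) → ¬ Function.Injective g → ∀ δ : ℝ, 0 < δ →
      ∀ᶠ T in l, |mom (J T) (x T) (fun i => cell (1 / (r : ℝ)) (g i)) / X T -
        G (fun i => cell (1 / (r : ℝ)) (g i))| ≤ (C + 4) / (r : ℝ) ^ m / Real.sqrt r + δ := by
    intro g hg hinj δ hδ
    filter_upwards [hX, hC r hr1' g hg hinj δ hδ] with T hT h1
    have h2 : 0 ≤ mom (J T) (x T) (fun i => cell (1 / (r : ℝ)) (g i)) / X T :=
      div_nonneg (mom_nonneg _) hT.le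
    have h3 := Pool.Agent.N342.VP.G_noninj hD hh g hinj
    have h4 := Pool.Agent.N342.VP.num_bound hr1' m
    have h5 : 0 ≤ G (fun i => cell (1 / (r : ℝ)) (g i)) := G_nonneg hD fun i => cell_meas _ _
    have h6 : (C + 4) / (r : ℝ) ^ m / Real.sqrt r = C / (r : ℝ) ^ m / Real.sqrt r +
        4 * (1 / (r : ℝ) ^ m / Real.sqrt r) := by ring
    have h7 : 0 ≤ C / (r : ℝ) ^ m / Real.sqrt r := by positivity
    have h8 : 0 ≤ 1 / (r : ℝ) ^ m / Real.sqrt r := by positivity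
    rw [abs_le, h6]
    constructor <;> linarith
  by_cases hinj : Function.Injective f
  swap
  · filter_upwards [hnon f hf hinj ε hε] with T hT
    have h1 : σ * (mom (J T) (x T) (fun i => cell (1 / (r : ℝ)) (f i)) / X T -
        G (fun i => cell (1 / (r : ℝ)) (f i))) ≤ |mom (J T) (x T)
          (fun i => cell (1 / (r : ℝ)) (f i)) / X T - G (fun i => cell (1 / (r : ℝ)) (f i))| := by
      rcases hσ with rfl | rfl
      · rw [one_mul]
        exact le_abs_self _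
      · rw [neg_one_mul]
        exact neg_le_abs _
    have h2 : (C + 4) / (r : ℝ) ^ m / Real.sqrt r ≤ N * ((C + 4) / (r : ℝ) ^ m / Real.sqrt r) :=
      le_mul_of_one_le_left hq hN0
    have h3 : 0 ≤ η / 2 / (r : ℝ) ^ m := by positivity
    have h4 : η / (r : ℝ) ^ m = η / 2 / (r : ℝ) ^ m + η / 2 / (r : ℝ) ^ m := by ring
    linarith
  obtain ⟨A, hA⟩ : ∃ A : Finset ℤ, A = Finset.univ.image f := ⟨_, rfl⟩
  have hAb : ∀ a ∈ A, |a| ≤ (b : ℤ) * r := by
    intro a ha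
    rw [hA, Finset.mem_image] at ha
    obtain ⟨i, _, rfl⟩ := ha
    exact hf i
  have hAc : A.card ≤ m := by
    rw [hA]
    refine Finset.card_image_le.trans ?_
    rw [Finset.card_univ, Fintype.card_fin]
  obtain ⟨B, hB⟩ : ∃ B : Finset (Fin m → ℤ), B = (Fintype.piFinset
      (fun _ : Fin m => A)).filter (fun g => ¬ Function.Injective g) := ⟨_, rfl⟩
  have hBc : (B.card : ℝ) ≤ N := by
    have h1 : B.card ≤ m ^ m := by
      rw [hB]
      refine (Finset.card_filter_le _ _).trans ?_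
      rw [Fintype.card_piFinset, Finset.prod_const, Finset.card_univ, Fintype.card_fin]
      exact Nat.pow_le_pow_left hAc _
    have h2 : (B.card : ℝ) ≤ (m : ℝ) ^ m := by exact_mod_cast h1
    rw [hN]
    linarith
  have hev1 : ∀ᶠ T in l, ∀ g ∈ B, |mom (J T) (x T) (fun i => cell (1 / (r : ℝ)) (g i)) / X T -
      G (fun i => cell (1 / (r : ℝ)) (g i))| ≤ (C + 4) / (r : ℝ) ^ m / Real.sqrt r + ε / (2 * N) := by
    rw [Finset.eventually_all]
    intro g hg
    rw [hB, Finset.mem_filter, Fintype.mem_piFinset] at hg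
    exact hnon g (fun i => hAb _ (hg.1 i)) hg.2 _ (by positivity)
  have hev2 := hE r hr' A hAc hAb (ε / 2) (by positivity)
  filter_upwards [hX, hev1, hev2] with T hT h1 h2
  obtain ⟨F, hF⟩ : ∃ F : (Fin m → ℤ) → ℝ, F = fun g =>
    σ * (mom (J T) (x T) (fun i => cell (1 / (r : ℝ)) (g i)) / X T -
      G (fun i => cell (1 / (r : ℝ)) (g i))) := ⟨_, rfl⟩
  have hFs : ∀ (τ : Equiv.Perm (Fin m)) (g : Fin m → ℤ), F (fun i => g (τ i)) = F g := by
    intro τ g
    have h3 := hSPL.2 (J T) (x T) m τ (fun i => cell (1 / (r : ℝ)) (g i))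
    rw [hF]
    show σ * (mom (J T) (x T) (fun i => cell (1 / (r : ℝ)) (g (τ i))) / X T -
      G (fun i => cell (1 / (r : ℝ)) (g (τ i)))) = _
    rw [h3.1, h3.2]
  have hsym := hSYM m F hFs f hinj
  have hsum : ∑ g ∈ Fintype.piFinset (fun _ : Fin m => A), F g =
      σ * (mom (J T) (x T) (fun _ : Fin m => U (1 / (r : ℝ)) A) / X T -
        G (fun _ : Fin m => U (1 / (r : ℝ)) A)) := by
    rw [hF, ← Finset.mul_sum, Finset.sum_sub_distrib, ← Finset.sum_div, mom_U hSPL hh,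
      G_U hSPL hh]
  have hs2 : ∑ g ∈ Fintype.piFinset (fun _ : Fin m => A), F g =
      (m.factorial : ℝ) * F f + ∑ g ∈ B, F g := by
    rw [hB, hA]
    convert hsym using 2
  have hs3 : -∑ g ∈ B, F g ≤ N * ((C + 4) / (r : ℝ) ^ m / Real.sqrt r + ε / (2 * N)) := by
    rw [← Finset.sum_neg_distrib]
    have h4 : ∀ g ∈ B, -F g ≤ (C + 4) / (r : ℝ) ^ m / Real.sqrt r + ε / (2 * N) := by
      intro g hg
      have h5 := h1 g hg
      refine le_trans ?_ h5
      rw [hF]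
      rcases hσ with rfl | rfl
      · simp only [one_mul]
        exact neg_le_abs _
      · simp only [neg_one_mul, neg_neg]
        exact le_abs_self _
    refine (Finset.sum_le_sum h4).trans ?_
    rw [Finset.sum_const, nsmul_eq_mul]
    exact mul_le_mul_of_nonneg_right hBc (by positivity)
  have h7 : N * ((C + 4) / (r : ℝ) ^ m / Real.sqrt r + ε / (2 * N)) =
      N * ((C + 4) / (r : ℝ) ^ m / Real.sqrt r) + ε / 2 := by
    have : N ≠ 0 := by positivity
    field_simp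
  have h4 : η / (r : ℝ) ^ m = η / 2 / (r : ℝ) ^ m + η / 2 / (r : ℝ) ^ m := by ring
  have h8 : (m.factorial : ℝ) * F f ≤ η / (r : ℝ) ^ m + ε := by
    rw [hsum] at hs2
    linarith
  have h9 : (1 : ℝ) ≤ (m.factorial : ℝ) := by
    exact_mod_cast Nat.factorial_pos m
  have h12 : F f = σ * (mom (J T) (x T) (fun i => cell (1 / (r : ℝ)) (f i)) / X T -
      G (fun i => cell (1 / (r : ℝ)) (f i))) := by rw [hF]
  rw [← h12]
  rcases le_or_gt (F f) 0 with h | h
  · have : 0 ≤ η / (r : ℝ) ^ m := by positivity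
    linarith
  · nlinarith

end gen

/-- **covering bounds for at most `K` short cells determine the correlations of at most `K` zeros** -/
theorem cov_to_corC {l : Filter ℝ} (RH : RiemannHypothesis) (hl : l ≤ atTop) (hDET : S_DET)
    (hBON : S_BON) (hSPL : S_SPL) (hSYM : S_SYM) (hHOL : S_HOL)
    (hPRD : S_PRD) (hDIF : S_DIF2) {K : ℕ} (hcov : CovC l Ix ps nT K) :
    ∀ m, m + 1 ≤ K → EqL l m := by
  have hX : ∀ᶠ T in l, 0 < nT T := hl (nT_top.eventually_gt_atTop 0)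
  have hMom := mom_bdd RH hl
  intro m
  induction m using Nat.strong_induction_on with
  | _ m ih =>
    intro hmK
    rcases Nat.eq_zero_or_pos m with h0 | h0
    · rw [h0]
      exact base hl
    have hlow : ∀ k : ℕ, 1 ≤ k → k < m + 1 → EqP l Ix ps nT k := by
      intro k hk1 hk2
      obtain ⟨k, rfl⟩ : ∃ k', k = k' + 1 := ⟨k - 1, by omega⟩
      exact hPRD hDET l Ix ps nT hX k ((EqD_iff l k).2 (ih k (by omega) (by omega)))
    have hC : CoinQ l Ix ps nT (m + 1) := by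
      rcases Nat.lt_or_ge m 2 with h | h
      · have : m = 1 := by omega
        subst this
        exact coinQ_two hDET hBON hSPL hX hMom hmK hcov (hlow 1 le_rfl (by omega))
      · exact coinQ_of hDET hHOL hX h hMom (hlow m h0 (by omega))
    have hst := oneE_of hDET hHOL hBON hSPL hX hMom hmK (by omega) hcov hlow hC
    rcases Nat.even_or_odd (m + 1) with he | he
    · have h1 := oneC_of hDET hSPL hSYM hX (Or.inl rfl) (hst.1 he) hC
      have h2 := hDIF hDET l Ix ps nT hX m 1 (Or.inl rfl) h1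
      exact hier RH hl (Or.inl rfl) ((OneD_iff l 1 m).1 h2) m le_rfl
    · have h1 := oneC_of hDET hSPL hSYM hX (Or.inr rfl) (hst.2 he) hC
      have h2 := hDIF hDET l Ix ps nT hX m (-1) (Or.inr rfl) h1
      exact hier RH hl (Or.inr rfl) ((OneD_iff l (-1) m).1 h2) m le_rfl

end Pool.Agent.N805.VP
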