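import Pool.Agent.N805.VP.KF
import Pool.Agent.N79.VP.DEC

/-! # Truncated covering bounds: the theorem -/

set_option autoImplicit false

open MeasureTheory Set Filter Topology

namespace Pool.Agent.N805.VP

open Pool.Agent.Y749.Rig hiding wt
open SG (ord NZ zmult ZS)
open LG (dlt)
open W200.HW (Ix mem_Ix card_Ix)
open Pool.Agent.R320.KL (Nk)
open Pool.Agent.N805.OS (ps EqL rt ii sn nT_top Full Nk_eq X_eq I_eq base)

/-- inclusion-exclusion: the lower bound -/
lemma bon_low (hSPL : S_SPL) (hBON : S_BON) (hDEC : S_DEC) {l : Filter ℝ} {J : ℝ → Finset ℕ}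
    {x : ℝ → ℕ → ℝ} {X : ℝ → ℝ} (hX : ∀ᶠ T in l, 0 < X T) {K : ℕ} (hK : Even K)
    (hP : ∀ k : ℕ, 1 ≤ k → k ≤ K → EqP l J x X k) (n : ℕ) (a b : Fin n → ℝ) {ε : ℝ} (hε : 0 < ε) :
    ∀ᶠ T in l, 1 - PK K 1 (⋃ i, Ico (a i) (b i)) - ε ≤
      cov (J T) (x T) (⋃ i, Ico (a i) (b i)) / X T := by
  obtain ⟨m, c, d, hcd, hdisj, hW⟩ := hDEC n a b
  rw [hW]
  obtain ⟨W, hWdef⟩ : ∃ W : Set ℝ, W = ⋃ i, Ico (c i) (d i) := ⟨_, rfl⟩
  rw [← hWdef]
  have hWm : MeasurableSet W := by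
    rw [hWdef]
    exact MeasurableSet.iUnion fun i => measurableSet_Ico
  have hsub : ∀ i, Ico (c i) (d i) ⊆ Icc (-(∑ j, (|c j| + |d j|))) (∑ j, (|c j| + |d j|)) := by
    intro i u hu
    have h1 : |c i| + |d i| ≤ ∑ j, (|c j| + |d j|) :=
      Finset.single_le_sum (f := fun j => |c j| + |d j|) (fun _ _ => by positivity)
        (Finset.mem_univ i)
    have h2 := neg_abs_le (c i)
    have h3 := le_abs_self (d i)
    have h4 := abs_nonneg (c i)
    have h5 := abs_nonneg (d i)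
    constructor <;> linarith [hu.1, hu.2]
  have hWb : ∃ B : ℝ, W ⊆ Icc (-B) B := by
    refine ⟨∑ j, (|c j| + |d j|), ?_⟩
    rw [hWdef]
    exact iUnion_subset hsub
  have e0 : (⋃ i ∈ (Finset.univ : Finset (Fin m)), Ico (c i) (d i)) = W := by
    rw [hWdef]
    simp
  have hmom : ∀ k, 1 ≤ k → k ≤ K → Tendsto (fun T => mom (J T) (x T) (fun _ : Fin k => W) / X T) l
      (𝓝 (G fun _ : Fin k => W)) := by
    intro k hk hkK
    have e : ∀ (J : Finset ℕ) (x : ℕ → ℝ), mom J x (fun _ : Fin k => W) =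
        ∑ g ∈ Fintype.piFinset (fun _ : Fin k => (Finset.univ : Finset (Fin m))),
          mom J x (fun i => Ico (c (g i)) (d (g i))) ∧
        G (fun _ : Fin k => W) =
        ∑ g ∈ Fintype.piFinset (fun _ : Fin k => (Finset.univ : Finset (Fin m))),
          G (fun i => Ico (c (g i)) (d (g i))) := by
      intro J x
      have := hSPL.1 (Fin m) J x (fun i => Ico (c i) (d i)) Finset.univ
        (fun i _ => ⟨measurableSet_Ico, _, hsub i⟩) (by simpa using hdisj) k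
      rw [e0] at this
      exact this
    rw [(e ∅ fun _ => 0).2]
    have e1 : (fun T => mom (J T) (x T) (fun _ : Fin k => W) / X T) = fun T =>
        ∑ g ∈ Fintype.piFinset (fun _ : Fin k => (Finset.univ : Finset (Fin m))),
          mom (J T) (x T) (fun i => Ico (c (g i)) (d (g i))) / X T := by
      funext T
      rw [(e (J T) (x T)).1, Finset.sum_div]
    rw [e1]
    refine tendsto_finset_sum _ fun g _ => ?_
    exact hP k hk hkK (fun i => c (g i)) (fun i => d (g i)) fun i => hcd _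
  have hS : Tendsto (fun T => -∑ k ∈ Finset.range K,
      (-1 : ℝ) ^ (k + 1) / ((k + 1).factorial : ℝ) *
        (mom (J T) (x T) (fun _ : Fin (k + 1) => W) / X T)) l
      (𝓝 (-∑ k ∈ Finset.range K, (-1 : ℝ) ^ (k + 1) / ((k + 1).factorial : ℝ) *
        G (fun _ : Fin (k + 1) => W))) := by
    refine (tendsto_finset_sum _ fun k hk => ?_).neg
    rw [Finset.mem_range] at hk
    exact (hmom (k + 1) (by omega) (by omega)).const_mul _
  have hPK : -∑ k ∈ Finset.range K, (-1 : ℝ) ^ (k + 1) / ((k + 1).factorial : ℝ) *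
      G (fun _ : Fin (k + 1) => W) = 1 - PK K 1 W := by
    unfold PK
    rw [Finset.sum_range_succ', G_zero]
    simp only [pow_zero, Nat.factorial_zero, Nat.cast_one, div_one, mul_one]
    ring
  rw [hPK] at hS
  have hlt : 1 - PK K 1 W - ε < 1 - PK K 1 W := by linarith
  filter_upwards [hX, hS.eventually (lt_mem_nhds hlt)] with T hT h1
  obtain ⟨h2, h3⟩ := hBON (J T) (x T) W hWm hWb
  have h4 := (h2 1 zero_le_one le_rfl K).2 hK
  rw [← h3] at h4
  refine h1.le.trans ?_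
  rw [le_div_iff₀ hT]
  refine le_trans (le_of_eq ?_) h4
  rw [neg_mul, Finset.sum_mul]
  congr 1
  refine Finset.sum_congr rfl fun k _ => ?_
  field_simp

/-- lower bounds for the covering probabilities of all finite unions of intervals -/
def LowK (l : Filter ℝ) (K : ℕ) : Prop := ∀ (n : ℕ) (a b : Fin n → ℝ), ∀ ε : ℝ, 0 < ε →
  ∀ᶠ T in l, 1 - PK K 1 (⋃ i, Ico (a i) (b i)) - ε ≤ Cv T (⋃ i, Ico (a i) (b i))

/-- lower bounds for the covering probabilities of unions of at most `K` short intervals of the same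
length -/
def ShortK (l : Filter ℝ) (K : ℕ) : Prop := ∀ B : ℝ, ∃ C : ℝ, ∀ h : ℝ, 0 < h → h ≤ 1 →
  ∀ n : ℕ, n ≤ K → ∀ a : Fin n → ℝ, (∀ i, |a i| ≤ B) → ∀ ε : ℝ, 0 < ε → ∀ᶠ T in l,
    1 - PK K 1 (⋃ i, Ico (a i) (a i + h)) - C * h ^ (K + 1) - ε ≤ Cv T (⋃ i, Ico (a i) (a i + h))

lemma covC_of {l : Filter ℝ} (hl : l ≤ atTop) {K : ℕ} (h : ShortK l K) : CovC l Ix ps nT K := by
  classical
  intro b
  obtain ⟨C, hC⟩ := h b
  refine ⟨max C 0, le_max_right _ _, fun r hr A hA hAb ε hε => ?_⟩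
  have hr0 : (0 : ℝ) < r := by exact_mod_cast hr
  have hr1 : (1 : ℝ) ≤ r := by exact_mod_cast hr
  have hh : (0 : ℝ) < 1 / r := by positivity
  have hh1 : 1 / (r : ℝ) ≤ 1 := by rw [div_le_one hr0]; exact hr1
  have hU : U (1 / (r : ℝ)) A = ⋃ i : Fin A.card,
      Ico (((A.equivFin.symm i : ℤ) : ℝ) * (1 / r)) (((A.equivFin.symm i : ℤ) : ℝ) * (1 / r) + 1 / r) := by
    ext u
    unfold U cell
    simp only [mem_iUnion, exists_prop]
    have e : ∀ a : ℤ, ((a : ℝ) + 1) * (1 / (r : ℝ)) = a * (1 / r) + 1 / r := fun a => by ring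
    simp_rw [e]
    constructor
    · rintro ⟨a, ha, hu⟩
      refine ⟨A.equivFin ⟨a, ha⟩, ?_⟩
      simpa using hu
    · rintro ⟨i, hu⟩
      exact ⟨_, (A.equivFin.symm i).2, hu⟩
  have h1 := hC (1 / r) hh hh1 A.card hA (fun i => ((A.equivFin.symm i : ℤ) : ℝ) * (1 / r)) (by
    intro i
    have h2 := hAb _ (A.equivFin.symm i).2
    rw [abs_mul, abs_of_pos hh, mul_one_div, div_le_iff₀ hr0]
    exact_mod_cast h2) ε hε
  rw [← hU] at h1
  have h10 : ∀ᶠ T in l, 10 ≤ T := hl (eventually_ge_atTop 10)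
  filter_upwards [h1, h10] with T h2 hT
  rw [Cv_eq hT] at h2
  have h3 : C * (1 / (r : ℝ)) ^ (K + 1) ≤ max C 0 * (1 / (r : ℝ)) ^ (K + 1) :=
    mul_le_mul_of_nonneg_right (le_max_left _ _) (by positivity)
  linarith

/-- **the theorem** -/
theorem mainK (RH : RiemannHypothesis) {l : Filter ℝ} (hl : l ≤ atTop) (K : ℕ) :
    (Even K → (∀ k : ℕ, 1 ≤ k → k < K → Full l k) → LowK l K) ∧ (LowK l K → ShortK l K) ∧
    (ShortK l K → ∀ k : ℕ, 1 ≤ k → k < K → Full l k) := by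
  have hX : ∀ᶠ T in l, 0 < nT T := hl (nT_top.eventually_gt_atTop 0)
  have h10 : ∀ᶠ T in l, 10 ≤ T := hl (eventually_ge_atTop 10)
  refine ⟨fun hK h n a b ε hε => ?_, fun h B => ⟨0, fun t _ _ n _ a _ ε hε => ?_⟩,
    fun h k _ hkK => ?_⟩
  · have hP : ∀ k : ℕ, 1 ≤ k → k ≤ K → EqP l Ix ps nT k := by
      intro k hk1 hkK
      obtain ⟨k, rfl⟩ : ∃ k', k = k' + 1 := ⟨k - 1, by omega⟩
      refine N478.VP.PRD N424.VP.DET l Ix ps nT hX k ((EqD_iff l k).2 ?_)
      rcases Nat.eq_zero_or_pos k with h0 | h0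
      · rw [h0]
        exact base hl
      · exact (full_iff l k).1 (h k h0 (by omega))
    filter_upwards [bon_low N401.VP.SPL N861.VP.BON N79.VP.DEC hX hK hP n a b hε, h10] with T h1 hT
    rw [Cv_eq hT]
    exact h1
  · filter_upwards [h n a (fun i => a i + t) ε hε] with T hT
    linarith
  · rw [full_iff]
    exact cov_to_corC RH hl N424.VP.DET N861.VP.BON N401.VP.SPL N368.VP.SYM N99.VP.HOL N478.VP.PRD
      N296.VP.DIF2 (covC_of hl h) k (by omega)

end Pool.Agent.N805.VP
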