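import Pool.Agent.N805.VP.KG

/-! # Pairs of short intervals -/

set_option autoImplicit false

open MeasureTheory Set Filter Topology

namespace Pool.Agent.N805.VP

open Pool.Agent.Y749.Rig hiding wt
open SG (ord NZ zmult ZS)
open LG (dlt)
open W200.HW (Ix mem_Ix card_Ix)
open Pool.Agent.R320.KL (Nk)
open Pool.Agent.N805.OS (ps EqL rt ii sn nT_top Full Nk_eq X_eq I_eq base)

lemma s_lip (u v : ℝ) : |Real.sinc (Real.pi * u) - Real.sinc (Real.pi * v)| ≤ 4 * |u - v| := by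
  rw [N424.VP.sinc_int, N424.VP.sinc_int, ← intervalIntegral.integral_sub
    (Continuous.intervalIntegrable (by fun_prop) _ _)
    (Continuous.intervalIntegrable (by fun_prop) _ _)]
  have h := intervalIntegral.norm_integral_le_of_norm_le_const (a := -(1 / 2 : ℝ)) (b := 1 / 2)
    (f := fun ξ => Real.cos (2 * Real.pi * u * ξ) - Real.cos (2 * Real.pi * v * ξ))
    (C := 4 * |u - v|) (by
      intro ξ hξ
      rw [uIoc_of_le (by norm_num)] at hξ
      rw [Real.norm_eq_abs]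
      refine (Real.abs_cos_sub_cos_le _ _).trans ?_
      have e : 2 * Real.pi * u * ξ - 2 * Real.pi * v * ξ = 2 * Real.pi * ξ * (u - v) := by ring
      rw [e, abs_mul]
      refine mul_le_mul_of_nonneg_right ?_ (abs_nonneg _)
      rw [abs_mul, abs_of_pos (by positivity)]
      have h1 : |ξ| ≤ 1 / 2 := by
        rw [abs_le]
        constructor <;> linarith [hξ.1, hξ.2]
      have h2 := Real.pi_pos
      have h3 := Real.pi_le_four
      nlinarith)
  rw [Real.norm_eq_abs] at h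
  refine h.trans (le_of_eq ?_)
  norm_num

lemma phi_lip (u v : ℝ) : |(1 - Real.sinc (Real.pi * u) ^ 2) - (1 - Real.sinc (Real.pi * v) ^ 2)| ≤
    8 * |u - v| := by
  have h1 := s_lip u v
  have h2 := Real.abs_sinc_le_one (Real.pi * u)
  have h3 := Real.abs_sinc_le_one (Real.pi * v)
  have e : (1 - Real.sinc (Real.pi * u) ^ 2) - (1 - Real.sinc (Real.pi * v) ^ 2) =
      -((Real.sinc (Real.pi * u) - Real.sinc (Real.pi * v)) *
        (Real.sinc (Real.pi * u) + Real.sinc (Real.pi * v))) := by ring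
  rw [e, abs_neg, abs_mul]
  have h4 : |Real.sinc (Real.pi * u) + Real.sinc (Real.pi * v)| ≤ 2 := by
    refine (abs_add_le _ _).trans ?_
    linarith
  calc _ ≤ (4 * |u - v|) * 2 := mul_le_mul h1 h4 (abs_nonneg _) (by positivity)
    _ = 8 * |u - v| := by ring

lemma D_two (q : Fin 2 → ℝ) : D q = 1 - Real.sinc (Real.pi * (q 0 - q 1)) ^ 2 := by
  unfold D
  rw [Matrix.det_fin_two]
  simp only [Matrix.of_apply, sub_self, mul_zero, Real.sinc_zero]
  have : Real.pi * (q 1 - q 0) = -(Real.pi * (q 0 - q 1)) := by ring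
  rw [this, Real.sinc_neg]
  ring

lemma G_ge_of {k : ℕ} {c : Fin k → Set ℝ} (hc : ∀ i, MeasurableSet (c i))
    (hb : ∃ b : ℝ, ∀ i, c i ⊆ Icc (-b) b) {M : ℝ} (hM : ∀ q ∈ Set.pi univ c, M ≤ D q) :
    M * ∏ i, volume.real (c i) ≤ G c := by
  have h1 : ∫ _q in Set.pi univ c, M ≤ G c := by
    refine setIntegral_mono_on (integrableOn_const (pi_fin hb)) (D_int hb) (MeasurableSet.univ_pi hc) hM
  refine le_trans (le_of_eq ?_) h1
  rw [setIntegral_const, smul_eq_mul, mul_comm]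
  congr 1
  rw [measureReal_def, volume_pi_pi, ENNReal.toReal_prod]
  rfl

lemma G_one {W : Set ℝ} (hW : MeasurableSet W) (hb : ∃ b : ℝ, W ⊆ Icc (-b) b) :
    G (fun _ : Fin 1 => W) = volume.real W := by
  obtain ⟨b, hb⟩ := hb
  have h1 := G_le_of (c := fun _ : Fin 1 => W) (fun _ => hW) ⟨b, fun _ => hb⟩ (M := 1)
    (fun q _ => (D_one q).le)
  have h2 := G_ge_of (c := fun _ : Fin 1 => W) (fun _ => hW) ⟨b, fun _ => hb⟩ (M := 1)
    (fun q _ => (D_one q).ge)
  rw [Fin.prod_univ_one, one_mul] at h1 h2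
  exact le_antisymm h1 h2

/-- splitting a second moment -/
lemma G2_split (hSPL : S_SPL) {A B : Set ℝ} (hA : MeasurableSet A) (hB : MeasurableSet B)
    (hbA : ∃ b : ℝ, A ⊆ Icc (-b) b) (hbB : ∃ b : ℝ, B ⊆ Icc (-b) b) (hAB : Disjoint A B) :
    G (fun _ : Fin 2 => A ∪ B) = G ![A, A] + G ![A, B] + (G ![B, A] + G ![B, B]) := by
  have h := (hSPL.1 (Fin 2) ∅ (fun _ => 0) ![A, B] Finset.univ (by
    intro a _
    fin_cases a
    · exact ⟨hA, hbA⟩
    · exact ⟨hB, hbB⟩) (by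
    intro i _ j _ hij
    fin_cases i <;> fin_cases j
    · exact absurd rfl hij
    · exact hAB
    · exact hAB.symm
    · exact absurd rfl hij) 2).2
  have e : (⋃ a ∈ (Finset.univ : Finset (Fin 2)), (![A, B] : Fin 2 → Set ℝ) a) = A ∪ B := by
    ext u
    simp [Fin.exists_fin_two]
  rw [e, Fintype.piFinset_univ] at h
  rw [h, ← (finTwoArrowEquiv (Fin 2)).symm.sum_comp, Fintype.sum_prod_type, Fin.sum_univ_two,
    Fin.sum_univ_two, Fin.sum_univ_two]
  have e1 : ∀ i j : Fin 2, (fun k => (![A, B] : Fin 2 → Set ℝ) ((finTwoArrowEquiv (Fin 2)).symm (i, j) k)) =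
      ![(![A, B] : Fin 2 → Set ℝ) i, (![A, B] : Fin 2 → Set ℝ) j] := by
    intro i j
    funext k
    fin_cases k <;> rfl
  simp only [e1]
  rfl

/-- the pair term for two intervals -/
lemma G2_est (hD : S_DET) (hSPL : S_SPL) {h u : ℝ} (hh : 0 < h) (hu : h ≤ u) (c : ℝ) :
    h ^ 2 * (1 - Real.sinc (Real.pi * u) ^ 2) - 8 * h ^ 3 ≤
      1 / 2 * G (fun _ : Fin 2 => Ico c (c + h) ∪ Ico (c + u) (c + u + h)) ∧
    1 / 2 * G (fun _ : Fin 2 => Ico c (c + h) ∪ Ico (c + u) (c + u + h)) ≤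
      h ^ 2 * (1 - Real.sinc (Real.pi * u) ^ 2) + 8 * h ^ 3 + 4 * h ^ 4 := by
  obtain ⟨A, hA⟩ : ∃ A : Set ℝ, A = Ico c (c + h) := ⟨_, rfl⟩
  obtain ⟨B, hB⟩ : ∃ B : Set ℝ, B = Ico (c + u) (c + u + h) := ⟨_, rfl⟩
  have hAm : MeasurableSet A := by rw [hA]; exact measurableSet_Ico
  have hBm : MeasurableSet B := by rw [hB]; exact measurableSet_Ico
  have hb : ∀ a : ℝ, Ico a (a + h) ⊆ Icc (-(|a| + h)) (|a| + h) := by
    intro a v hv
    have h2 := neg_abs_le a
    have h3 := le_abs_self a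
    constructor <;> linarith [hv.1, hv.2]
  have hbA : ∃ b : ℝ, A ⊆ Icc (-b) b := ⟨_, by rw [hA]; exact hb c⟩
  have hbB : ∃ b : ℝ, B ⊆ Icc (-b) b := ⟨_, by rw [hB]; exact hb (c + u)⟩
  have hAB : Disjoint A B := by
    rw [hA, hB, Set.disjoint_left]
    intro v h1 h2
    linarith [h1.2, h2.1]
  have hvA : volume.real A = h := by
    rw [hA, Real.volume_real_Ico_of_le (by linarith)]
    ring
  have hvB : volume.real B = h := by
    rw [hB, Real.volume_real_Ico_of_le (by linarith)]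
    ring
  rw [← hA, ← hB, G2_split hSPL hAm hBm hbA hbB hAB]
  have hbdd : ∀ P Q : Set ℝ, (P = A ∨ P = B) → (Q = A ∨ Q = B) →
      (∀ i, MeasurableSet ((![P, Q] : Fin 2 → Set ℝ) i)) ∧
      (∃ b : ℝ, ∀ i, (![P, Q] : Fin 2 → Set ℝ) i ⊆ Icc (-b) b) ∧
      ∏ i, volume.real ((![P, Q] : Fin 2 → Set ℝ) i) = h ^ 2 := by
    intro P Q hP hQ
    obtain ⟨b1, hb1⟩ := hbA
    obtain ⟨b2, hb2⟩ := hbB
    have hsub : ∀ R : Set ℝ, (R = A ∨ R = B) → R ⊆ Icc (-(max b1 b2)) (max b1 b2) := by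
      intro R hR
      rcases hR with rfl | rfl
      · exact hb1.trans (Icc_subset_Icc (neg_le_neg (le_max_left _ _)) (le_max_left _ _))
      · exact hb2.trans (Icc_subset_Icc (neg_le_neg (le_max_right _ _)) (le_max_right _ _))
    have hme : ∀ R : Set ℝ, (R = A ∨ R = B) → MeasurableSet R ∧ volume.real R = h := by
      intro R hR
      rcases hR with rfl | rfl
      · exact ⟨hAm, hvA⟩
      · exact ⟨hBm, hvB⟩
    refine ⟨fun i => ?_, ⟨max b1 b2, fun i => ?_⟩, ?_⟩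
    · fin_cases i
      · exact (hme P hP).1
      · exact (hme Q hQ).1
    · fin_cases i
      · exact hsub P hP
      · exact hsub Q hQ
    · rw [Fin.prod_univ_two]
      simp only [Matrix.cons_val_zero, Matrix.cons_val_one]
      rw [(hme P hP).2, (hme Q hQ).2]
      ring
  -- same interval
  have hsame : ∀ P : Set ℝ, (P = A ∨ P = B) → 0 ≤ G ![P, P] ∧ G ![P, P] ≤ 4 * h ^ 4 := by
    intro P hP
    obtain ⟨h1, h2, h3⟩ := hbdd P P hP hP
    refine ⟨G_nonneg hD h1, ?_⟩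
    have h4 := G_le_of h1 h2 (M := 4 * h ^ 2) (by
      intro q hq
      have h5 := (hD 2 q).2.2 0 1 (by decide)
      have h6 : q 0 ∈ P := hq 0 (mem_univ _)
      have h7 : q 1 ∈ P := hq 1 (mem_univ _)
      have h8 : (q 0 - q 1) ^ 2 ≤ h ^ 2 := by
        rw [sq_le_sq, abs_of_pos hh, abs_le]
        rcases hP with rfl | rfl
        · rw [hA] at h6 h7
          constructor <;> linarith [h6.1, h6.2, h7.1, h7.2]
        · rw [hB] at h6 h7
          constructor <;> linarith [h6.1, h6.2, h7.1, h7.2]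
      linarith)
    rw [h3] at h4
    nlinarith
  -- different intervals
  have hdiff : ∀ P Q : Set ℝ, ((P = A ∧ Q = B) ∨ (P = B ∧ Q = A)) →
      h ^ 2 * (1 - Real.sinc (Real.pi * u) ^ 2) - 8 * h ^ 3 ≤ G ![P, Q] ∧
      G ![P, Q] ≤ h ^ 2 * (1 - Real.sinc (Real.pi * u) ^ 2) + 8 * h ^ 3 := by
    intro P Q hPQ
    obtain ⟨h1, h2, h3⟩ := hbdd P Q (by tauto) (by tauto)
    have h4 : ∀ q ∈ Set.pi univ (![P, Q] : Fin 2 → Set ℝ),
        |D q - (1 - Real.sinc (Real.pi * u) ^ 2)| ≤ 8 * h := by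
      intro q hq
      have h6 : q 0 ∈ P := hq 0 (mem_univ _)
      have h7 : q 1 ∈ Q := hq 1 (mem_univ _)
      rcases hPQ with ⟨rfl, rfl⟩ | ⟨rfl, rfl⟩
      · rw [hA] at h6
        rw [hB] at h7
        have e : Real.sinc (Real.pi * (q 0 - q 1)) = Real.sinc (Real.pi * (q 1 - q 0)) := by
          rw [← Real.sinc_neg]
          congr 1
          ring
        rw [D_two, e]
        refine (phi_lip _ _).trans ?_
        have : |q 1 - q 0 - u| ≤ h := by
          rw [abs_le]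
          constructor <;> linarith [h6.1, h6.2, h7.1, h7.2]
        linarith
      · rw [hB] at h6
        rw [hA] at h7
        rw [D_two]
        refine (phi_lip _ _).trans ?_
        have : |q 0 - q 1 - u| ≤ h := by
          rw [abs_le]
          constructor <;> linarith [h6.1, h6.2, h7.1, h7.2]
        linarith
    have h5 := G_le_of h1 h2 (M := (1 - Real.sinc (Real.pi * u) ^ 2) + 8 * h)
      (fun q hq => by linarith [(abs_le.1 (h4 q hq)).2])
    have h6 := G_ge_of h1 h2 (M := (1 - Real.sinc (Real.pi * u) ^ 2) - 8 * h)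
      (fun q hq => by linarith [(abs_le.1 (h4 q hq)).1])
    rw [h3] at h5 h6
    constructor <;> nlinarith
  have a1 := hsame A (Or.inl rfl)
  have a2 := hsame B (Or.inr rfl)
  have a3 := hdiff A B (Or.inl ⟨rfl, rfl⟩)
  have a4 := hdiff B A (Or.inr ⟨rfl, rfl⟩)
  constructor <;> linarith [a1.1, a1.2, a2.1, a2.2, a3.1, a3.2, a4.1, a4.2]

end Pool.Agent.N805.VP
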