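import Pool.Agent.N805.VP.KH

/-! # Pairs of short intervals: the criterion for the pair correlation -/

set_option autoImplicit false

open MeasureTheory Set Filter Topology

namespace Pool.Agent.N805.VP

open Pool.Agent.Y749.Rig hiding wt
open SG (ord NZ zmult ZS)
open LG (dlt)
open W200.HW (Ix mem_Ix card_Ix)
open Pool.Agent.R320.KL (Nk)
open Pool.Agent.N805.OS (ps EqL rt ii sn nT_top Full Nk_eq X_eq I_eq base)

/-- lower bound for the covering probabilities of pairs of short intervals -/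
def TwoL (l : Filter ℝ) (C h u : ℝ) : Prop := ∀ ε : ℝ, 0 < ε → ∀ᶠ T in l,
  2 * h - h ^ 2 * (1 - Real.sinc (Real.pi * u) ^ 2) - C * h ^ 3 - ε ≤
    Cv T (Ico 0 h ∪ Ico u (u + h))

lemma cov_shift (J : Finset ℕ) (x : ℕ → ℝ) (W W' : Set ℝ) (c : ℝ) (h : ∀ v, v ∈ W' ↔ v - c ∈ W) :
    cov J x W' = cov J x W := by
  unfold cov
  have e : {t : ℝ | ∃ n ∈ J, x n - t ∈ W'} = (fun t => t + c) ⁻¹' {t : ℝ | ∃ n ∈ J, x n - t ∈ W} := by
    ext t
    simp only [mem_setOf_eq, mem_preimage, h]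
    have e1 : ∀ n, x n - t - c = x n - (t + c) := fun n => by ring
    simp_rw [e1]
  rw [e, measureReal_def, measureReal_def]
  congr 1
  exact measure_preimage_add_right volume c _

lemma PK_two (W : Set ℝ) : 1 - PK 2 1 W = G (fun _ : Fin 1 => W) - 1 / 2 * G (fun _ : Fin 2 => W) := by
  unfold PK
  rw [Finset.sum_range_succ, Finset.sum_range_succ, Finset.sum_range_one, G_zero]
  norm_num [Nat.factorial]
  ring

/-- the conjecture implies the bound -/
lemma two_of (hD : S_DET) (hSPL : S_SPL) {l : Filter ℝ} (h2 : LowK l 2) {h u : ℝ} (hh : 0 < h)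
    (hh1 : h ≤ 1) (hu : h ≤ u) : TwoL l 12 h u := by
  intro ε hε
  have e : (⋃ i : Fin 2, Ico ((![0, u] : Fin 2 → ℝ) i) ((![h, u + h] : Fin 2 → ℝ) i)) =
      Ico 0 h ∪ Ico u (u + h) := by
    ext v
    simp [Fin.exists_fin_two]
  have h1 := h2 2 ![0, u] ![h, u + h] ε hε
  rw [e] at h1
  have e1 : Ico 0 h ∪ Ico u (u + h) = Ico 0 (0 + h) ∪ Ico (0 + u) (0 + u + h) := by
    rw [zero_add, zero_add]
  have h3 := (G2_est hD hSPL hh hu 0).2
  rw [← e1] at h3
  have hb : ∃ b : ℝ, Ico 0 h ∪ Ico u (u + h) ⊆ Icc (-b) b := by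
    refine ⟨u + h, ?_⟩
    rintro v (hv | hv)
    · constructor <;> linarith [hv.1, hv.2]
    · constructor <;> linarith [hv.1, hv.2]
  have h4 : G (fun _ : Fin 1 => Ico 0 h ∪ Ico u (u + h)) = 2 * h := by
    have hd : Disjoint (Ico 0 h) (Ico u (u + h)) := by
      rw [Set.disjoint_left]
      intro v h1 h2
      linarith [h1.2, h2.1]
    rw [G_one (measurableSet_Ico.union measurableSet_Ico) hb,
      measureReal_union (μ := volume) hd measurableSet_Ico
        (by rw [Real.volume_Ico]; exact ENNReal.ofReal_ne_top)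
        (by rw [Real.volume_Ico]; exact ENNReal.ofReal_ne_top),
      Real.volume_real_Ico_of_le hh.le, Real.volume_real_Ico_of_le (by linarith)]
    ring
  have h5 : h ^ 4 ≤ h ^ 3 := pow_le_pow_of_le_one hh.le hh1 (by norm_num)
  filter_upwards [h1] with T hT
  rw [PK_two, h4] at hT
  linarith

/-- the bound implies the conjecture -/
lemma covC_two (hD : S_DET) (hSPL : S_SPL) {l : Filter ℝ} (hl : l ≤ atTop)
    (H : ∀ B : ℝ, ∃ C : ℝ, ∀ h u : ℝ, 0 < h → h ≤ 1 → h ≤ u → u ≤ B → TwoL l C h u) :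
    CovC l Ix ps nT 2 := by
  intro b
  obtain ⟨C, hC⟩ := H (2 * b + 1)
  obtain ⟨C', hC'⟩ : ∃ C' : ℝ, C' = max C 0 := ⟨_, rfl⟩
  have hC0 : 0 ≤ C' := by rw [hC']; exact le_max_right _ _
  have hCC : C ≤ C' := by rw [hC']; exact le_max_left _ _
  have h10 : ∀ᶠ T in l, 10 ≤ T := hl (eventually_ge_atTop 10)
  have hX : ∀ᶠ T in l, 0 < nT T := hl (nT_top.eventually_gt_atTop 0)
  refine ⟨C' + 8, by positivity, fun r hr A hA hAb ε hε => ?_⟩
  have hr0 : (0 : ℝ) < r := by exact_mod_cast hr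
  have hr1 : (1 : ℝ) ≤ r := by exact_mod_cast hr
  obtain ⟨h, hh'⟩ : ∃ h : ℝ, h = 1 / (r : ℝ) := ⟨_, rfl⟩
  have hh : 0 < h := by rw [hh']; positivity
  have hh1 : h ≤ 1 := by rw [hh', div_le_one hr0]; exact hr1
  rw [← hh']
  have hG1 : G (fun _ : Fin 1 => U h A) ≤ A.card * h := by
    rw [G_one (U_meas _ _) (U_bdd h hh A)]
    exact U_vol hh.le A
  have hG2 : 0 ≤ G (fun _ : Fin 2 => U h A) := G_nonneg hD fun _ => U_meas _ _
  rw [PK_two]
  obtain hA0 | hA1 | hA2 : A.card = 0 ∨ A.card = 1 ∨ A.card = 2 := by omega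
  · filter_upwards [hX] with T hT
    rw [hA0] at hG1
    have h1 : 0 ≤ cov (Ix T) (ps T) (U h A) / nT T := div_nonneg measureReal_nonneg hT.le
    have h2 : 0 ≤ (C' + 8) * h ^ (2 + 1) := by positivity
    rw [Nat.cast_zero, zero_mul] at hG1
    refine le_trans ?_ h1
    obtain ⟨z, hz⟩ : ∃ z : ℝ, z = (C' + 8) * h ^ (2 + 1) := ⟨_, rfl⟩
    rw [← hz] at h2 ⊢
    linarith
  · obtain ⟨a, rfl⟩ := Finset.card_eq_one.1 hA1
    have h1 := hC (h / 2) (h / 2) (by positivity) (by linarith) le_rfl (by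
      have : (0 : ℝ) ≤ b := Nat.cast_nonneg b
      linarith) ε hε
    have e1 : Ico 0 (h / 2) ∪ Ico (h / 2) (h / 2 + h / 2) = Ico 0 h := by
      rw [add_halves]
      exact Ico_union_Ico_eq_Ico (by positivity) (by linarith)
    rw [e1] at h1
    have h3 : 1 - Real.sinc (Real.pi * (h / 2)) ^ 2 ≤ h ^ 2 := by
      have h4 := (hD 2 ![h / 2, 0]).2.2 0 1 (by decide)
      rw [D_two] at h4
      simp only [Matrix.cons_val_zero, Matrix.cons_val_one, sub_zero] at h4
      nlinarith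
    filter_upwards [h1, h10] with T h2 hT
    rw [Cv_eq hT] at h2
    have h5 : cov (Ix T) (ps T) (U h {a}) = cov (Ix T) (ps T) (Ico 0 h) := by
      refine cov_shift _ _ _ _ (a * h) fun v => ?_
      rw [U_single]
      unfold cell
      simp only [mem_Ico]
      constructor <;> rintro ⟨h6, h7⟩ <;> constructor <;> linarith
    rw [h5]
    rw [Finset.card_singleton, Nat.cast_one, one_mul] at hG1
    have h6 : (h / 2) ^ 2 * (1 - Real.sinc (Real.pi * (h / 2)) ^ 2) ≤ h ^ 3 := by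
      have h7 : (h / 2) ^ 2 * (1 - Real.sinc (Real.pi * (h / 2)) ^ 2) ≤ (h / 2) ^ 2 * h ^ 2 :=
        mul_le_mul_of_nonneg_left h3 (by positivity)
      have h8 : h ^ 4 ≤ h ^ 3 := pow_le_pow_of_le_one hh.le hh1 (by norm_num)
      nlinarith [pow_pos hh 3]
    have h7 : C * (h / 2) ^ 3 ≤ C' * h ^ 3 := by
      calc C * (h / 2) ^ 3 ≤ C' * (h / 2) ^ 3 := mul_le_mul_of_nonneg_right hCC (by positivity)
        _ ≤ C' * h ^ 3 := by
            refine mul_le_mul_of_nonneg_left ?_ hC0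
            exact pow_le_pow_left₀ (by positivity) (by linarith) 3
    have h8 : (C' + 8) * h ^ (2 + 1) = C' * h ^ 3 + 8 * h ^ 3 := by ring
    rw [h8]
    have h9 : 0 ≤ h ^ 3 := by positivity
    linarith
  · obtain ⟨a, a', haa, rfl⟩ : ∃ a a' : ℤ, a < a' ∧ A = {a, a'} := by
      obtain ⟨a, a', hne, rfl⟩ := Finset.card_eq_two.1 hA2
      rcases lt_or_gt_of_ne hne with h1 | h1
      · exact ⟨a, a', h1, rfl⟩
      · exact ⟨a', a, h1, Finset.pair_comm a a'⟩
    obtain ⟨u, hu⟩ : ∃ u : ℝ, u = ((a' : ℝ) - a) * h := ⟨_, rfl⟩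
    have hua : h ≤ u := by
      have : (1 : ℝ) ≤ (a' : ℝ) - a := by
        have : (a : ℝ) + 1 ≤ a' := by exact_mod_cast haa
        linarith
      rw [hu]
      nlinarith
    have hub : u ≤ 2 * b + 1 := by
      have h1 := hAb a (by simp)
      have h2 := hAb a' (by simp)
      have h3 : |(a : ℝ)| ≤ b * r := by exact_mod_cast h1
      have h4 : |(a' : ℝ)| ≤ b * r := by exact_mod_cast h2
      have h5 : (a' : ℝ) - a ≤ 2 * b * r := by linarith [neg_abs_le (a : ℝ), le_abs_self (a' : ℝ)]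
      have h6 : ((a' : ℝ) - a) * h ≤ 2 * b * r * h := mul_le_mul_of_nonneg_right h5 hh.le
      have h7 : 2 * b * r * h = 2 * (b : ℝ) := by rw [hh']; field_simp
      rw [hu]
      linarith
    have hUe : U h {a, a'} = Ico ((a : ℝ) * h) (a * h + h) ∪ Ico (a * h + u) (a * h + u + h) := by
      unfold U
      rw [Finset.set_biUnion_insert, Finset.set_biUnion_singleton]
      unfold cell
      congr 1
      · congr 1
        ring
      · congr 1
        · rw [hu]; ring
        · rw [hu]; ring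
    have hest := (G2_est hD hSPL hh hua ((a : ℝ) * h)).1
    rw [← hUe] at hest
    filter_upwards [hC h u hh hh1 hua hub ε hε, h10] with T h2 hT
    rw [Cv_eq hT] at h2
    have h5 : cov (Ix T) (ps T) (U h {a, a'}) = cov (Ix T) (ps T) (Ico 0 h ∪ Ico u (u + h)) := by
      refine cov_shift _ _ _ _ (a * h) fun v => ?_
      rw [hUe]
      simp only [mem_union, mem_Ico]
      constructor
      · rintro (⟨h6, h7⟩ | ⟨h6, h7⟩)
        · left; constructor <;> linarith
        · right; constructor <;> linarith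
      · rintro (⟨h6, h7⟩ | ⟨h6, h7⟩)
        · left; constructor <;> linarith
        · right; constructor <;> linarith
    rw [h5]
    rw [hA2] at hG1
    push_cast at hG1
    have h7 : C * h ^ 3 ≤ C' * h ^ 3 := mul_le_mul_of_nonneg_right hCC (by positivity)
    have h8 : (C' + 8) * h ^ (2 + 1) = C' * h ^ 3 + 8 * h ^ 3 := by ring
    rw [h8]
    linarith

/-- **the pair correlation conjecture and pairs of short intervals** -/
theorem mainPair (RH : RiemannHypothesis) {l : Filter ℝ} (hl : l ≤ atTop) :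
    (Full l 1 → ∀ h u : ℝ, 0 < h → h ≤ 1 → h ≤ u → TwoL l 12 h u) ∧
    ((∀ B : ℝ, ∃ C : ℝ, ∀ h u : ℝ, 0 < h → h ≤ 1 → h ≤ u → u ≤ B → TwoL l C h u) → Full l 1) := by
  constructor
  · intro h1 h u hh hh1 hu
    refine two_of N424.VP.DET N401.VP.SPL ((mainK RH hl 2).1 even_two fun k hk1 hk2 => ?_) hh hh1 hu
    have : k = 1 := by omega
    rw [this]
    exact h1
  · intro h
    rw [full_iff]
    exact cov_to_corC RH hl N424.VP.DET N861.VP.BON N401.VP.SPL N368.VP.SYM N99.VP.HOL N478.VP.PRD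
      N296.VP.DIF2 (covC_two N424.VP.DET N401.VP.SPL hl h) 1 (by norm_num)

end Pool.Agent.N805.VP
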