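import Pool.Agent.N805.VP.KI

/-! # The pair correlation conjecture in terms of pairs of ordinates -/

set_option autoImplicit false

open MeasureTheory Set Filter Topology

namespace Pool.Agent.N805.VP

open Pool.Agent.Y749.Rig hiding wt
open SG (ord NZ zmult ZS)
open LG (dlt)
open W200.HW (Ix mem_Ix card_Ix)
open Pool.Agent.R320.KL (Nk)
open Pool.Agent.N805.OS (ps EqL rt ii sn nT_top Full Nk_eq X_eq I_eq base At mem_At At_zero ii_zero)

/-- pairs of zeros -/
noncomputable def Npr (T α β : ℝ) : ℕ := {p : ℕ × ℕ | (1 ≤ p.1 ∧ ord p.1 ≤ T) ∧ (1 ≤ p.2 ∧ ord p.2 ≤ T) ∧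
  2 * Real.pi * α / Real.log T ≤ ord p.1 - ord p.2 ∧
  ord p.1 - ord p.2 ≤ 2 * Real.pi * β / Real.log T}.ncard

/-- the constant -/
noncomputable def Pc (α β : ℝ) : ℝ :=
  (∫ u in α..β, (1 - Real.sinc (Real.pi * u) ^ 2)) + if α ≤ 0 ∧ 0 ≤ β then 1 else 0

lemma Npr_eq {T : ℝ} (hT : 10 ≤ T) (α β : ℝ) : (Npr T α β : ℝ) =
    ((At T (fun _ : Fin 1 => α) (fun _ => β)).card : ℝ) +
      if α ≤ 0 ∧ 0 ≤ β then (NZ T : ℝ) else 0 := by
  classical
  have hL : 0 < Real.log T := Real.log_pos (by linarith)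
  have hpi := Real.pi_pos
  have hiff : ∀ m n : ℕ, (2 * Real.pi * α / Real.log T ≤ ord m - ord n ∧
      ord m - ord n ≤ 2 * Real.pi * β / Real.log T) ↔ ps T m - ps T n ∈ Icc α β := by
    intro m n
    rw [Pool.Agent.N805.OS.ps_sub, mem_Icc, div_le_iff₀ hL, le_div_iff₀ hL, le_div_iff₀ (by positivity),
      div_le_iff₀ (by positivity)]
    constructor <;> rintro ⟨h1, h2⟩ <;> constructor <;> linarith
  have hset : {p : ℕ × ℕ | (1 ≤ p.1 ∧ ord p.1 ≤ T) ∧ (1 ≤ p.2 ∧ ord p.2 ≤ T) ∧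
      2 * Real.pi * α / Real.log T ≤ ord p.1 - ord p.2 ∧
      ord p.1 - ord p.2 ≤ 2 * Real.pi * β / Real.log T} =
      (((Ix T ×ˢ Ix T).filter fun p => ps T p.1 - ps T p.2 ∈ Icc α β : Finset (ℕ × ℕ)) :
        Set (ℕ × ℕ)) := by
    ext p
    simp only [mem_setOf_eq, Finset.coe_filter, Finset.mem_product, mem_Ix]
    rw [hiff]
    tauto
  unfold Npr
  rw [hset, Set.ncard_coe_finset, ← Finset.card_filter_add_card_filter_not (fun p : ℕ × ℕ => p.1 = p.2),
    Nat.cast_add, add_comm]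
  congr 1
  · norm_cast
    refine Finset.card_bij (fun p _ => (p.2, fun _ : Fin 1 => p.1)) ?_ ?_ ?_
    · intro p hp
      rw [Finset.mem_filter, Finset.mem_filter, Finset.mem_product] at hp
      rw [mem_At]
      refine ⟨⟨hp.1.1.2, fun _ => hp.1.1.1⟩, Function.injective_of_subsingleton _, fun _ => ?_,
        fun _ => hp.1.2⟩
      exact hp.2
    · intro p _ q _ h
      rw [Prod.mk.injEq] at h
      exact Prod.ext (congrFun h.2 0) h.1
    · intro q hq
      rw [mem_At] at hq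
      refine ⟨(q.2 0, q.1), ?_, ?_⟩
      · rw [Finset.mem_filter, Finset.mem_filter, Finset.mem_product]
        exact ⟨⟨⟨hq.1.2 0, hq.1.1⟩, hq.2.2.2 0⟩, hq.2.2.1 0⟩
      · refine Prod.ext rfl ?_
        funext i
        fin_cases i
        rfl
  · split_ifs with h0
    · norm_cast
      rw [← card_Ix]
      refine Finset.card_bij (fun p _ => p.1) ?_ ?_ ?_
      · intro p hp
        rw [Finset.mem_filter, Finset.mem_filter, Finset.mem_product] at hp
        exact hp.1.1.1
      · intro p hp q hq h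
        rw [Finset.mem_filter] at hp hq
        refine Prod.ext h ?_
        rw [← hp.2, ← hq.2]
        exact h
      · intro n hn
        refine ⟨(n, n), ?_, rfl⟩
        rw [Finset.mem_filter, Finset.mem_filter, Finset.mem_product]
        refine ⟨⟨⟨hn, hn⟩, ?_⟩, rfl⟩
        rw [sub_self]
        exact h0
    · norm_cast
      rw [Finset.card_eq_zero, Finset.filter_eq_empty_iff]
      intro p hp h
      rw [Finset.mem_filter] at hp
      apply h0
      have := hp.2
      rw [h, sub_self] at this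
      exact this

lemma ii_one (α β : ℝ) (h : α ≤ β) : ii (fun _ : Fin 1 => α) (fun _ => β) =
    ∫ u in α..β, (1 - Real.sinc (Real.pi * u) ^ 2) := by
  rw [← H_eq]
  unfold H
  have hmp := volume_preserving_funUnique (Fin 1) ℝ
  have h1 := hmp.setIntegral_preimage_emb (MeasurableEquiv.measurableEmbedding _)
    (fun u : ℝ => 1 - Real.sinc (Real.pi * u) ^ 2) (Icc α β)
  have h2 : (MeasurableEquiv.funUnique (Fin 1) ℝ) ⁻¹' (Icc α β) =
      Icc (fun _ : Fin 1 => α) (fun _ => β) := by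
    ext w
    rw [mem_preimage, mem_Icc, mem_Icc, Pi.le_def, Pi.le_def]
    constructor
    · rintro ⟨h3, h4⟩
      refine ⟨fun i => ?_, fun i => ?_⟩
      · fin_cases i
        exact h3
      · fin_cases i
        exact h4
    · rintro ⟨h3, h4⟩
      exact ⟨h3 0, h4 0⟩
  rw [h2] at h1
  rw [intervalIntegral.integral_of_le h, ← integral_Icc_eq_integral_Ioc, ← h1]
  refine setIntegral_congr_fun measurableSet_Icc fun u _ => ?_
  rw [D_two]
  have e : Real.pi * ((Fin.cons 0 u : Fin 2 → ℝ) 0 - (Fin.cons 0 u : Fin 2 → ℝ) 1) =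
      -(Real.pi * u 0) := by
    have : (Fin.cons 0 u : Fin 2 → ℝ) 1 = u 0 := rfl
    rw [this, Fin.cons_zero]
    ring
  rw [e, Real.sinc_neg]
  rfl

lemma NZ_lim {l : Filter ℝ} (hl : l ≤ atTop) : Tendsto (fun T => (NZ T : ℝ) / nT T) l (𝓝 1) := by
  have h := base hl (fun i => i.elim0) (fun i => i.elim0) (fun i => i.elim0)
  rw [ii_zero] at h
  refine h.congr fun T => ?_
  unfold rt
  rw [At_zero]

/-- the pair correlation conjecture -/
lemma pc_iff {l : Filter ℝ} (hl : l ≤ atTop) : Full l 1 ↔ ∀ α β : ℝ, α < β →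
    Tendsto (fun T => (Npr T α β : ℝ) / (T / (2 * Real.pi) * Real.log T)) l (𝓝 (Pc α β)) := by
  have hX : ∀ T : ℝ, T / (2 * Real.pi) * Real.log T = nT T := by
    intro T
    unfold nT
    ring
  simp_rw [hX]
  have h10 : ∀ᶠ T in l, 10 ≤ T := hl (eventually_ge_atTop 10)
  have hδ : ∀ α β : ℝ, Tendsto (fun T => (if α ≤ 0 ∧ 0 ≤ β then (NZ T : ℝ) else 0) / nT T) l
      (𝓝 (if α ≤ 0 ∧ 0 ≤ β then 1 else 0)) := by
    intro α β
    split_ifs
    · exact NZ_lim hl
    · simp only [zero_div]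
      exact tendsto_const_nhds
  rw [full_iff]
  constructor
  · intro h α β hαβ
    have h1 := (h (fun _ => α) (fun _ => β) (fun _ => hαβ)).add (hδ α β)
    rw [ii_one α β hαβ.le] at h1
    refine h1.congr' ?_
    filter_upwards [h10] with T hT
    rw [Npr_eq hT]
    unfold rt
    rw [add_div]
  · intro h x y hxy
    have ex : x = fun _ => x 0 := by funext i; fin_cases i; rfl
    have ey : y = fun _ => y 0 := by funext i; fin_cases i; rfl
    rw [ex, ey, ii_one _ _ (hxy 0).le]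
    have h1 := (h (x 0) (y 0) (hxy 0)).sub (hδ (x 0) (y 0))
    have e : Pc (x 0) (y 0) - (if x 0 ≤ 0 ∧ 0 ≤ y 0 then 1 else 0) =
        ∫ u in x 0..y 0, (1 - Real.sinc (Real.pi * u) ^ 2) := by
      unfold Pc
      ring
    rw [e] at h1
    refine h1.congr' ?_
    filter_upwards [h10] with T hT
    rw [Npr_eq hT]
    unfold rt
    rw [add_div]
    ring

end Pool.Agent.N805.VP
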