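import Pool.Agent.N805.VP.KA

/-! # From all small `z` to one moment, after helper618 (N618/VP/OSL.lean) -/

set_option autoImplicit false

namespace Pool.Agent.N805.VP
open Filter Topology Set MeasureTheory
open Pool.Agent.N618.VP (tail_bound choice)

/-- from all small `z` to one moment, with an error of higher order in `z` -/
theorem OSL3 (l : Filter ℝ) (a : ℕ → ℝ → ℝ) (F : ℝ → ℝ → ℝ) (g : ℕ → ℝ) (v C₀ : ℝ) (m : ℕ)
    (hm : 1 ≤ m) (hC₀ : 0 ≤ C₀) (h0 : g 0 = 1) (hg : ∀ k, 0 ≤ g k ∧ g k ≤ v ^ k)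
    (ha : ∀ k T, 0 ≤ a k T) (hlim : ∀ k, 1 ≤ k → k < m → Tendsto (a k) l (𝓝 (g k)))
    (hC : ∃ C : ℝ, ∀ᶠ T in l, a (m + 1) T ≤ C)
    (hlow : ∀ z : ℝ, 0 < z → z ≤ 1 → ∀ ε : ℝ, 0 < ε → ∀ᶠ T in l,
      1 - (∑' k : ℕ, (-z) ^ k / (k.factorial : ℝ) * g k) - C₀ * z ^ (m + 1) - ε ≤ F z T)
    (hup : ∀ z : ℝ, 0 < z → z ≤ 1 → ∀ K : ℕ, Odd K → ∀ᶠ T in l, F z T ≤ -∑ k ∈ Finset.range K,
      (-z) ^ (k + 1) / ((k + 1).factorial : ℝ) * a (k + 1) T) :
    (Even m → ∀ ε : ℝ, 0 < ε → ∀ᶠ T in l, a m T ≤ g m + ε) ∧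
    (Odd m → ∀ ε : ℝ, 0 < ε → ∀ᶠ T in l, g m - ε ≤ a m T) := by
  have hv : 0 ≤ v := by
    have := hg 1
    rw [pow_one] at this
    exact this.1.trans this.2
  obtain ⟨n, rfl⟩ : ∃ n, m = n + 1 := ⟨m - 1, by omega⟩
  obtain ⟨C, hC⟩ := hC
  -- the sum of the lower terms tends to zero
  have hS : ∀ z : ℝ, Tendsto (fun T => ∑ k ∈ Finset.range n,
      (-z) ^ (k + 1) / ((k + 1).factorial : ℝ) * (g (k + 1) - a (k + 1) T)) l (𝓝 0) := by
    intro z
    have : Tendsto (fun T => ∑ k ∈ Finset.range n,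
      (-z) ^ (k + 1) / ((k + 1).factorial : ℝ) * (g (k + 1) - a (k + 1) T)) l
        (𝓝 (∑ k ∈ Finset.range n, (-z) ^ (k + 1) / ((k + 1).factorial : ℝ) *
          (g (k + 1) - g (k + 1)))) := by
      refine tendsto_finsetSum _ fun k hk => ?_
      refine Tendsto.const_mul _ (tendsto_const_nhds.sub (hlim (k + 1) (by omega) ?_))
      have := Finset.mem_range.1 hk
      omega
    simpa using this
  have hS' : ∀ z ε : ℝ, 0 < ε → ∀ᶠ T in l, ∑ k ∈ Finset.range n,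
      (-z) ^ (k + 1) / ((k + 1).factorial : ℝ) * (g (k + 1) - a (k + 1) T) ≤ ε := by
    intro z ε hε
    filter_upwards [(hS z).eventually_lt_const hε] with T hT
    exact hT.le
  constructor
  · intro hev η hη
    have hodd : Odd (n + 2) := by
      rcases hev with ⟨c, hc⟩
      exact ⟨c, by omega⟩
    obtain ⟨z, ε, hz, hz1, hε, hch⟩ := choice (n + 1) (Real.exp v + max C 0 + C₀) η
      (by have := Real.exp_pos v; have := le_max_right C 0; linarith) hη
    filter_upwards [hC, hS' z ε hε, hlow z hz hz1 ε hε, hup z hz hz1 (n + 2) hodd]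
      with T t1 t2 t3 t4
    have t5 := tail_bound g v z (n + 1) h0 hg hv hz hz1
    have t6 := hch (a (n + 1) T - g (n + 1)) _ t2 (by
      rw [Finset.sum_range_succ, Finset.sum_range_succ] at t4
      rw [Finset.sum_range_succ] at t5
      have e1 : (-z) ^ (n + 1) = z ^ (n + 1) := Even.neg_pow hev z
      have e2 : (-z) ^ (n + 1 + 1) = -z ^ (n + 1 + 1) := Odd.neg_pow hodd z
      rw [e1] at t4 t5
      rw [e2] at t4
      simp only [mul_sub, Finset.sum_sub_distrib]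
      have t7 : z ^ (n + 1 + 1) / ((n + 1 + 1).factorial : ℝ) * a (n + 1 + 1) T ≤
          z ^ (n + 1 + 1) * max C 0 := by
        have f1 : (1 : ℝ) ≤ ((n + 1 + 1).factorial : ℝ) := by
          exact_mod_cast Nat.one_le_iff_ne_zero.2 (Nat.factorial_ne_zero _)
        have f2 : z ^ (n + 1 + 1) / ((n + 1 + 1).factorial : ℝ) ≤ z ^ (n + 1 + 1) :=
          div_le_self (by positivity) f1
        exact mul_le_mul f2 (t1.trans (le_max_left _ _)) (ha _ _) (by positivity)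
      have e3 : -z ^ (n + 1 + 1) / ((n + 1 + 1).factorial : ℝ) * a (n + 1 + 1) T =
        -(z ^ (n + 1 + 1) / ((n + 1 + 1).factorial : ℝ) * a (n + 1 + 1) T) := by ring
      rw [e3] at t4
      have e4 : z ^ (n + 1 + 1) * (Real.exp v + max C 0 + C₀) =
        z ^ (n + 1 + 1) * Real.exp v + z ^ (n + 1 + 1) * max C 0 + C₀ * z ^ (n + 1 + 1) := by ring
      rw [e4]
      linarith)
    linarith
  · intro hodd η hη
    obtain ⟨z, ε, hz, hz1, hε, hch⟩ := choice (n + 1) (Real.exp v + C₀) η (by have := Real.exp_pos v; linarith) hη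
    filter_upwards [hS' z ε hε, hlow z hz hz1 ε hε, hup z hz hz1 (n + 1) hodd]
      with T t2 t3 t4
    have t5 := tail_bound g v z (n + 1) h0 hg hv hz hz1
    have t6 := hch (g (n + 1) - a (n + 1) T) _ t2 (by
      rw [Finset.sum_range_succ] at t4 t5
      have e2 : (-z) ^ (n + 1) = -z ^ (n + 1) := Odd.neg_pow hodd z
      rw [e2] at t4 t5
      simp only [mul_sub, Finset.sum_sub_distrib]
      have e3 : ∀ y : ℝ, -z ^ (n + 1) / ((n + 1).factorial : ℝ) * y =
        -(z ^ (n + 1) / ((n + 1).factorial : ℝ) * y) := fun y => by ring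
      rw [e3] at t4 t5
      have e4 : z ^ (n + 1 + 1) * (Real.exp v + C₀) =
        z ^ (n + 1 + 1) * Real.exp v + C₀ * z ^ (n + 1 + 1) := by ring
      rw [e4]
      linarith)
    linarith

end Pool.Agent.N805.VP
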