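import Pool.Agent.N805.VP.Ind2
import Pool.Agent.N805.OS.F

/-! # Repulsion: pairs of zeros and cells -/

set_option autoImplicit false

open MeasureTheory Set Filter Topology

namespace Pool.Agent.N805.VP

open Pool.Agent.Y749.Rig
open SG (ord NZ zmult ZS)
open W200.HW (Ix mem_Ix card_Ix)
open Pool.Agent.R320.KL (Nk)
open Pool.Agent.N805.OS (ps EqL rt ii sn nT_top Full Nk_eq X_eq I_eq)

/-- pairs of zeros at small distance are rare -/
def RepZ (l : Filter ℝ) : Prop := ∀ κ : ℝ, 0 < κ → ∃ β₀ : ℝ, 0 < β₀ ∧ ∀ β : ℝ, 0 < β → β ≤ β₀ →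
  ∀ᶠ T in l, (Nk T (fun _ : Fin 1 => -β) (fun _ => β) : ℝ) / Pool.Agent.N805.OS.X T ≤ κ * β

lemma mom_pair (J : Finset ℕ) (x : ℕ → ℝ) {h : ℝ} (hh : 0 < h) (a : ℤ) :
    mom J x (fun _ : Fin 2 => cell h a) ≤
      h * ((dif J x (fun _ : Fin 1 => -h) (fun _ => h)).card : ℝ) := by
  classical
  obtain ⟨P, hP⟩ : ∃ P, P = dif J x (fun _ : Fin 1 => -h) (fun _ => h) := ⟨_, rfl⟩
  have hb : ∃ b : ℝ, cell h a ⊆ Icc (-b) b := ⟨_, cell_bdd hh le_rfl⟩
  have hset : ∀ n, {s : ℝ | x n - s ∈ cell h a} = Ioc (x n - (a + 1) * h) (x n - a * h) := by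
    intro n
    ext s
    unfold cell
    rw [mem_setOf_eq, mem_Ico, mem_Ioc]
    constructor <;> rintro ⟨a1, a2⟩ <;> constructor <;> linarith
  have h1 : ∀ t : ℝ, ((tup J x (fun _ : Fin 2 => cell h a) t).card : ℝ) ≤
      ∑ p ∈ P, {s : ℝ | x p.1 - s ∈ cell h a}.indicator (fun _ => (1 : ℝ)) t := by
    intro t
    have h2 : (tup J x (fun _ : Fin 2 => cell h a) t).card ≤
        (P.filter fun p => x p.1 - t ∈ cell h a).card := by
      refine Finset.card_le_card_of_injOn (fun j => (j 0, fun _ => j 1)) ?_ ?_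
      · intro j hj
        rw [Finset.mem_coe, mem_tup] at hj
        rw [Finset.mem_coe, Finset.mem_filter, hP, mem_dif]
        refine ⟨⟨⟨hj.1 0, fun _ => hj.1 1⟩, Function.injective_of_subsingleton _, fun _ hc => ?_,
          fun _ => ?_⟩, hj.2.2 0⟩
        · have := hj.2.1 hc
          simp at this
        · have h3 := hj.2.2 0
          have h4 := hj.2.2 1
          unfold cell at h3 h4
          rw [mem_Ico] at h3 h4
          simp only
          rw [mem_Icc]
          constructor <;> nlinarith [h3.1, h3.2, h4.1, h4.2]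
      · intro j _ j' _ he
        rw [Prod.mk.injEq] at he
        funext i
        fin_cases i
        · exact he.1
        · exact congrFun he.2 0
    have h3 : ((P.filter fun p => x p.1 - t ∈ cell h a).card : ℝ) =
        ∑ p ∈ P, {s : ℝ | x p.1 - s ∈ cell h a}.indicator (fun _ => (1 : ℝ)) t := by
      rw [Finset.card_filter]
      push_cast
      refine Finset.sum_congr rfl fun p _ => ?_
      rw [indicator_apply]
      rfl
    rw [← h3]
    exact_mod_cast h2
  have hint : ∀ p ∈ P, Integrable fun t =>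
      {s : ℝ | x p.1 - s ∈ cell h a}.indicator (fun _ => (1 : ℝ)) t := by
    intro p _
    rw [hset, integrable_indicator_iff measurableSet_Ioc]
    exact integrableOn_const (by simp)
  have h2 := integral_mono (int_tup (J := J) (x := x) (c := fun _ : Fin 2 => cell h a) (by omega)
    (fun _ => cell_meas h a) (by obtain ⟨b, hb⟩ := hb; exact ⟨b, fun _ => hb⟩))
    (integrable_finset_sum _ hint) h1
  refine h2.trans (le_of_eq ?_)
  rw [integral_finset_sum _ hint]
  have h3 : ∀ p ∈ P, ∫ t, {s : ℝ | x p.1 - s ∈ cell h a}.indicator (fun _ => (1 : ℝ)) t = h := by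
    intro p _
    rw [hset, integral_indicator measurableSet_Ioc, setIntegral_const, smul_eq_mul,
      Real.volume_real_Ioc_of_le (by nlinarith)]
    ring
  rw [Finset.sum_congr rfl h3, Finset.sum_const, nsmul_eq_mul, hP]
  ring

lemma rep_of {l : Filter ℝ} (hl : l ≤ atTop) (h : RepZ l) : Rep l Ix ps nT := by
  intro η hη
  obtain ⟨β₀, hβ0, hβ⟩ := h η hη
  obtain ⟨r₀, hr0⟩ := exists_nat_gt (max 1 (1 / β₀))
  have hr1 : 1 ≤ r₀ := by
    have := (le_max_left _ _).trans hr0.le
    exact_mod_cast this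
  refine ⟨r₀, hr1, fun r hr a => ?_⟩
  have hrr : (r₀ : ℝ) ≤ r := by exact_mod_cast hr
  have hr' : (0 : ℝ) < r := lt_of_lt_of_le (by exact_mod_cast hr1) hrr
  have h1 : 1 / (r : ℝ) ≤ β₀ := by
    rw [div_le_iff₀ hr']
    have h2 : 1 / β₀ ≤ r := ((le_max_right _ _).trans hr0.le).trans hrr
    rw [div_le_iff₀ hβ0] at h2
    linarith
  filter_upwards [hβ (1 / r) (by positivity) h1, hl (nT_top.eventually_gt_atTop 0)] with T h2 h3
  rw [Nk_eq, X_eq, At_eq] at h2
  rw [div_le_iff₀ h3] at h2 ⊢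
  have h4 := mom_pair (Ix T) (ps T) (show (0 : ℝ) < 1 / r by positivity) a
  refine h4.trans ?_
  calc 1 / (r : ℝ) * ((dif (Ix T) (ps T) (fun _ : Fin 1 => -(1 / (r : ℝ))) (fun _ => 1 / (r : ℝ))).card : ℝ)
      ≤ 1 / (r : ℝ) * (η * (1 / r) * nT T) := mul_le_mul_of_nonneg_left h2 (by positivity)
    _ = η / (r : ℝ) ^ 2 * nT T := by field_simp

lemma rep_of_full (hDET : S_DET) {l : Filter ℝ} (h : Full l 1) : RepZ l := by
  intro κ hκ
  obtain ⟨β₀, h0, h1⟩ : ∃ β₀ : ℝ, 0 < β₀ ∧ 8 * β₀ ^ 2 ≤ κ / 2 := by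
    refine ⟨min 1 (κ / 16), by positivity, ?_⟩
    have a1 := min_le_left 1 (κ / 16)
    have a2 := min_le_right 1 (κ / 16)
    have a3 : 0 < min 1 (κ / 16) := by positivity
    nlinarith
  refine ⟨β₀, h0, fun β hβ hββ => ?_⟩
  have h2 := h (fun _ : Fin 1 => -β) (fun _ => β) (fun _ => by linarith)
  have h3 : Pool.Agent.N805.OS.I (fun _ : Fin 1 => -β) (fun _ => β) ≤ κ / 2 * β := by
    rw [I_eq, ← H_eq]
    unfold H
    have h4 : ∫ u in Icc (fun _ : Fin 1 => -β) (fun _ => β), D (Fin.cons 0 u : Fin 2 → ℝ) ≤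
        ∫ _u in Icc (fun _ : Fin 1 => -β) (fun _ => β), 4 * β ^ 2 := by
      refine setIntegral_mono_on ?_ ?_ measurableSet_Icc fun u hu => ?_
      · refine ContinuousOn.integrableOn_compact isCompact_Icc (Continuous.continuousOn ?_)
        refine D_cont.comp (continuous_pi fun i => ?_)
        refine Fin.cases ?_ (fun i => ?_) i
        · simp only [Fin.cons_zero]
          exact continuous_const
        · simp only [Fin.cons_succ]
          exact continuous_apply i
      · exact integrableOn_const isCompact_Icc.measure_lt_top.ne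
      · have h5 := (hDET 2 (Fin.cons 0 u : Fin 2 → ℝ)).2.2 0 1 (by simp)
        refine h5.trans ?_
        have h6 : (Fin.cons 0 u : Fin 2 → ℝ) 0 = 0 := rfl
        have h7 : (Fin.cons 0 u : Fin 2 → ℝ) 1 = u 0 := rfl
        rw [h6, h7]
        have h8 := hu.1 0
        have h9 := hu.2 0
        simp only at h8 h9
        nlinarith
    refine h4.trans ?_
    rw [setIntegral_const, smul_eq_mul, measureReal_def, Real.volume_Icc_pi_toReal
      (fun _ => by linarith)]
    simp only [Finset.univ_unique, Finset.prod_singleton]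
    nlinarith [mul_pos hβ hβ, mul_pos (mul_pos hβ hβ) hβ, mul_nonneg (sub_nonneg.2 hββ) hβ.le]
  have h4 : Pool.Agent.N805.OS.I (fun _ : Fin 1 => -β) (fun _ => β) < κ * β := by
    have : 0 < κ * β := by positivity
    linarith
  exact h2.eventually_le_const h4

end Pool.Agent.N805.VP
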