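import Pool.Agent.N805.VP.Base
import Pool.Agent.N805.OS.E7

/-! # Covering probabilities: the zeros of zeta -/

set_option autoImplicit false

open MeasureTheory Set Filter Topology

namespace Pool.Agent.N805.VP

open Pool.Agent.Y749.Rig
open SG (ord NZ zmult ZS)
open W200.HW (Ix mem_Ix card_Ix)
open Pool.Agent.N805.OS (ps nu MB EqL OneS rt ii sn hier At mem_At nT_top NZ_asymp nu_nonneg)

lemma At_eq {m : ℕ} (T : ℝ) (x y : Fin m → ℝ) : At T x y = dif (Ix T) (ps T) x y := by
  ext p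
  rw [mem_At, mem_dif]

lemma D_eq {n : ℕ} (q : Fin n → ℝ) : Pool.Agent.N805.OS.D q = D q := rfl

lemma D_sn {m : ℕ} (u : Fin m → ℝ) : D (sn u) = D (Fin.cons 0 u : Fin (m + 1) → ℝ) := by
  rw [← D_perm (finRotate (m + 1)) (Fin.cons 0 u : Fin (m + 1) → ℝ)]
  congr 1
  funext i
  unfold sn
  refine Fin.lastCases ?_ (fun i => ?_) i
  · rw [Fin.snoc_last, finRotate_last]
    rfl
  · rw [Fin.snoc_castSucc, finRotate_succ_apply, Fin.coeSucc_eq_succ, Fin.cons_succ]

lemma H_eq {m : ℕ} (x y : Fin m → ℝ) : H x y = ii x y := by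
  unfold H ii
  refine setIntegral_congr_fun measurableSet_Icc fun u _ => ?_
  show D (Fin.cons 0 u : Fin (m + 1) → ℝ) = D (sn u)
  rw [D_sn]

lemma EqD_iff (l : Filter ℝ) (m : ℕ) : EqD l Ix ps nT m ↔ EqL l m := by
  unfold EqD EqL rt
  simp_rw [H_eq, At_eq]

lemma OneD_iff (l : Filter ℝ) (σ : ℝ) (m : ℕ) : OneD l Ix ps nT σ m ↔ OneS l σ m := by
  unfold OneD OneS rt
  simp_rw [H_eq, At_eq]

/-- bounded moments -/
theorem mom_bdd (RH : RiemannHypothesis) {l : Filter ℝ} (hl : l ≤ atTop) : Mom l Ix ps nT := by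
  classical
  intro b p hp
  obtain ⟨b', hb'⟩ : ∃ b' : ℝ, b' = |b| := ⟨_, rfl⟩
  have hb0 : 0 ≤ b' := by rw [hb']; positivity
  obtain ⟨C, hC, hev⟩ := MB RH (show 0 ≤ 2 * b' by rw [hb']; positivity) (p - 1)
  refine ⟨2 * b' * C, by rw [hb']; positivity, ?_⟩
  filter_upwards [hl hev] with T hT
  have hW : Icc (-b) b ⊆ Icc (-b') b' := by
    rw [hb']
    exact Icc_subset_Icc (neg_le_neg (le_abs_self b)) (le_abs_self b)
  have h1 : ∀ t : ℝ, (cnt (Ix T) (ps T) (Icc (-b) b) t : ℝ) ^ p ≤ ∑ n ∈ Ix T,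
      {s : ℝ | ps T n - s ∈ Icc (-b') b'}.indicator (fun _ => nu T (2 * b') n ^ (p - 1)) t := by
    intro t
    have h2 : (cnt (Ix T) (ps T) (Icc (-b) b) t : ℝ) ≤ cnt (Ix T) (ps T) (Icc (-b') b') t := by
      exact_mod_cast cnt_mono hW t
    refine (pow_le_pow_left₀ (Nat.cast_nonneg _) h2 p).trans ?_
    obtain ⟨q, rfl⟩ : ∃ q, p = q + 1 := ⟨p - 1, by omega⟩
    rw [pow_succ, Nat.add_sub_cancel]
    nth_rw 2 [cnt_sum]
    rw [Finset.mul_sum]
    refine Finset.sum_le_sum fun n hn => ?_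
    by_cases ht : t ∈ {s : ℝ | ps T n - s ∈ Icc (-b') b'}
    · rw [indicator_of_mem ht, indicator_of_mem ht, mul_one]
      refine pow_le_pow_left₀ (Nat.cast_nonneg _) ?_ q
      unfold cnt nu
      have h3 : ((Ix T).filter fun m => ps T m - t ∈ Icc (-b') b') ⊆
          (Ix T).filter fun m => |ps T m - ps T n| ≤ 2 * b' := by
        intro m hm
        rw [Finset.mem_filter] at hm ⊢
        refine ⟨hm.1, ?_⟩
        rw [mem_setOf_eq, mem_Icc] at ht
        rw [mem_Icc] at hm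
        rw [abs_le]
        constructor <;> linarith [ht.1, ht.2, hm.2.1, hm.2.2]
      refine Nat.cast_le.2 ((le_of_eq ?_).trans (Finset.card_le_card h3))
      congr
    · rw [indicator_of_notMem ht, indicator_of_notMem ht, mul_zero]
  have hset : ∀ n, {s : ℝ | ps T n - s ∈ Icc (-b') b'} = Icc (ps T n - b') (ps T n + b') := by
    intro n
    ext s
    rw [mem_setOf_eq, mem_Icc, mem_Icc]
    constructor <;> rintro ⟨a1, a2⟩ <;> constructor <;> linarith
  have hint : ∀ n ∈ Ix T, Integrable fun t =>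
      {s : ℝ | ps T n - s ∈ Icc (-b') b'}.indicator (fun _ => nu T (2 * b') n ^ (p - 1)) t := by
    intro n _
    rw [hset, integrable_indicator_iff measurableSet_Icc]
    exact integrableOn_const (by simp)
  have h2 := integral_mono (int_cnt (J := Ix T) (x := ps T) (W := Icc (-b) b) measurableSet_Icc
    ⟨b, subset_rfl⟩ (fun n => (n : ℝ) ^ p) (by simp; omega)) (integrable_finset_sum _ hint) h1
  refine h2.trans ?_
  rw [integral_finset_sum _ hint]
  have h3 : ∀ n ∈ Ix T, ∫ t, {s : ℝ | ps T n - s ∈ Icc (-b') b'}.indicator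
      (fun _ => nu T (2 * b') n ^ (p - 1)) t = 2 * b' * nu T (2 * b') n ^ (p - 1) := by
    intro n _
    rw [hset, integral_indicator measurableSet_Icc, setIntegral_const, smul_eq_mul,
      Real.volume_real_Icc_of_le (by linarith)]
    ring
  rw [Finset.sum_congr rfl h3, ← Finset.mul_sum, mul_assoc (2 * b') C]
  exact mul_le_mul_of_nonneg_left hT (by linarith)

/-! ## Refining the grid -/

/-- the refined index set -/
def refine' (M : ℕ) (A : Finset ℤ) : Finset ℤ :=
  A.biUnion fun a => (Finset.range M).image fun i : ℕ => a * M + (i : ℤ)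

lemma cell_refine {h : ℝ} (hh : 0 < h) {M : ℕ} (hM : 1 ≤ M) (a : ℤ) :
    cell h a = ⋃ i ∈ Finset.range M, cell (h / M) (a * M + (i : ℤ)) := by
  have hM' : (0 : ℝ) < M := by exact_mod_cast hM
  have hhM : 0 < h / M := by positivity
  ext u
  rw [mem_iUnion₂]
  unfold cell
  constructor
  · rintro ⟨h1, h2⟩
    obtain ⟨w, hw⟩ : ∃ w : ℝ, w = u / (h / M) - a * M := ⟨_, rfl⟩
    have hu : u = (a * M + w) * (h / M) := by rw [hw]; field_simp; ring
    have hw0 : 0 ≤ w := by
      rw [hw, sub_nonneg, le_div_iff₀ hhM]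
      calc (a : ℝ) * M * (h / M) = a * h := by field_simp
        _ ≤ u := h1
    have hw1 : w < M := by
      rw [hw, sub_lt_iff_lt_add, div_lt_iff₀ hhM]
      calc u < (a + 1) * h := h2
        _ = _ := by field_simp; ring
    refine ⟨⌊w⌋₊, ?_, ?_⟩
    · rw [Finset.mem_range]
      exact (Nat.floor_lt hw0).2 hw1
    · push_cast
      rw [hu]
      constructor
      · exact mul_le_mul_of_nonneg_right (by linarith [Nat.floor_le hw0]) hhM.le
      · exact mul_lt_mul_of_pos_right (by linarith [Nat.lt_floor_add_one w]) hhM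
  · rintro ⟨i, hi, h1, h2⟩
    rw [Finset.mem_range] at hi
    push_cast at h1 h2
    have hi' : (i : ℝ) + 1 ≤ M := by exact_mod_cast hi
    have hi0 : (0 : ℝ) ≤ i := Nat.cast_nonneg i
    have e1 : (a : ℝ) * M * (h / M) = a * h := by field_simp
    have e2 : ((a : ℝ) * M + M) * (h / M) = (a + 1) * h := by field_simp
    constructor
    · refine le_trans ?_ h1
      rw [← e1]
      exact mul_le_mul_of_nonneg_right (by linarith) hhM.le
    · refine lt_of_lt_of_le h2 ?_
      rw [← e2]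
      exact mul_le_mul_of_nonneg_right (by linarith) hhM.le

lemma U_refine {h : ℝ} (hh : 0 < h) {M : ℕ} (hM : 1 ≤ M) (A : Finset ℤ) :
    U h A = U (h / M) (refine' M A) := by
  unfold U refine'
  ext u
  simp only [Set.mem_iUnion, Finset.mem_biUnion, Finset.mem_image, exists_prop]
  constructor
  · rintro ⟨a, ha, hu⟩
    rw [cell_refine hh hM, mem_iUnion₂] at hu
    obtain ⟨i, hi, hu⟩ := hu
    exact ⟨_, ⟨a, ha, i, hi, rfl⟩, hu⟩
  · rintro ⟨c, ⟨a, ha, i, hi, rfl⟩, hu⟩
    refine ⟨a, ha, ?_⟩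
    rw [cell_refine hh hM, mem_iUnion₂]
    exact ⟨i, hi, hu⟩

lemma refine_card (M : ℕ) (A : Finset ℤ) : (refine' M A).card ≤ A.card * M := by
  unfold refine'
  refine (Finset.card_biUnion_le).trans ?_
  refine (Finset.sum_le_sum fun a _ => Finset.card_image_le).trans ?_
  rw [Finset.sum_const, Finset.card_range, smul_eq_mul]

end Pool.Agent.N805.VP
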